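import Pool.Agent.Lib.MP_adc574_ag_OH.S5

/-!
# LEAF S5 (folder OE): the monomial basis; less than half of the monomials have level `< m / 2` (`m` even) (medium-)

PROOF of `exists_bV`: this is contained in the proof of `exists_e` in MP_adc574_ag_OH/S5.lean (`hli`, `hsp`, `bV`): copy it.
PROOF of `card_low_even`: `count_symm` (IS/IsoB) gives as many `v` with `2 lvl v < m` as with `2 lvl v > m` (see `count_half` in IS/IsoM.lean), and there is a `v` with `2 lvl v = m`: copy the proof of `V_pos` in MP_adc574_ag_OH/OP.lean with `a = m / 2` (so `m - a = m / 2`, `(m / 2) * d ≥ m` as `d ≥ 3`): if there is no such `v` then `hC.span (m / 2)` says that all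
monomials of `tdg = (m / 2) * d` are in the Jacobian ideal, so `resf_nondeg` gives `1 ∈ Jac`: contradiction as there. `V.card = #{2 lvl < m} + #{2 lvl = m} + #{2 lvl > m}`.
-/

set_option autoImplicit false

namespace MPadcOE

open MvPolynomial MPadcGM MPadcHM MPadcLZ MPadcBK MPadcOA MPadcOH

private theorem S5_dgsub {m : ℕ} (w : Fin m →₀ ℕ) (n : ℕ) (hn : n ≤ dg w) : ∃ u : Fin m →₀ ℕ, u ≤ w ∧ dg u = n := by
  have h1 : ∀ k : ℕ, k ≤ dg w → ∃ u : Fin m →₀ ℕ, u ≤ w ∧ dg u = k := by
    intro k
    induction k with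
    | zero => intro _; exact ⟨0, fun i => Nat.zero_le _, by simp [dg]⟩
    | succ k ih =>
      intro hk
      obtain ⟨u, hu, hu'⟩ := ih (by omega)
      have h2 : ∃ i, u i < w i := by
        by_contra h3
        push Not at h3
        have h4 : w ≤ u := fun i => h3 i
        have h5 : u = w := le_antisymm hu h4
        rw [← hu', h5] at hk
        omega
      obtain ⟨i, hi⟩ := h2
      refine ⟨u + Finsupp.single i 1, fun j => ?_, ?_⟩
      · rw [Finsupp.add_apply, Finsupp.single_apply]
        split_ifs with hij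
        · subst hij
          omega
        · rw [add_zero]
          exact hu j
      · rw [MPadcIS.dg_add, hu']
        congr 1
        unfold dg
        rw [Finset.sum_eq_single i]
        · rw [Finsupp.single_eq_same]
        · intro j _ hj
          rw [Finsupp.single_apply, if_neg hj.symm]
        · intro hi'
          exact absurd (Finset.mem_univ i) hi'
  exact h1 n hn

private theorem S5_hom {K : Type} [Field K] {N m : ℕ} {P : MvPolynomial (Fin N) K} (h : Hm m P) : P.IsHomogeneous m := by
  have hdeg : ∀ e : Fin N →₀ ℕ, dg e = e.degree := by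
    intro e
    rw [Finsupp.degree_eq_sum]
    rfl
  intro e he
  have h1 := h e (mem_support_iff.2 he)
  rw [hdeg, Finsupp.degree_eq_weight_one] at h1
  exact h1

/-- there is a monomial of level `m / 2` -/
private theorem S5_mid {K : Type} [Field K] {m d : ℕ} {F : MvPolynomial (Fin m) K} {V : Finset (Fin m →₀ ℕ)}
    {c : V → (Fin m →₀ ℕ) → K} {h : K} (a : ℕ) (ha : m = 2 * a) (hm : 4 ≤ m) (hd : 3 ≤ d) (H : RegF (d - 1) F)
    (hC : CData d (m - 1) F (fun v : V => v.1) (fun v : V => lvl d v.1) c h) (hh : h ≠ 0) :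
    ∃ v : V, lvl d v.1 = a := by
  classical
  by_contra hV
  push Not at hV
  have ha1 : 1 ≤ a := by omega
  have had : m * d = a * d + a * d := by
    rw [ha]
    ring
  have hlow : m ≤ a * d := by
    have h1 : a * 3 ≤ a * d := Nat.mul_le_mul_left a hd
    omega
  have hmd : m * d = m * (d - 2) + 2 * m := by
    obtain ⟨f, hf⟩ : ∃ f, d = f + 3 := ⟨d - 3, by omega⟩
    have h5 : d - 2 = f + 1 := by omega
    rw [h5, hf]
    ring
  have hone : (1 : MvPolynomial (Fin m) K) ∈ Ideal.span (Set.range (gr F)) := by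
    refine resf_nondeg H.sop (fun j => mem_X H.he (H.hom j)) _ fun w => ?_
    rw [one_mul]
    by_cases hw : dg w + m = m * (d - 1)
    · have h7 : m * (d - 1) = m * (d - 2) + m := by
        obtain ⟨f, hf⟩ : ∃ f, d = f + 3 := ⟨d - 3, by omega⟩
        have h5 : d - 2 = f + 1 := by omega
        have h6 : d - 1 = f + 2 := by omega
        rw [h5, h6]
        ring
      obtain ⟨u, hu, hu'⟩ := S5_dgsub w (a * d - m) (by omega)
      have h8 := hC.span a (by omega) (by omega) u (by
        rw [MPadcIS.tdg_dg, hu']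
        omega)
      have h9 : ∑ v : V, (if lvl d v.1 = a then monomial v.1 (c v u) else (0 : MvPolynomial (Fin m) K)) = 0 :=
        Finset.sum_eq_zero fun v _ => if_neg (hV v)
      rw [h9, sub_zero] at h8
      have h10 : C h * monomial w 1 ∈ Ideal.span (Set.range (gr F)) := by
        have h11 : (monomial w 1 : MvPolynomial (Fin m) K) = monomial (w - u) 1 * monomial u 1 := by
          rw [monomial_mul, mul_one, tsub_add_cancel_of_le hu]
        rw [h11, mul_left_comm]
        exact Ideal.mul_mem_left _ _ h8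
      have h12 := resf_mem H.sop _ h10
      rw [← smul_eq_C_mul, map_smul, smul_eq_mul] at h12
      exact (mul_eq_zero.1 h12).resolve_left hh
    · refine resf_hom H.sop (fun _ => d - 1) H.hom _ _ (hm_mono w 1) ?_
      rw [Finset.sum_const, Finset.card_univ, Fintype.card_fin, smul_eq_mul]
      exact hw
  obtain ⟨Q, hQ⟩ := Ideal.mem_span_range_iff_exists_fun.1 hone
  have h1 := congrArg (constantCoeff (σ := Fin m) (R := K)) hQ
  rw [map_sum, map_one, Finset.sum_eq_zero] at h1
  · exact zero_ne_one h1
  · intro j _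
    rw [map_mul]
    refine mul_eq_zero_of_right _ ?_
    rw [constantCoeff_eq]
    by_contra h2
    have h3 := H.hom j 0 (mem_support_iff.2 h2)
    have h4 : dg (0 : Fin m →₀ ℕ) = 0 := by simp [dg]
    rw [h4] at h3
    omega

theorem exists_bV {κ : Type} [Field κ] [CharZero κ] {m : ℕ} (S : PDat κ m) (hS : S.Ok) (H : RegF (S.d - 1) S.FK)
    {V : Finset (Fin m →₀ ℕ)} {c : V → (Fin m →₀ ℕ) → Polynomial κ} {h : Polynomial κ}
    (hC : CData S.d (m - 1) S.ft (fun v : V => v.1) (fun v : V => lvl S.d v.1) c h) (hh : h ≠ 0) :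
    ∃ bV : Module.Basis V (RatFunc κ) (PKm S.d S.FK), ∀ v, bV v = brP S.d S.FK (monomial v.1 1) := by
  classical
  have hm : 3 ≤ m := hS.hN
  have hd : 3 ≤ S.d := hS.hd
  have hF : S.FK.IsHomogeneous S.d := S5_hom (fk_hom S hS)
  have hCK : CData S.d (m - 1) S.FK (fun v : V => v.1) (fun v : V => lvl S.d v.1)
      (fun v e => algebraMap (Polynomial κ) (RatFunc κ) (c v e)) (algebraMap (Polynomial κ) (RatFunc κ) h) :=
    hC.map (algebraMap (Polynomial κ) (RatFunc κ))
  have hhK : algebraMap (Polynomial κ) (RatFunc κ) h ≠ 0 := RatFunc.algebraMap_ne_zero hh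
  have hgr := gram_V hm hd hF H hCK hhK
  have hli : LinearIndependent (RatFunc κ) fun v : V => brP S.d S.FK (monomial v.1 1) := by
    rw [Fintype.linearIndependent_iff]
    intro x hx
    have h0 : brP S.d S.FK (∑ v : V, x v • monomial v.1 1) = 0 := by
      rw [map_sum, ← hx]
      exact Finset.sum_congr rfl fun v _ => map_smul _ _ _
    have h1 : ∀ v' : V, Bil H S.d (∑ v : V, x v • monomial v.1 1) (monomial v'.1 1) = 0 := fun v' =>
      MPadcIS.bil_kerL H (by omega) (by omega) (fk_hom S hS) (MPadcIS.rel_iff.1 h0) _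
    have h2 : x = 0 := by
      refine Matrix.eq_zero_of_vecMul_eq_zero hgr (funext fun v' => ?_)
      rw [Pi.zero_apply, ← h1 v', map_sum, LinearMap.sum_apply]
      refine Finset.sum_congr rfl fun v _ => ?_
      rw [map_smul, LinearMap.smul_apply, smul_eq_mul]
      rfl
    exact fun v => congrFun h2 v
  have hsp : ⊤ ≤ Submodule.span (RatFunc κ) (Set.range fun v : V => brP S.d S.FK (monomial v.1 1)) := by
    intro y _
    obtain ⟨P, rfl⟩ := brP_surj S.d S.FK y
    obtain ⟨x, hx⟩ := span_V hm hd hF H hCK hhK P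
    rw [← relZ_eq] at hx
    have h1 : brP S.d S.FK (P - ∑ v, C (x v) * monomial v.1 1) = 0 := (Submodule.Quotient.mk_eq_zero _).2 hx
    rw [map_sub, sub_eq_zero, map_sum] at h1
    rw [h1]
    refine Submodule.sum_mem _ fun v _ => ?_
    rw [← MvPolynomial.smul_eq_C_mul, map_smul]
    exact Submodule.smul_mem _ _ (Submodule.subset_span ⟨v, rfl⟩)
  exact ⟨Module.Basis.mk hli hsp, fun v => Module.Basis.mk_apply hli hsp v⟩

theorem card_low_even {K : Type} [Field K] {m d : ℕ} {F : MvPolynomial (Fin m) K} {V : Finset (Fin m →₀ ℕ)}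
    {c : V → (Fin m →₀ ℕ) → K} {h : K} (hm : 4 ≤ m) (he : Even m) (hd : 3 ≤ d) (hF : F.IsHomogeneous d) (H : RegF (d - 1) F)
    (hC : CData d (m - 1) F (fun v : V => v.1) (fun v : V => lvl d v.1) c h) (hh : h ≠ 0) :
    2 * Nat.card {v : V // 2 * lvl d v.1 < m} < V.card := by
  classical
  obtain ⟨a, ha⟩ := he
  obtain ⟨v0, hv0⟩ := S5_mid a (by omega) hm hd H hC hh
  have h1 := MPadcIS.count_fil H (by omega) hC hh (b := a - 1) (by omega)
  rw [Fintype.card_subtype, Fintype.card_subtype] at h1
  rw [Nat.card_eq_fintype_card, Fintype.card_subtype]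
  have h2 : (Finset.univ.filter fun v : V => m - (a - 1) ≤ lvl d v.1) = Finset.univ.filter fun v : V => m < 2 * lvl d v.1 :=
    Finset.filter_congr fun v _ => by constructor <;> intro _ <;> omega
  have h3 : (Finset.univ.filter fun v : V => lvl d v.1 ≤ a - 1) = Finset.univ.filter fun v : V => 2 * lvl d v.1 < m :=
    Finset.filter_congr fun v _ => by constructor <;> intro _ <;> omega
  rw [h2, h3] at h1
  have h4 : Disjoint (Finset.univ.filter fun v : V => m < 2 * lvl d v.1) (Finset.univ.filter fun v : V => 2 * lvl d v.1 < m) := by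
    rw [Finset.disjoint_left]
    intro v hv hv'
    have h5 := (Finset.mem_filter.1 hv).2
    have h6 := (Finset.mem_filter.1 hv').2
    omega
  have h5 : (Finset.univ.filter fun v : V => m < 2 * lvl d v.1) ∪ (Finset.univ.filter fun v : V => 2 * lvl d v.1 < m) ⊆
      Finset.univ.erase v0 := by
    intro v hv
    refine Finset.mem_erase.2 ⟨?_, Finset.mem_univ _⟩
    rintro rfl
    rcases Finset.mem_union.1 hv with h6 | h6
    · have h7 := (Finset.mem_filter.1 h6).2
      omega
    · have h7 := (Finset.mem_filter.1 h6).2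
      omega
  have h6 := Finset.card_le_card h5
  rw [Finset.card_union_of_disjoint h4, Finset.card_erase_of_mem (Finset.mem_univ _), Finset.card_univ,
    Fintype.card_coe] at h6
  have h7 : 0 < V.card := Finset.card_pos.2 ⟨v0.1, v0.2⟩
  omega

end MPadcOE
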