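import Pool.Agent.Lib.MP_adc574_ag_OE.R4
import Pool.Agent.Lib.MP_adc574_ag_OE.S5
import Pool.Agent.Lib.MP_adc574_ag_OH.S6b

/-!
# LEAF S9 (folder OE): the connection and the pairing in terms of the family data (medium-, 3 statements)

PROOF. `α = algebraMap κ[X] (RatFunc κ)`, `S.FK = S.ft.map α` (`rfl`), `hF : H.F = S.ft`. `nab_ok`: the image of `hH.rel v` under `MvPolynomial.map α` is in `relR S.d S.FK` (the image of `relR d F` under `MvPolynomial.map Φ` is in `relR d (F.map Φ)`: `Submodule.span_induction` as in MP_adc574_ag_OH/S8a.lean), which is `relZ` (`relZ_eq`, OH/S5), so its class `brP` is 0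
(`Submodule.Quotient.mk_eq_zero`): `α Δ • brP (nb (DZ κ) S.FK (x ^ v)) = ∑ v', α (G v' v) • brP (x ^ v')` (`nb_map`, OH/S6b), `brP (nb ..) = nab (brP ..)` (`hG.nab_br`), `hbV`.
`gram_ok`: `hH.bil` for `L = RatFunc κ`, `β = α` and the given `K`; `hB`. `T_ok`: `T * B = det B • 1` (`Matrix.adjugate_mul`) entrywise, mapped by `α`; `lam = α (det B) / α Δ ^ N`, not 0 by `det_B` (OE/R4: `(H.B.map α).det = α H.B.det`, `RingHom.map_det`).
-/

set_option autoImplicit false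

namespace MPadcOE

open MvPolynomial MPadcGM MPadcHM MPadcLZ MPadcBK MPadcOA MPadcOH

private theorem S9_dl {A B : Type*} [CommRing A] [CommRing B] {N : ℕ} (φ : A →+* B) (F Q : MvPolynomial (Fin N) A)
    (i : Fin N) : (dl F i Q).map φ = dl (F.map φ) i (Q.map φ) := by
  unfold dl
  rw [map_add, map_mul, pderiv_map, pderiv_map]

private theorem S9_rel {A B : Type} [CommRing A] [CommRing B] {N d : ℕ} (φ : A →+* B) (F P : MvPolynomial (Fin N) A)
    (h : P ∈ relR d F) : P.map φ ∈ relR d (F.map φ) := by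
  unfold relR at h
  induction h using Submodule.span_induction with
  | mem x hx =>
    rcases hx with ⟨i, Q, rfl⟩ | ⟨e, he, rfl⟩
    · exact Submodule.subset_span (Or.inl ⟨i, Q.map φ, S9_dl φ F Q i⟩)
    · refine Submodule.subset_span (Or.inr ⟨e, he, ?_⟩)
      rw [map_monomial, map_one]
  | zero => rw [map_zero]; exact Submodule.zero_mem _
  | add x y _ _ hx hy => rw [map_add]; exact Submodule.add_mem _ hx hy
  | smul a x _ hx =>
    have h1 : (a • x).map φ = φ a • x.map φ := by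
      rw [MvPolynomial.smul_eq_C_mul, map_mul, map_C, MvPolynomial.smul_eq_C_mul]
    rw [h1]
    exact Submodule.smul_mem _ _ hx

theorem nab_ok {κ : Type} [Field κ] [CharZero κ] {m : ℕ} (S : PDat κ m) {nab : PKm S.d S.FK →+ PKm S.d S.FK}
    (hG : IsHG S nab (brP S.d S.FK)) {V : Finset (Fin m →₀ ℕ)} (H : HE κ m V) (hH : H.Ok S.d) (hF : H.F = S.ft)
    (bV : Module.Basis V (RatFunc κ) (PKm S.d S.FK)) (hbV : ∀ v, bV v = brP S.d S.FK (monomial v.1 1)) (v : V) :
    algebraMap (Polynomial κ) (RatFunc κ) H.Δ • nab (bV v) =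
      ∑ v', algebraMap (Polynomial κ) (RatFunc κ) (H.G v' v) • bV v' := by
  have h1 := S9_rel (algebraMap (Polynomial κ) (RatFunc κ)) _ _ (hH.rel v)
  have h2 : MvPolynomial.map (algebraMap (Polynomial κ) (RatFunc κ))
      (C H.Δ * nb (dX κ) H.F (monomial v.1 1) - ∑ v' : V, C (H.G v' v) * monomial v'.1 1) =
      C (algebraMap (Polynomial κ) (RatFunc κ) H.Δ) * nb (DZ κ) S.FK (monomial v.1 1) -
        ∑ v' : V, C (algebraMap (Polynomial κ) (RatFunc κ) (H.G v' v)) * monomial v'.1 1 := by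
    rw [map_sub, map_mul, map_C, nb_map, map_monomial, map_one, map_sum, hF]
    refine congrArg₂ (fun a b => a - b) rfl ?_
    refine Finset.sum_congr rfl fun v' _ => ?_
    rw [map_mul, map_C, map_monomial, map_one]
  rw [h2, hF, show MvPolynomial.map (algebraMap (Polynomial κ) (RatFunc κ)) S.ft = S.FK from rfl, ← relZ_eq] at h1
  have h3 : brP S.d S.FK (C (algebraMap (Polynomial κ) (RatFunc κ) H.Δ) * nb (DZ κ) S.FK (monomial v.1 1) -
        ∑ v' : V, C (algebraMap (Polynomial κ) (RatFunc κ) (H.G v' v)) * monomial v'.1 1) = 0 :=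
    (Submodule.Quotient.mk_eq_zero _).2 h1
  rw [map_sub, sub_eq_zero, map_sum, ← MvPolynomial.smul_eq_C_mul, map_smul, ← hG.nab_br] at h3
  rw [hbV, h3]
  refine Finset.sum_congr rfl fun v' _ => ?_
  rw [← MvPolynomial.smul_eq_C_mul, map_smul, hbV]

theorem gram_ok {κ : Type} [Field κ] [CharZero κ] {m : ℕ} (S : PDat κ m) (K : RegF (S.d - 1) S.FK)
    {B' : PKm S.d S.FK →ₗ[RatFunc κ] PKm S.d S.FK →ₗ[RatFunc κ] RatFunc κ}
    (hB : ∀ P Q, B' (brP S.d S.FK P) (brP S.d S.FK Q) = Bil K S.d P Q) {V : Finset (Fin m →₀ ℕ)} (H : HE κ m V)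
    (hH : H.Ok S.d) (hF : H.F = S.ft) (hΔ : H.Δ ≠ 0) (bV : Module.Basis V (RatFunc κ) (PKm S.d S.FK))
    (hbV : ∀ v, bV v = brP S.d S.FK (monomial v.1 1)) :
    ∃ N : ℕ, ∀ v v', algebraMap (Polynomial κ) (RatFunc κ) H.Δ ^ N * B' (bV v) (bV v') =
      algebraMap (Polynomial κ) (RatFunc κ) (H.B v v') := by
  obtain ⟨N, hN⟩ := hH.bil
  refine ⟨N, fun v v' => ?_⟩
  have h1 := hN (RatFunc κ) (algebraMap (Polynomial κ) (RatFunc κ)) (RatFunc.algebraMap_ne_zero hΔ)
  rw [hF] at h1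
  rw [hbV, hbV, hB]
  exact h1 K v v'

theorem T_ok {κ : Type} [Field κ] [CharZero κ] {m : ℕ} (S : PDat κ m) (K : RegF (S.d - 1) S.FK)
    {B' : PKm S.d S.FK →ₗ[RatFunc κ] PKm S.d S.FK →ₗ[RatFunc κ] RatFunc κ}
    (hB : ∀ P Q, B' (brP S.d S.FK P) (brP S.d S.FK Q) = Bil K S.d P Q) {V : Finset (Fin m →₀ ℕ)} (H : HE κ m V)
    (hH : H.Ok S.d) (hF : H.F = S.ft) (hΔ : H.Δ ≠ 0) (bV : Module.Basis V (RatFunc κ) (PKm S.d S.FK))
    (hbV : ∀ v, bV v = brP S.d S.FK (monomial v.1 1)) :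
    ∃ lam : RatFunc κ, lam ≠ 0 ∧ ∀ a c, ∑ b, algebraMap (Polynomial κ) (RatFunc κ) (H.T a b) * B' (bV b) (bV c) =
      if a = c then lam else 0 := by
  obtain ⟨N, hN⟩ := gram_ok S K hB H hH hF hΔ bV hbV
  have hΔ' : algebraMap (Polynomial κ) (RatFunc κ) H.Δ ^ N ≠ 0 := pow_ne_zero _ (RatFunc.algebraMap_ne_zero hΔ)
  have hdet : algebraMap (Polynomial κ) (RatFunc κ) H.B.det ≠ 0 := by
    have h1 := det_B H hH (algebraMap (Polynomial κ) (RatFunc κ)) (RatFunc.algebraMap_ne_zero hΔ)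
    rw [RingHom.map_det]
    exact h1
  refine ⟨algebraMap (Polynomial κ) (RatFunc κ) H.B.det / algebraMap (Polynomial κ) (RatFunc κ) H.Δ ^ N,
    div_ne_zero hdet hΔ', fun a c => ?_⟩
  have h2 : algebraMap (Polynomial κ) (RatFunc κ) H.Δ ^ N *
      ∑ b, algebraMap (Polynomial κ) (RatFunc κ) (H.T a b) * B' (bV b) (bV c) =
      algebraMap (Polynomial κ) (RatFunc κ) ((H.T * H.B) a c) := by
    rw [Matrix.mul_apply, map_sum, Finset.mul_sum]
    refine Finset.sum_congr rfl fun b _ => ?_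
    rw [map_mul, ← hN b c]
    ring
  have h3 : (H.T * H.B) a c = if a = c then H.B.det else 0 := by
    unfold HE.T
    rw [Matrix.adjugate_mul, Matrix.smul_apply, Matrix.one_apply, smul_eq_mul, mul_ite, mul_one, mul_zero]
  rw [h3] at h2
  rw [← mul_right_inj' hΔ', h2]
  split_ifs
  · rw [mul_div_cancel₀ _ hΔ']
  · rw [map_zero, mul_zero]

end MPadcOE
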