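import Pool.Agent.Lib.MP_adc574_ag_OE.S6
import Pool.Agent.Lib.MP_adc574_ag_OH.S7

/-!
# LEAF S7 (folder OE): the family data of a Morse pencil in an even number of variables (easy; copy of OH/S7 without big monodromy)

PROOF. Copy of `S7_main` and `exists_HD` in MP_adc574_ag_OH/S7.lean: `exists_hg`, `exists_ppB`, `infw_morse`, `bl_sign` (`he.neg_one_pow`: `B y x = B x y`), `exists_cdata_dom`, `exists_bV` (S5), `exists_HE0` (S6).
-/

set_option autoImplicit false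

namespace MPadcOE

open MvPolynomial MPadcGM MPadcHM MPadcLZ MPadcBK MPadcOA MPadcOH

private theorem S7_main {κ : Type} [Field κ] [CharZero κ] [IsAlgClosed κ] {m : ℕ} (he : Even m) (i₀ : Fin m)
    (S : PDat κ m) (hS : S.Ok) (hSH : S.H = X i₀ ^ S.d)
    (hG0 : ∀ e : Fin m →₀ ℕ, S.M ≤ dg e → monomial e (1 : κ) ∈
      Ideal.span ({P | ∃ i, i ≠ i₀ ∧ P = pderiv i S.G} ∪ {X i₀})) :
    ∃ (V : Finset (Fin m →₀ ℕ)) (H : HE κ m V), H.Ok S.d ∧ H.F = S.ft ∧ H.Δ ≠ 0 := by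
  classical
  have hd : 3 ≤ S.d := hS.hd
  obtain ⟨nab, hG⟩ := exists_hg S hS
  obtain ⟨K, B, rho, hP, hB⟩ := exists_ppB S hS hG
  obtain ⟨s, r₀, g₁, w, W₀, hIW⟩ := MPadcPC.infw_morse S hS i₀ hSH hG0 nab hG
  have hsign : ∀ x y, B y x = (-1) ^ m * B x y := MPadcBN.bl_sign S hS hG hP hIW
  have hsym : ∀ x y, B y x = B x y := by
    intro x y
    rw [hsign, he.neg_one_pow, one_mul]
  have hft : S.ft.IsHomogeneous S.d := by
    unfold PDat.ft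
    refine MvPolynomial.IsHomogeneous.sub ((Hm_iff.1 hS.homG).map _) ?_
    have h1 := (isHomogeneous_C (Fin m) (Polynomial.X : Polynomial κ)).mul
      ((Hm_iff.1 hS.homH).map (Polynomial.C : κ →+* Polynomial κ))
    rwa [zero_add] at h1
  obtain ⟨V, c, h, hh, hC⟩ := exists_cdata_dom (by omega : 1 ≤ S.d) S.ft hft (m - 1)
  obtain ⟨bV, hbV⟩ := exists_bV S hS K hC hh
  exact ⟨V, exists_HE0 S hS hG K hP hB hsym hC hh bV hbV⟩

theorem exists_HE {κ : Type} [Field κ] [CharZero κ] [IsAlgClosed κ] {m d : ℕ} (hm : 4 ≤ m) (he : Even m) (hd : 3 ≤ d)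
    (i₀ : Fin m) (G : MvPolynomial (Fin m) κ) (hG : G.IsHomogeneous d) (hM : MorseOver i₀ d G) :
    ∃ (V : Finset (Fin m →₀ ℕ)) (H : HE κ m V), H.Ok d ∧ H.F = pen i₀ d G ∧ H.Δ ≠ 0 := by
  obtain ⟨M₁, hM₁⟩ := null_c (Ideal.span ({P | ∃ i, i ≠ i₀ ∧ P = pderiv i G} ∪ {X i₀})) (fun x hx =>
    hM.1 x (by
      have h1 := hx (X i₀) (Ideal.subset_span (Or.inr rfl))
      rwa [eval_X] at h1) fun i hi => hx _ (Ideal.subset_span (Or.inl ⟨i, hi, rfl⟩)))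
  have hM₀ := mono_mem (by omega : 0 < m) (Ideal.span ({P | ∃ i, i ≠ i₀ ∧ P = pderiv i G} ∪ {X i₀})) M₁ hM₁
  have hHm : Hm d (X i₀ ^ d : MvPolynomial (Fin m) κ) := Hm_iff.2 (isHomogeneous_X_pow (R := κ) i₀ d)
  obtain ⟨S, hSd, hSG, hSH, hSM, hS⟩ := exists_pdat (by omega : 3 ≤ m) hd G (X i₀ ^ d) (Hm_iff.2 hG) hHm hM.2 (m * M₁)
  subst hSd
  obtain ⟨V, H, h1, h3, h4⟩ := S7_main he i₀ S hS hSH (fun e he => by
    rw [hSG]
    exact hM₀ e (hSM.trans he))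
  refine ⟨V, H, h1, ?_, h4⟩
  rw [h3]
  unfold PDat.ft pen
  rw [hSG, hSH, map_pow, map_X]

end MPadcOE
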