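import Pool.Agent.Lib.MP_adc574_ag_OE.HE

/-!
# The data of a family at the places of the ultraproduct: definition
-/

set_option autoImplicit false

namespace MPadcOE

open MvPolynomial MPadcGM MPadcHM MPadcLZ MPadcBK MPadcOA MPadcOH

/-- `Hn n` is the reduction of `H` at the place `n`, for the pencil of `G n`, with degrees at most `c`. -/
def AtN {k : ℕ → Type} [∀ n, Field (k n)] {m d : ℕ} {V : Finset (Fin m →₀ ℕ)} (i₀ : Fin m) (G : ∀ n, MvPolynomial (Fin m) (k n))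
    (H : HE (LL k) m V) (Hn : ∀ n, HE (k n) m V) (c : ℕ) (n : ℕ) : Prop :=
  (Hn n).Ok d ∧ (Hn n).F = pen i₀ d (G n) ∧ (Hn n).Δ ≠ 0 ∧ rp H.Δ n = (Hn n).Δ ∧ MPadcEO.mq H.G n = (Hn n).G ∧
    MPadcEO.mq H.B n = (Hn n).B ∧ MPadcEO.mq H.T n = (Hn n).T ∧ (Hn n).Δ.natDegree ≤ c ∧ (∀ i j, ((Hn n).G i j).natDegree ≤ c) ∧
      (∀ i j, ((Hn n).B i j).natDegree ≤ c) ∧ ∀ i j, ((Hn n).T i j).natDegree ≤ c

end MPadcOE
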