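import Pool.Agent.Lib.MP_adc574_ag_OE.ED
import Pool.Agent.Lib.MP_adc574_ag_OA.N_K1

/-!
# LEAF C1 (folder OE): the two forms of big orthogonal monodromy (medium-)

PROOF. Let `n`, `W`, `u`, `v` be given as in `BigO` (OE/ED.lean). Use `MPadcEO.BigO` (EO/Defs.lean) with `g = 1`, `m = n`: the forms `Kq 1 ι n = Fin n → Fin 1 × ι`. `e : (Fin n → Fin 1 × ι) ≃ (Fin n → ι)`, `e s i = (s i).2` (inverse `t ↦ fun i => (0, t i)`; `Fin 1` has one element). `W' = {φ | (fun t => φ (fun i => (0, t i))) ∈ W}`, a submodule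
(`Submodule.comap` of `LinearMap.funLeft`). Saturated: clear. `opq Δ G φ` corresponds to `opT Δ G`: `(KSq X *ᵥ φ) s = ∑ i, ∑ c, X (s i).2 c * φ (update s i ((s i).1, c))` (prove it as `KS_mulVec` in MP_adc574_ag_OA/N_K1.lean for `KS`), `Function.update` of `fun i => (0, t i)` at `i` with `(0, c)` is the lift of `update t i c`.
`wS S u w = S * (vecMulVec u w - vecMulVec w u)` and `wd T x y = T * (vecMulVec y x - vecMulVec x y)`: `wd T x y = wS T y x`.
-/

set_option autoImplicit false

namespace MPadcOE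

open Polynomial Matrix MPadcGM MPadcOA

/-- the action on the forms on one vector in every place -/
private theorem C1_KS {R : Type*} [CommRing R] {g : ℕ} {ι : Type} [Fintype ι] [DecidableEq ι] {m : ℕ} (M : Matrix ι ι R)
    (φ : MPadcEO.Kq g ι m → R) (s : MPadcEO.Kq g ι m) :
    (MPadcEO.KSq M *ᵥ φ) s = ∑ i, ∑ l, M (s i).2 l * φ (Function.update s i ((s i).1, l)) := by
  have h0 : (MPadcEO.KSq M *ᵥ φ) s = ∑ s' : MPadcEO.Kq g ι m, (∑ i, if s' = Function.update s i ((s i).1, (s' i).2)
      then M (s i).2 (s' i).2 else 0) * φ s' := rfl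
  rw [h0]
  simp only [Finset.sum_mul]
  rw [Finset.sum_comm]
  refine Finset.sum_congr rfl fun i _ => ?_
  symm
  refine Finset.sum_of_injOn (fun l => Function.update s i ((s i).1, l)) ?_ ?_ ?_ ?_
  · intro l _ l' _ h
    have h1 := congrFun h i
    simp only [Function.update_self] at h1
    exact (Prod.mk.inj h1).2
  · intro l _
    exact Finset.mem_coe.2 (Finset.mem_univ _)
  · intro s' _ hs'
    rw [if_neg, zero_mul]
    intro h
    exact hs' ⟨(s' i).2, Finset.mem_coe.2 (Finset.mem_univ _), h.symm⟩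
  · intro l _
    simp only [Function.update_self]
    rw [if_pos trivial]

/-- the index of a tensor as an index of a form on frames of one vector -/
private def C1_lf {ι : Type} {n : ℕ} (t : Fin n → ι) : MPadcEO.Kq 1 ι n := fun i => (0, t i)

private theorem C1_upd {ι : Type} {n : ℕ} (t : Fin n → ι) (i : Fin n) (c : ι) :
    Function.update (C1_lf t) i ((C1_lf t i).1, c) = C1_lf (Function.update t i c) := by
  funext j
  by_cases hj : j = i
  · subst hj
    rw [Function.update_self]
    unfold C1_lf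
    rw [Function.update_self]
  · rw [Function.update_of_ne hj]
    unfold C1_lf
    rw [Function.update_of_ne hj]

private theorem C1_act {R : Type*} [CommRing R] {ι : Type} [Fintype ι] [DecidableEq ι] {n : ℕ} (M : Matrix ι ι R)
    (φ : MPadcEO.Kq 1 ι n → R) (t : Fin n → ι) :
    (MPadcEO.KSq M *ᵥ φ) (C1_lf t) = actT M (fun t => φ (C1_lf t)) t := by
  rw [C1_KS]
  unfold actT
  refine Finset.sum_congr rfl fun i _ => Finset.sum_congr rfl fun c _ => ?_
  rw [C1_upd]
  rfl

theorem bigO_conv {F : Type} [Field F] {ι : Type} [Fintype ι] [DecidableEq ι] {Δ : F[X]} {G T : Matrix ι ι F[X]}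
    (h : MPadcEO.BigO Δ G T) : BigO Δ G T := by
  intro n W hsat hst u v x hx
  obtain ⟨W', hW'⟩ : ∃ W' : Submodule F[X] (MPadcEO.Kq 1 ι n → F[X]), ∀ φ, φ ∈ W' ↔ (fun t => φ (C1_lf t)) ∈ W :=
    ⟨W.comap (LinearMap.funLeft F[X] F[X] C1_lf), fun φ => Iff.rfl⟩
  have h1 := h 1 n W' (fun d hd φ hφ => (hW' φ).2 (hsat d hd _ ((hW' _).1 hφ))) (fun φ hφ => by
    rw [hW']
    have h2 := hst _ ((hW' φ).1 hφ)
    have h3 : (fun t => MPadcEO.opq Δ G φ (C1_lf t)) = opT Δ G (fun t => φ (C1_lf t)) := by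
      funext t
      unfold MPadcEO.opq opT
      rw [C1_act]
    rw [h3]
    exact h2) v u (fun s => x fun i => (s i).2) ((hW' _).2 hx)
  rw [hW'] at h1
  have h4 : (fun t => (MPadcEO.KSq (MPadcEO.wS T (fun l => C (v l)) (fun l => C (u l))) *ᵥ
      fun s : MPadcEO.Kq 1 ι n => x fun i => (s i).2) (C1_lf t)) =
      actT (wd T (fun l => C (u l)) (fun l => C (v l))) x := by
    funext t
    rw [C1_act]
    rfl
  rw [h4] at h1
  exact h1

end MPadcOE
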