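import Pool.Agent.Lib.MP_adc574_ag_EO.Defs

/-!
# Interface: forms on tensors of a quadratic space, big orthogonal monodromy

A form on the tensors of degree `n` is an array `φ : (Fin n → ι) → R`. `actT A` is the action of the matrix `A` (the vector `e c` goes to `∑ l, A l c e l`),
`opT Δ G` the covariant derivative `Δ ∇` on the tensors with polynomial coefficients, `wd T x y` the element `T (y xᵀ - x yᵀ)` of the orthogonal Lie algebra of the
form `T` on the rows.
-/

set_option autoImplicit false

namespace MPadcOE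

open Polynomial Matrix MPadcGM MPadcOA

/-- The action of a matrix on tensors. -/
def actT {R : Type*} [CommRing R] {ι : Type} [Fintype ι] [DecidableEq ι] {n : ℕ} (A : Matrix ι ι R) (φ : (Fin n → ι) → R) :
    (Fin n → ι) → R :=
  fun s => ∑ i, ∑ c, A (s i) c * φ (Function.update s i c)

/-- The covariant derivative on tensors with polynomial coefficients. -/
noncomputable def opT {R : Type*} [CommRing R] {ι : Type} [Fintype ι] [DecidableEq ι] {n : ℕ} (Δ : R[X]) (G : Matrix ι ι R[X])
    (φ : (Fin n → ι) → R[X]) : (Fin n → ι) → R[X] :=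
  fun s => Δ * derivative (φ s) + actT G φ s

/-- The element `T (y xᵀ - x yᵀ)` of the orthogonal Lie algebra of `T`. -/
def wd {R : Type*} [CommRing R] {ι : Type} [Fintype ι] (T : Matrix ι ι R) (x y : ι → R) : Matrix ι ι R :=
  T * (vecMulVec y x - vecMulVec x y)

/-- Big monodromy: all saturated stable modules of tensors are stable under the orthogonal Lie algebra. -/
def BigO {F : Type} [Field F] {ι : Type} [Fintype ι] [DecidableEq ι] (Δ : F[X]) (G T : Matrix ι ι F[X]) : Prop :=
  ∀ (n : ℕ) (W : Submodule F[X] ((Fin n → ι) → F[X])), (∀ d : F[X], d ≠ 0 → ∀ x : (Fin n → ι) → F[X], d • x ∈ W → x ∈ W) →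
    (∀ x ∈ W, opT Δ G x ∈ W) → ∀ (u v : ι → F), ∀ x ∈ W, actT (wd T (fun l => C (u l)) (fun l => C (v l))) x ∈ W

/-- A system in a quadratic space with an isotropic frame `U` which is horizontal up to rows of smaller level, and a polynomial isotropic frame `E`. -/
structure FrT (g : ℕ) (ι : Type) (k : Type*) [Field k] where
  /-- the discriminant -/
  Δ : k[X]
  /-- the matrix of the system -/
  G : Matrix ι ι k[X]
  /-- the quadratic form on the rows -/
  T : Matrix ι ι k[X]
  /-- the frame -/
  U : Matrix (Fin g) ι k[X]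
  /-- the derivatives of the rows -/
  nu : Matrix (Fin g) (Fin g) k[X]
  /-- the polynomial isotropic frame -/
  E : Matrix (Fin g) ι k[X]

/-- The properties of the system. -/
structure FrT.Ok {g : ℕ} {ι : Type} [Fintype ι] [DecidableEq ι] {k : Type*} [Field k] (D : FrT g ι k) (lv : Fin g → ℕ) (c : ℕ) :
    Prop where
  ne : D.Δ ≠ 0
  degD : D.Δ.natDegree ≤ c
  degG : ∀ i j, (D.G i j).natDegree ≤ c
  degT : ∀ i j, (D.T i j).natDegree ≤ c
  degE : ∀ i j, (D.E i j).natDegree ≤ c
  symT : D.Tᵀ = D.T
  detT : ∀ α : k, D.Δ.eval α ≠ 0 → (D.T.map (eval α)).det ≠ 0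
  horU : ∀ i l, D.Δ * derivative (D.U i l) = (D.U * D.G) i l + (D.nu * D.U) i l
  nuT : ∀ a b, ¬ lv b < lv a → D.nu a b = 0
  isoU : D.U * D.T * D.Uᵀ = 0
  rkU : ∀ α : k, D.Δ.eval α ≠ 0 → LinearIndependent k fun i l => (D.U i l).eval α
  isoE : D.E * D.T * D.Eᵀ = 0
  rkE : ∀ α : k, D.Δ.eval α ≠ 0 → LinearIndependent k fun i l => (D.E i l).eval α

end MPadcOE
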