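import Pool.Agent.Lib.MP_adc574_ag_OE.ED
import Pool.Agent.Lib.MP_adc574_ag_OH.SD

/-!
# The data of a family in the basis of the monomials: definitions

`m` variables, degree `d`, `V` the monomials `x ^ v` which form a basis of the primitive cohomology of the generic member. `G` is the matrix of `Δ ∇` in this basis
(`Δ ∇ x ^ v = ∑ v', G v' v x ^ v'`), `B` is `Δ ^ N` times the Gram matrix of the pairing `Bil`, `T` its adjugate (the quadratic form on the functionals, up to a factor).
`fU p d v w` is the value of the functional `c_v` at `x ^ w` (times `h ^ (p lvl v)`).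
-/

set_option autoImplicit false

namespace MPadcOE

open MvPolynomial MPadcGM MPadcHM MPadcLZ MPadcBK MPadcOA MPadcOH

/-- The data of a family. -/
structure HE (R : Type) [CommRing R] (m : ℕ) (V : Finset (Fin m →₀ ℕ)) where
  /-- the equation -/
  F : MvPolynomial (Fin m) (Polynomial R)
  /-- the coordinates modulo the Jacobian ideal -/
  c : V → (Fin m →₀ ℕ) → Polynomial R
  /-- the denominator -/
  h : Polynomial R
  /-- the discriminant -/
  Δ : Polynomial R
  /-- the matrix of the connection -/
  G : Matrix V V (Polynomial R)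
  /-- the matrix of the pairing -/
  B : Matrix V V (Polynomial R)

/-- The properties of the data. -/
structure HE.Ok {R : Type} [CommRing R] {m : ℕ} {V : Finset (Fin m →₀ ℕ)} (H : HE R m V) (d : ℕ) : Prop where
  hm : 3 ≤ m
  hd : 3 ≤ d
  hom : H.F.IsHomogeneous d
  cd : CData d (m - 1) H.F (fun v : V => v.1) (fun v : V => lvl d v.1) H.c H.h
  rel : ∀ v : V, C H.Δ * nb (dX R) H.F (monomial v.1 1) - ∑ v' : V, C (H.G v' v) * monomial v'.1 1 ∈ relR d H.F
  hdvd : H.h ∣ H.Δ
  sm : ∃ M : ℕ, ∀ e : Fin m →₀ ℕ, M ≤ dg e → C H.Δ * monomial e 1 ∈ Jac H.F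
  sym : H.B.transpose = H.B
  bil : ∃ N : ℕ, ∀ (L : Type) [Field L] (β : Polynomial R →+* L), β H.Δ ≠ 0 → ∀ (K : RegF (d - 1) (H.F.map β)) (v v' : V),
    β H.Δ ^ N * Bil K d (monomial v.1 1) (monomial v'.1 1) = β (H.B v v')

/-- The quadratic form on the functionals. -/
noncomputable def HE.T {R : Type} [CommRing R] {m : ℕ} {V : Finset (Fin m →₀ ℕ)} (H : HE R m V) : Matrix V V (Polynomial R) :=
  H.B.adjugate

/-- Base change. -/
noncomputable def HE.map {R S : Type} [CommRing R] [CommRing S] {m : ℕ} {V : Finset (Fin m →₀ ℕ)} (H : HE R m V) (φ : R →+* S) :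
    HE S m V where
  F := H.F.map (Polynomial.mapRingHom φ)
  c := fun v e => (H.c v e).map φ
  h := H.h.map φ
  Δ := H.Δ.map φ
  G := H.G.map (Polynomial.mapRingHom φ)
  B := H.B.map (Polynomial.mapRingHom φ)

section

variable {k : Type} [Field k] (p : ℕ) [Fact p.Prime] [CharP k p] {m : ℕ} {V : Finset (Fin m →₀ ℕ)} (H : HE k m V) (d : ℕ)

/-- The functionals on the monomials, without denominators. -/
noncomputable def HE.fU : Matrix V V (Polynomial k) := fun v w =>
  H.h ^ (p * lvl d v.1) * gf p d H.F V H.c v (monomial w.1 1)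

/-- The strictly triangular matrix. -/
noncomputable def HE.fn : Matrix V V (Polynomial k) := fun v v' =>
  if lvl d v'.1 + 1 = lvl d v.1 then
    - (H.Δ * ell (fun v e => H.c v e ^ p) v (vB p (dX k) H.F * monomial v'.1 1)) else 0

end

end MPadcOE
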