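import Pool.Agent.Lib.MP_adc574_ag_OE.HE
import Pool.Agent.Lib.MP_adc574_ag_OH.R2

/-!
# LEAF R3 (folder OE): the frame is horizontal (copy of OH/R3 with `s = 1`, easier)

PROOF. `a := gf v (x ^ w)` (over `k[X]`, `CharP k[X] p`), `D = dX k`. `fU v w = h ^ (p lv) * a`, `D (x ^ p * y) = x ^ p * D y`. As `lv ≥ 1`, `h ^ (p lv) * D a = h ^ (p (lv - 1)) * (h ^ p * D a)`, and by `gf_der` (OH/R2) with `P = monomial w 1`
this is `h ^ (p lv) * gf v (nb x ^ w) - ∑ v', n v v' * fU v' w` (the coefficient is 0 unless `lvl v' = lv - 1`, then `h ^ (p (lv - 1)) * gf v' (x ^ w) = fU v' w`). Apply `gf v` to `hH.rel w` (`gf_rel`, OH/R1): `Δ * gf v (nb x ^ w) = ∑ v', G v' w * gf v (x ^ v')`, multiply by `h ^ (p lv)`.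
See the proof of `fU_der` in MP_adc574_ag_OH/R3.lean.
-/

set_option autoImplicit false

namespace MPadcOE

open MvPolynomial MPadcGM MPadcHM MPadcLZ MPadcBK MPadcOA MPadcOH

private theorem R3_C {R : Type} [CommRing R] (p : ℕ) [Fact p.Prime] [CharP R p] {m d : ℕ} {F : MvPolynomial (Fin m) R}
    {V : Finset (Fin m →₀ ℕ)} {c : V → (Fin m →₀ ℕ) → R} (v : V) (x : R) (P : MvPolynomial (Fin m) R) :
    gf p d F V c v (C x * P) = x * gf p d F V c v P := by
  rw [← smul_eq_C_mul, map_smul, smul_eq_mul]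

theorem fU_der {k : Type} [Field k] (p : ℕ) [Fact p.Prime] [CharP k p] {m d : ℕ} {V : Finset (Fin m →₀ ℕ)} (H : HE k m V)
    (hH : H.Ok d) (hp : d * m < p) (v w : V) :
    H.Δ * Polynomial.derivative (H.fU p d v w) =
      ∑ w', H.fU p d v w' * H.G w' w + ∑ v', H.fn p d v v' * H.fU p d v' w := by
  classical
  have hm := hH.hm
  have hd := hH.hd
  have hJ : m - 1 < p := by
    have h1 : 1 * m ≤ d * m := Nat.mul_le_mul_right m (by omega)
    omega
  have hlv : 1 ≤ lvl d v.1 := hH.cd.lv_pos v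
  have h2 := gf_rel p (by omega) (by omega) hH.hom hJ hH.cd v (hH.rel w)
  rw [map_sub, R3_C, map_sum, sub_eq_zero] at h2
  simp only [R3_C] at h2
  have h3 := gf_der p (by omega) (by omega) hH.hom hJ hH.cd (dX k) v (monomial w.1 1)
  obtain ⟨N, hN⟩ : ∃ N, N = gf p d H.F V H.c v (nb (dX k) H.F (monomial w.1 1)) := ⟨_, rfl⟩
  obtain ⟨a, ha⟩ : ∃ a : V → V → Polynomial k, ∀ v w, a v w = gf p d H.F V H.c v (monomial w.1 1) :=
    ⟨fun v w => gf p d H.F V H.c v (monomial w.1 1), fun _ _ => rfl⟩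
  obtain ⟨E, hE⟩ : ∃ E : V → Polynomial k, ∀ v', E v' = if lvl d v'.1 + 1 = lvl d v.1 then
      ell (fun v e => H.c v e ^ p) v (vB p (dX k) H.F * monomial v'.1 1) else 0 := ⟨_, fun _ => rfl⟩
  have hfU : ∀ v w, H.fU p d v w = H.h ^ (p * lvl d v.1) * a v w := fun v w => by
    rw [ha]
    rfl
  have hfn : ∀ v', H.fn p d v v' = - (H.Δ * E v') := fun v' => by
    rw [hE]
    unfold HE.fn
    split_ifs
    · rfl
    · rw [mul_zero, neg_zero]
  rw [← hN] at h2 h3
  simp only [← ha, ← hE] at h2 h3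
  have h2' : H.Δ * N = ∑ v', H.G v' w * a v v' := h2
  have h3' : H.h ^ p * dX k (a v w) = H.h ^ p * N - ∑ v', E v' * a v' w := h3
  have hder : Polynomial.derivative (H.fU p d v w) = (H.h ^ lvl d v.1) ^ p * dX k (a v w) := by
    rw [hfU, mul_comm p, pow_mul, Polynomial.derivative_mul, Polynomial.derivative_pow, CharP.cast_eq_zero,
      Polynomial.C_0, zero_mul, zero_mul, zero_mul, zero_add]
    rfl
  obtain ⟨j, hj⟩ : ∃ j, lvl d v.1 = j + 1 := ⟨lvl d v.1 - 1, by omega⟩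
  have h5 : (H.h ^ lvl d v.1) ^ p * dX k (a v w) = (H.h ^ lvl d v.1) ^ p * N - ∑ v', E v' * H.fU p d v' w := by
    have h6 : (H.h ^ lvl d v.1) ^ p = (H.h ^ j) ^ p * H.h ^ p := by
      rw [hj, ← mul_pow, ← pow_succ]
    have h7 : ∑ v', E v' * a v' w * (H.h ^ j) ^ p = ∑ v', E v' * H.fU p d v' w := by
      refine Finset.sum_congr rfl fun v' _ => ?_
      by_cases hv : lvl d v'.1 + 1 = lvl d v.1
      · have h8 : lvl d v'.1 = j := by omega
        rw [hfU, h8, mul_comm p, pow_mul]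
        ring
      · rw [hE, if_neg hv]
        ring
    rw [← Finset.sum_mul] at h7
    rw [h6, ← h7, mul_assoc, h3']
    ring
  have h11 : (H.h ^ lvl d v.1) ^ p * ∑ v', H.G v' w * a v v' = ∑ v', H.fU p d v v' * H.G v' w := by
    rw [Finset.mul_sum]
    refine Finset.sum_congr rfl fun v' _ => ?_
    rw [hfU, mul_comm p, pow_mul]
    ring
  have h12 : ∑ v', H.fn p d v v' * H.fU p d v' w = - (H.Δ * ∑ v', E v' * H.fU p d v' w) := by
    rw [Finset.mul_sum, ← Finset.sum_neg_distrib]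
    refine Finset.sum_congr rfl fun v' _ => ?_
    rw [hfn]
    ring
  rw [h12, hder, h5, ← h11, ← h2']
  ring

end MPadcOE
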