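import Pool.Agent.Lib.MP_adc574_ag_OE.HE
import Pool.Agent.Lib.MP_adc574_ag_OH.R1
import Pool.Agent.Lib.MP_adc574_ag_OH.OP

/-!
# LEAF R4 (folder OE): the matrices of the pairing, the rows are orthogonal (medium-, 4 statements)

PROOF. `regF`: copy of `regF` in MP_adc574_ag_OH/R4.lean (`H.F.map β` from `hH.sm`, `hH.hom`). Put `F' = H.F.map β`, `hC' = hH.cd.map β`, `β h ≠ 0` (`h ∣ Δ`), `x = β Δ ≠ 0`, `N` of `hH.bil`.
`det_B`: `H.B.map β = x ^ N • Gram` with `Gram v v' = Bil K d (x ^ v) (x ^ v')` (`hH.bil L β hβ (regF ..)`), `Matrix.det_smul`, `gram_V` (OP). `B_low`: `L = RatFunc k`, `β = algebraMap` (injective, so `β Δ ≠ 0`): `β (B v v') = x ^ N * Bil .. = 0` by `bil_low` (OP).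
`fU_iso`: `L = RatFunc k`, `β = algebraMap`, `CharP L p`. `MPadcIS.iso_main` with `ι = V`, `E w = monomial w.1 1`, `J w w' = (x ^ N / β (det B)) * β (T w w')`, `c v = gf p d F' V c' v` (see the proof of `iso_V` in OH/OP.lean: `gf_relP`, `gf_out`, `gf_in`; `hE` from `span_V`); `hJ`: `T * B = det B • 1` (`Matrix.adjugate_mul`), `β (B w' w'') = x ^ N * Bil ..`. The conclusion is
`∑ ∑ gf v (x ^ w) * J w w' * gf v' (x ^ w') = 0`, cancel the factor of `J` (not 0), and `fU v w = h ^ .. * gf v (x ^ w)`, `gf` over `L` of the image is `β` of `gf` over `k[X]` (`gf_map`, OH/R1), `β` injective.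
-/

set_option autoImplicit false

namespace MPadcOE

open MvPolynomial MPadcGM MPadcHM MPadcLZ MPadcBK MPadcOA MPadcOH

private theorem R4_jac {R L : Type} [CommRing R] [Field L] {m : ℕ} (β : R →+* L) {F P : MvPolynomial (Fin m) R} (hP : P ∈ Jac F) :
    P.map β ∈ Ideal.span (Set.range (gr (F.map β))) := by
  have h1 := Ideal.mem_map_of_mem (MvPolynomial.map β) hP
  unfold Jac at h1
  rw [Ideal.map_span, ← Set.range_comp] at h1
  have h2 : (⇑(MvPolynomial.map β) ∘ fun j => pderiv j F) = gr (F.map β) := by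
    funext j
    show MvPolynomial.map β (pderiv j F) = pderiv j (F.map β)
    rw [pderiv_map]
  rw [h2] at h1
  exact h1

private theorem R4_ne {R L : Type} [CommRing R] [Field L] (β : R →+* L) {a b : R} (h : a ∣ b) (hb : β b ≠ 0) : β a ≠ 0 := by
  intro h0
  have h1 := map_dvd β h
  rw [h0, zero_dvd_iff] at h1
  exact hb h1

theorem regF {R : Type} [CommRing R] {m d : ℕ} {V : Finset (Fin m →₀ ℕ)} (H : HE R m V) (hH : H.Ok d) {L : Type} [Field L]
    (β : Polynomial R →+* L) (hβ : β H.Δ ≠ 0) : RegF (d - 1) (H.F.map β) := by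
  obtain ⟨M, hM⟩ := hH.sm
  refine ⟨fun i => ⟨M, ?_⟩, fun j => hm_pderiv ((hm_iff _ _).2 (hH.hom.map β)) j, ?_⟩
  · have h1 := R4_jac β (hM (Finsupp.single i M) (by
      unfold dg
      rw [Finset.sum_eq_single i]
      · rw [Finsupp.single_eq_same]
      · intro j _ hj
        rw [Finsupp.single_eq_of_ne hj]
      · intro h
        exact absurd (Finset.mem_univ _) h))
    rw [map_mul, map_C, map_monomial, map_one] at h1
    have h2 : (X i : MvPolynomial (Fin m) L) ^ M = C (β H.Δ)⁻¹ * (C (β H.Δ) * monomial (Finsupp.single i M) 1) := by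
      rw [← mul_assoc, ← C_mul, inv_mul_cancel₀ hβ, C_1, one_mul, X_pow_eq_monomial]
    rw [h2]
    exact Ideal.mul_mem_left _ _ h1
  · have := hH.hd
    omega

theorem det_B {R : Type} [CommRing R] {m d : ℕ} {V : Finset (Fin m →₀ ℕ)} (H : HE R m V) (hH : H.Ok d) {L : Type} [Field L]
    (β : Polynomial R →+* L) (hβ : β H.Δ ≠ 0) : (H.B.map β).det ≠ 0 := by
  obtain ⟨N, hN⟩ := hH.bil
  have hK := regF H hH β hβ
  have hG := gram_V hH.hm hH.hd (hH.hom.map β) hK (hH.cd.map β) (R4_ne β hH.hdvd hβ)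
  have h1 : H.B.map β = (β H.Δ ^ N) • Matrix.of fun v v' : V =>
      Bil hK d (monomial v.1 1) (monomial v'.1 1) := by
    ext v v'
    rw [Matrix.map_apply, Matrix.smul_apply, Matrix.of_apply, smul_eq_mul, hN L β hβ hK v v']
  rw [h1, Matrix.det_smul]
  exact mul_ne_zero (pow_ne_zero _ (pow_ne_zero _ hβ)) hG

theorem B_low {k : Type} [Field k] {m d : ℕ} {V : Finset (Fin m →₀ ℕ)} (H : HE k m V) (hH : H.Ok d) (hΔ : H.Δ ≠ 0) (v v' : V)
    (hv : lvl d v.1 + lvl d v'.1 ≤ m - 1) : H.B v v' = 0 := by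
  have hinj : Function.Injective (algebraMap (Polynomial k) (RatFunc k)) := IsFractionRing.injective _ _
  obtain ⟨β, hβdef⟩ : ∃ β : Polynomial k →+* RatFunc k, β = algebraMap (Polynomial k) (RatFunc k) := ⟨_, rfl⟩
  rw [← hβdef] at hinj
  have hβ : β H.Δ ≠ 0 := (map_ne_zero_iff β hinj).2 hΔ
  obtain ⟨N, hN⟩ := hH.bil
  have hK := regF H hH β hβ
  apply hinj
  rw [map_zero, ← hN (RatFunc k) β hβ hK v v',
    bil_low hH.hm hH.hd (hH.hom.map β) hK (hH.cd.map β) v v' hv, mul_zero]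

theorem fU_iso {k : Type} [Field k] (p : ℕ) [Fact p.Prime] [CharP k p] {m d : ℕ} {V : Finset (Fin m →₀ ℕ)} (H : HE k m V)
    (hH : H.Ok d) (hΔ : H.Δ ≠ 0) (hp : d * m < p) (v v' : V) (hv : lvl d v.1 + lvl d v'.1 ≤ m - 1) :
    ∑ w, ∑ w', H.fU p d v w * H.T w w' * H.fU p d v' w' = 0 := by
  have hinj : Function.Injective (algebraMap (Polynomial k) (RatFunc k)) := IsFractionRing.injective _ _
  obtain ⟨β, hβdef⟩ : ∃ β : Polynomial k →+* RatFunc k, β = algebraMap (Polynomial k) (RatFunc k) := ⟨_, rfl⟩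
  rw [← hβdef] at hinj
  have hβ : β H.Δ ≠ 0 := (map_ne_zero_iff β hinj).2 hΔ
  have _ : CharP (RatFunc k) p := by
    rw [hβdef] at hinj
    exact charP_of_injective_algebraMap hinj p
  obtain ⟨N, hN⟩ := hH.bil
  have hm := hH.hm
  have hd := hH.hd
  have hK := regF H hH β hβ
  have hh : β H.h ≠ 0 := R4_ne β hH.hdvd hβ
  have hdet : β H.B.det ≠ 0 := by
    have h1 := det_B H hH β hβ
    have h2 : β H.B.det = (H.B.map β).det := by
      rw [RingHom.map_det, RingHom.mapMatrix_apply]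
    rw [h2]
    exact h1
  have hE : ∀ P : MvPolynomial (Fin m) (RatFunc k), ∃ a : V → RatFunc k,
      brP d (H.F.map β) P = ∑ l : V, a l • brP d (H.F.map β) (monomial l.1 1) := by
    intro P
    obtain ⟨a, ha⟩ := span_V hm hd (hH.hom.map β) hK (hH.cd.map β) hh P
    refine ⟨a, ?_⟩
    rw [← brP_iff, map_sub, sub_eq_zero, map_sum] at ha
    rw [ha]
    refine Finset.sum_congr rfl fun l _ => ?_
    rw [← smul_eq_C_mul, map_smul]
  have hJ : ∀ l k' : V, ∑ l' : V, ((β H.Δ ^ N * (β H.B.det)⁻¹) * β (H.T l l')) *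
      Bil hK d (monomial l'.1 1) (monomial k'.1 1) = if l = k' then 1 else 0 := by
    intro l k'
    have h2 : ∀ l' : V, ((β H.Δ ^ N * (β H.B.det)⁻¹) * β (H.T l l')) *
        Bil hK d (monomial l'.1 1) (monomial k'.1 1) = (β H.B.det)⁻¹ * β (H.T l l' * H.B l' k') := by
      intro l'
      rw [map_mul β, ← hN (RatFunc k) β hβ hK l' k']
      ring
    rw [Finset.sum_congr rfl fun l' _ => h2 l', ← Finset.mul_sum, ← map_sum β]
    have h3 := congrFun (congrFun (Matrix.adjugate_mul H.B) l) k'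
    rw [Matrix.mul_apply, Matrix.smul_apply, Matrix.one_apply] at h3
    have h4 : ∑ l' : V, H.T l l' * H.B l' k' = H.B.det • (if l = k' then (1 : Polynomial k) else 0) := h3
    rw [h4, smul_eq_mul, map_mul β]
    split_ifs
    · rw [map_one, mul_one, inv_mul_cancel₀ hdet]
    · rw [map_zero, mul_zero, mul_zero]
  have h1 := MPadcIS.iso_main hK (by omega) (by omega) ((hm_iff d _).2 (hH.hom.map β)) (hH.cd.map β) hh p
    (fun v => gf p d (H.F.map β) V (fun v e => β (H.c v e)) v)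
    (gf_relP p hm hd hp (hH.hom.map β) hK (hH.cd.map β) hh) (fun v w hw => gf_out p v w hw)
    (fun v k w _ hw => gf_in p (by omega) v k w hw)
    (fun w : V => monomial w.1 1) hE
    (fun l l' => (β H.Δ ^ N * (β H.B.det)⁻¹) * β (H.T l l')) hJ (v := v) (v' := v') hv
  have hgf : ∀ u w : V, gf p d (H.F.map β) V (fun v e => β (H.c v e)) u (monomial w.1 1) =
      β (gf p d H.F V H.c u (monomial w.1 1)) := by
    intro u w
    rw [← gf_map p β u (monomial w.1 1), map_monomial, map_one β]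
  have hκ : β H.Δ ^ N * (β H.B.det)⁻¹ ≠ 0 := mul_ne_zero (pow_ne_zero _ hβ) (inv_ne_zero hdet)
  have h2 : ∑ w : V, ∑ w' : V, gf p d H.F V H.c v (monomial w.1 1) * H.T w w' *
      gf p d H.F V H.c v' (monomial w'.1 1) = 0 := by
    apply hinj
    rw [map_zero]
    have h3 : (β H.Δ ^ N * (β H.B.det)⁻¹) * β (∑ w : V, ∑ w' : V, gf p d H.F V H.c v (monomial w.1 1) * H.T w w' *
        gf p d H.F V H.c v' (monomial w'.1 1)) = 0 := by
      rw [← h1, map_sum β, Finset.mul_sum]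
      refine Finset.sum_congr rfl fun w _ => ?_
      rw [map_sum β, Finset.mul_sum]
      refine Finset.sum_congr rfl fun w' _ => ?_
      rw [map_mul β, map_mul β, hgf, hgf]
      ring
    exact (mul_eq_zero.1 h3).resolve_left hκ
  have h3 : ∑ w : V, ∑ w' : V, H.fU p d v w * H.T w w' * H.fU p d v' w' =
      (H.h ^ (p * lvl d v.1) * H.h ^ (p * lvl d v'.1)) *
        ∑ w : V, ∑ w' : V, gf p d H.F V H.c v (monomial w.1 1) * H.T w w' *
          gf p d H.F V H.c v' (monomial w'.1 1) := by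
    rw [Finset.mul_sum]
    refine Finset.sum_congr rfl fun l _ => ?_
    rw [Finset.mul_sum]
    refine Finset.sum_congr rfl fun l' _ => ?_
    unfold HE.fU
    ring
  rw [h3, h2, mul_zero]

end MPadcOE
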