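import Pool.Agent.Lib.MP_adc574_ag_OE.R4

/-!
# LEAF R5 (folder OE): the rows are linearly independent at every point which is not singular (copy of OH/R5 with `s = 1`)

PROOF. As `fU_li` in MP_adc574_ag_OH/R5.lean: `β = evalRingHom α`; `(fU v w).eval α = h' ^ (p * lvl v) * gf p d F' V c' v (monomial w.1 1)` (`gf_map`); a functional `φ = ∑ v, μ v • gf v` which vanishes on the `monomial w.1 1`, `w ∈ V`, and on `relR d F'` vanishes everywhere (`span_V`, OP, for `F'`, which replaces `spanE`).
Conclude with `gam_indep` as there.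
-/

set_option autoImplicit false

namespace MPadcOE

open MvPolynomial MPadcGM MPadcHM MPadcLZ MPadcBK MPadcOA MPadcOH

private theorem R5_tdg {m : ℕ} (e : Fin m →₀ ℕ) : tdg e = dg e + m := by
  unfold tdg dg
  rw [Finset.sum_add_distrib]
  simp

private theorem R5_mono {K : Type} [Field K] {m : ℕ} (u : Fin m →₀ ℕ) (c : K) :
    Hm (dg u) (monomial u c) := by
  classical
  intro e he
  rw [mem_support_iff, coeff_monomial] at he
  by_contra hne
  apply he
  rw [if_neg]
  rintro rfl
  exact hne rfl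

theorem fU_li {k : Type} [Field k] (p : ℕ) [Fact p.Prime] [CharP k p] {m d : ℕ} {V : Finset (Fin m →₀ ℕ)} (H : HE k m V)
    (hH : H.Ok d) (hp : d * m < p) (α : k) (hα : H.Δ.eval α ≠ 0) :
    LinearIndependent k fun (v w : V) => (H.fU p d v w).eval α := by
  have hm := hH.hm
  have hd := hH.hd
  have hmp : m < p := by
    have h1 : 1 * m ≤ d * m := Nat.mul_le_mul_right m (by omega)
    omega
  obtain ⟨β, hβ⟩ : ∃ β : Polynomial k →+* k, β = Polynomial.evalRingHom α := ⟨_, rfl⟩
  have hβe : ∀ q : Polynomial k, β q = q.eval α := fun q => by rw [hβ]; rfl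
  have hβΔ : β H.Δ ≠ 0 := by
    rw [hβe]
    exact hα
  have hβh : β H.h ≠ 0 := by
    obtain ⟨q, hq⟩ := hH.hdvd
    intro h0
    apply hβΔ
    rw [hq, map_mul, h0, zero_mul]
  have hC := hH.cd.map β
  have hF : (H.F.map β).IsHomogeneous d := hH.hom.map β
  have hreg := regF H hH β hβΔ
  have hJ : m - 1 < p := by omega
  rw [Fintype.linearIndependent_iff]
  intro lam hlam
  obtain ⟨mu, hmu⟩ : ∃ mu : V → k, ∀ v, mu v = lam v * (β H.h) ^ (p * lvl d v.1) :=
    ⟨_, fun v => rfl⟩
  obtain ⟨Φ, hΦ⟩ : ∃ Φ : MvPolynomial (Fin m) k →ₗ[k] k, Φ = ∑ v : V, mu v •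
    gf p d (H.F.map β) V (fun v e => β (H.c v e)) v := ⟨_, rfl⟩
  have hΦa : ∀ P, Φ P = ∑ v : V, mu v * gf p d (H.F.map β) V (fun v e => β (H.c v e)) v P := by
    intro P
    rw [hΦ, LinearMap.sum_apply]
    rfl
  have h1 : ∀ w : V, Φ (monomial w.1 1) = 0 := by
    intro w
    have h2 := congrFun hlam w
    rw [Finset.sum_apply, Pi.zero_apply] at h2
    rw [hΦa, ← h2]
    refine Finset.sum_congr rfl fun v _ => ?_
    have h3 : (monomial w.1 (1 : k) : MvPolynomial (Fin m) k) = (monomial w.1 (1 : Polynomial k)).map β := by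
      rw [map_monomial, map_one β]
    rw [h3, gf_map, hmu, Pi.smul_apply, smul_eq_mul, ← hβe, HE.fU, map_mul, map_pow]
    ring
  have h2 : ∀ P ∈ relR d (H.F.map β), Φ P = 0 := by
    intro P hP
    rw [hΦa]
    refine Finset.sum_eq_zero fun v _ => ?_
    rw [gf_rel p (by omega) (by omega) hF hJ hC v hP, mul_zero]
  have h3 : ∀ P, Φ P = 0 := by
    intro P
    obtain ⟨a, ha⟩ := span_V hm hd hF hreg hC hβh P
    have h4 := h2 _ ha
    rw [map_sub, map_sum] at h4
    have h5 : ∑ v : V, Φ (C (a v) * monomial v.1 1) = 0 := by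
      refine Finset.sum_eq_zero fun v _ => ?_
      rw [← smul_eq_C_mul, map_smul, h1, smul_zero]
    rw [h5, sub_zero] at h4
    exact h4
  have h4 : mu = 0 := by
    refine gam_indep p (by omega : 1 ≤ d) hF hC hβh hJ (M := m * (d - 2) + 1) (k₀ := m) ?_ (by omega)
      (by omega) ?_ mu ?_
    · intro e he
      have h5 := mem_of_deg hreg.sop hreg.hom hreg.he (dg e) (monomial e 1) (R5_mono e 1) (by
        have h6 : d - 1 - 1 = d - 2 := by omega
        rw [h6]
        unfold dg
        omega)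
      exact h5
    · obtain ⟨d', hd'⟩ : ∃ d', d = d' + 2 := ⟨d - 2, by omega⟩
      rw [hd', Nat.add_sub_cancel, Nat.mul_add]
      omega
    · intro e he
      have h5 := h3 (monomial e 1)
      rw [hΦa] at h5
      have h6 : lvl d e = m := by
        unfold lvl
        rw [he, Nat.mul_div_cancel _ (by omega)]
      have h7 : ∀ v : V, mu v * gf p d (H.F.map β) V (fun v e => β (H.c v e)) v (monomial e 1) =
          (-1) ^ m * (mu v * gam p (H.F.map β) (fun v e => β (H.c v e)) (fun v : V => lvl d v.1) v m (monomial e 1)) := by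
        intro v
        rw [gf_mono, if_pos (by rw [he]; exact Dvd.intro_left m rfl), h6]
        ring
      rw [Finset.sum_congr rfl fun v _ => h7 v, ← Finset.mul_sum] at h5
      rcases mul_eq_zero.1 h5 with h8 | h8
      · exact absurd h8 (pow_ne_zero m (neg_ne_zero.2 one_ne_zero))
      · exact h8
  intro v
  have h5 := congrFun h4 v
  rw [hmu, Pi.zero_apply] at h5
  exact (mul_eq_zero.1 h5).resolve_right (pow_ne_zero _ hβh)

end MPadcOE
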