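import Pool.Agent.Lib.MP_adc574_ag_OE.HE
import Pool.Agent.Lib.MP_adc574_ag_OH.R1
import Pool.Agent.Lib.MP_adc574_ag_OH.R6

/-!
# LEAF R6 (folder OE): the degree of the frame is at most a constant times `p` (copy of OH/R6 with `s = 1`, `Q` = identity)

PROOF. Copy of `fU_deg` in MP_adc574_ag_OH/R6.lean: only one monomial instead of `∑ v', Q l v' * ..`, no factor `s ^ (p - 1)`.
-/

set_option autoImplicit false

namespace MPadcOE

open MvPolynomial MPadcGM MPadcHM MPadcLZ MPadcBK MPadcOA MPadcOH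

section

variable {k σ : Type} [Field k]

/-- All coefficients have degree at most `N`. -/
private def R6e_DB (N : ℕ) (P : MvPolynomial σ (Polynomial k)) : Prop := ∀ e, (coeff e P).natDegree ≤ N

private theorem R6e_DB_mono {N M : ℕ} (h : N ≤ M) {P : MvPolynomial σ (Polynomial k)} (hP : R6e_DB N P) : R6e_DB M P :=
  fun e => (hP e).trans h

private theorem R6e_DB_mul {N M : ℕ} {P Q : MvPolynomial σ (Polynomial k)} (hP : R6e_DB N P) (hQ : R6e_DB M Q) :
    R6e_DB (N + M) (P * Q) := by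
  classical
  intro e
  rw [coeff_mul]
  exact Polynomial.natDegree_sum_le_of_forall_le _ _ fun x _ =>
    Polynomial.natDegree_mul_le_of_le (hP x.1) (hQ x.2)

private theorem R6e_DB_sum {ι : Type} (s : Finset ι) {N : ℕ} (f : ι → MvPolynomial σ (Polynomial k))
    (h : ∀ i ∈ s, R6e_DB N (f i)) : R6e_DB N (∑ i ∈ s, f i) := by
  intro e
  rw [coeff_sum]
  exact Polynomial.natDegree_sum_le_of_forall_le _ _ fun i hi => h i hi e

private theorem R6e_DB_neg {N : ℕ} {P : MvPolynomial σ (Polynomial k)} (hP : R6e_DB N P) : R6e_DB N (-P) := by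
  intro e
  rw [coeff_neg, Polynomial.natDegree_neg]
  exact hP e

private theorem R6e_DB_monomial {N : ℕ} (u : σ →₀ ℕ) {a : Polynomial k} (ha : a.natDegree ≤ N) : R6e_DB N (monomial u a) := by
  classical
  intro e
  rw [coeff_monomial]
  split_ifs
  · exact ha
  · rw [Polynomial.natDegree_zero]
    exact Nat.zero_le _

private theorem R6e_DB_C {N : ℕ} {a : Polynomial k} (ha : a.natDegree ≤ N) : R6e_DB N (C a : MvPolynomial σ (Polynomial k)) :=
  R6e_DB_monomial 0 ha

private theorem R6e_DB_one : R6e_DB 0 (1 : MvPolynomial σ (Polynomial k)) := by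
  rw [← C_1]
  exact R6e_DB_C (by rw [Polynomial.natDegree_one])

private theorem R6e_DB_zero {N : ℕ} : R6e_DB N (0 : MvPolynomial σ (Polynomial k)) := by
  intro e
  rw [coeff_zero, Polynomial.natDegree_zero]
  exact Nat.zero_le _

private theorem R6e_DB_pow {D : ℕ} {P : MvPolynomial σ (Polynomial k)} (hP : R6e_DB D P) (n : ℕ) : R6e_DB (n * D) (P ^ n) := by
  induction n with
  | zero =>
    rw [pow_zero, Nat.zero_mul]
    exact R6e_DB_one
  | succ n ih =>
    rw [pow_succ, Nat.succ_mul]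
    exact R6e_DB_mul ih hP

/-- The coefficient of `T ^ n` has degree at most `n D`. -/
private def R6e_PB (D : ℕ) (f : PowerSeries (MvPolynomial σ (Polynomial k))) : Prop :=
  ∀ n, R6e_DB (n * D) (PowerSeries.coeff n f)

private theorem R6e_PB_mul {D : ℕ} {f g : PowerSeries (MvPolynomial σ (Polynomial k))} (hf : R6e_PB D f) (hg : R6e_PB D g) :
    R6e_PB D (f * g) := by
  intro n
  rw [PowerSeries.coeff_mul]
  refine R6e_DB_sum _ _ fun x hx => ?_
  have h := Finset.HasAntidiagonal.mem_antidiagonal.1 hx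
  rw [← h, Nat.add_mul]
  exact R6e_DB_mul (hf x.1) (hg x.2)

private theorem R6e_PB_one {D : ℕ} : R6e_PB D (1 : PowerSeries (MvPolynomial σ (Polynomial k))) := by
  intro n
  rw [PowerSeries.coeff_one]
  split_ifs
  · exact R6e_DB_mono (Nat.zero_le _) R6e_DB_one
  · exact R6e_DB_zero

private theorem R6e_DB_Ec (p : ℕ) [Fact p.Prime] [CharP k p] {D : ℕ} {F : MvPolynomial σ (Polynomial k)} (hF : R6e_DB D F)
    (N : ℕ) : R6e_DB (N * D) (Ec p F N) := by
  have h : R6e_PB D (ES p F) := by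
    unfold ES
    refine Finset.prod_induction _ (R6e_PB D) (fun _ _ => R6e_PB_mul) R6e_PB_one fun u _ n => ?_
    rw [PowerSeries.coeff_rescale, PowerSeries.coeff_map]
    have h1 : R6e_DB (n * D) ((-(monomial u (F.coeff u))) ^ n) := R6e_DB_pow (R6e_DB_neg (R6e_DB_monomial u (hF u))) n
    have h2 : R6e_DB 0 (((C : Polynomial k →+* MvPolynomial σ (Polynomial k)).comp
        (ZMod.castHom (dvd_refl p) (Polynomial k))) (PowerSeries.coeff n (AH p))) := by
      obtain ⟨z, hz⟩ := ZMod.intCast_surjective (PowerSeries.coeff n (AH p))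
      rw [← hz, map_intCast, ← map_intCast (C : Polynomial k →+* MvPolynomial σ (Polynomial k))]
      exact R6e_DB_C (by rw [Polynomial.natDegree_intCast])
    exact R6e_DB_mul h1 h2
  exact h N

private theorem R6e_DB_Eci (p : ℕ) [Fact p.Prime] [CharP k p] {D : ℕ} {F : MvPolynomial σ (Polynomial k)} (hF : R6e_DB D F)
    {N : ℕ} {z : ℤ} (hz : z ≤ N) : R6e_DB (N * D) (Eci p F z) := by
  unfold Eci
  split_ifs with h
  · refine R6e_DB_mono (Nat.mul_le_mul_right D ?_) (R6e_DB_Ec p hF z.toNat)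
    omega
  · exact R6e_DB_zero

end

section

variable {k : Type} [Field k] {m : ℕ}

private theorem R6e_DB_ap (p : ℕ) [hp : Fact p.Prime] [CharP k p] {D : ℕ} {F : MvPolynomial (Fin m) (Polynomial k)}
    (hF : R6e_DB D F) {i : ℕ} (hi : i ≤ m) (j : ℕ) (e : Fin m →₀ ℕ) :
    R6e_DB (p * m * D) (ap p F i j (monomial e 1)) := by
  intro v
  rw [ap_apply, cc_coeff hp.out.pos]
  have h1 : (p : ℤ) * i - j ≤ ((p * m : ℕ) : ℤ) := by
    have h2 : p * i ≤ p * m := Nat.mul_le_mul_left p hi
    have h3 : (p : ℤ) * i ≤ ((p * m : ℕ) : ℤ) := by exact_mod_cast h2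
    omega
  have h4 := R6e_DB_mul (R6e_DB_Eci p hF h1) (R6e_DB_monomial (k := k) (N := 0) e
    (by rw [Polynomial.natDegree_one] : (1 : Polynomial k).natDegree ≤ 0))
  exact h4 _

private theorem R6e_deg_gam (p : ℕ) [hp : Fact p.Prime] [CharP k p] {D : ℕ} {F : MvPolynomial (Fin m) (Polynomial k)}
    (hF : R6e_DB D F) {V : Type} [Fintype V] [DecidableEq V] {c : V → (Fin m →₀ ℕ) → Polynomial k}
    (hc : ∀ v e, (c v e).natDegree ≤ D) (lv : V → ℕ) (v : V) (hi : lv v ≤ m) (j : ℕ) (e : Fin m →₀ ℕ) :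
    (gam p F c lv v j (monomial e 1)).natDegree ≤ p * m * D + p * D := by
  rw [gam_apply, ell_eq_sum]
  refine Polynomial.natDegree_sum_le_of_forall_le _ _ fun w _ => ?_
  refine Polynomial.natDegree_mul_le_of_le (R6e_DB_ap p hF hi j e w) ?_
  exact Polynomial.natDegree_pow_le_of_le p (hc v w)

private theorem R6e_fU_bd (p : ℕ) [hp : Fact p.Prime] [CharP k p] {V : Finset (Fin m →₀ ℕ)} (d : ℕ) (H : HE k m V)
    (D : ℕ) (hlv : ∀ v : V, lvl d v.1 ≤ m) (hh : H.h.natDegree ≤ D) (hF : ∀ e, (coeff e H.F).natDegree ≤ D)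
    (hc : ∀ v e, (H.c v e).natDegree ≤ D) (v w : V) :
    (H.fU p d v w).natDegree ≤ (2 * m + 1) * D * p := by
  have h1 : (gf p d H.F V H.c v (monomial w.1 1)).natDegree ≤ p * m * D + p * D := by
    rw [gf_mono, one_mul]
    split_ifs
    · have h2 : ((-1 : Polynomial k) ^ lvl d w.1).natDegree ≤ 0 := by
        rcases neg_one_pow_eq_or (Polynomial k) (lvl d w.1) with h | h
        · rw [h, Polynomial.natDegree_one]
        · rw [h, Polynomial.natDegree_neg, Polynomial.natDegree_one]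
      have h3 := R6e_deg_gam p (F := H.F) hF hc (fun v : V => lvl d v.1) v (hlv v) (lvl d w.1) w.1
      exact (Polynomial.natDegree_mul_le_of_le h2 h3).trans (by omega)
    · rw [Polynomial.natDegree_zero]
      exact Nat.zero_le _
  have h2 : (H.h ^ (p * lvl d v.1)).natDegree ≤ p * m * D :=
    (Polynomial.natDegree_pow_le_of_le _ hh).trans (Nat.mul_le_mul_right D (Nat.mul_le_mul_left p (hlv v)))
  have h4 : (H.fU p d v w).natDegree ≤ p * m * D + (p * m * D + p * D) := by
    show (H.h ^ (p * lvl d v.1) * gf p d H.F V H.c v (monomial w.1 1)).natDegree ≤ _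
    exact Polynomial.natDegree_mul_le_of_le h2 h1
  refine h4.trans (le_of_eq ?_)
  ring

end

private theorem R6e_tdg_finite {m : ℕ} (n : ℕ) : {e : Fin m →₀ ℕ | tdg e ≤ n}.Finite := by
  refine (Set.finite_Icc (0 : Fin m →₀ ℕ) (Finsupp.equivFunOnFinite.symm fun _ => n)).subset ?_
  intro e he
  refine ⟨fun i => Nat.zero_le _, fun i => ?_⟩
  have h1 : e i + 1 ≤ ∑ i, (e i + 1) := Finset.single_le_sum (f := fun i => e i + 1) (fun _ _ => Nat.zero_le _) (Finset.mem_univ i)
  have h2 : ∑ i, (e i + 1) ≤ n := he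
  show e i ≤ n
  omega

theorem fU_deg {A : Type} [CommRing A] {m d : ℕ} {V : Finset (Fin m →₀ ℕ)} (H : HE A m V) (hH : H.Ok d) :
    ∃ C₀ : ℕ, ∀ (k : Type) [Field k] (p : ℕ) [Fact p.Prime] [CharP k p] (φ : A →+* k) (v w : V),
      ((H.map φ).fU p d v w).natDegree ≤ C₀ * p := by
  classical
  have hlv : ∀ v : V, lvl d v.1 ≤ m := fun v => (hH.cd.lv_le v).trans (Nat.sub_le m 1)
  let S := (R6e_tdg_finite (m := m) (m * d)).toFinset
  have hc0 : ∀ (v : V) (e : Fin m →₀ ℕ), e ∉ S → H.c v e = 0 := by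
    intro v e he
    refine hH.cd.zero v e fun h => he ?_
    rw [Set.Finite.mem_toFinset]
    show tdg e ≤ m * d
    rw [h]
    exact Nat.mul_le_mul_right _ (hlv v)
  let D1 := H.h.natDegree
  let D4 := H.F.support.sup fun e => (coeff e H.F).natDegree
  let D5 := ((Finset.univ : Finset V) ×ˢ S).sup fun x => (H.c x.1 x.2).natDegree
  let D := D1 + D4 + D5
  have h1 : H.h.natDegree ≤ D := by
    show D1 ≤ _
    omega
  have h4 : ∀ e, (coeff e H.F).natDegree ≤ D := by
    intro e
    by_cases he : e ∈ H.F.support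
    · have h := Finset.le_sup (f := fun e => (coeff e H.F).natDegree) he
      exact (show (coeff e H.F).natDegree ≤ D4 from h).trans (by omega)
    · rw [notMem_support_iff.1 he, Polynomial.natDegree_zero]
      exact Nat.zero_le _
  have h5 : ∀ v e, (H.c v e).natDegree ≤ D := by
    intro v e
    by_cases he : e ∈ S
    · have h := Finset.le_sup (f := fun x : V × (Fin m →₀ ℕ) => (H.c x.1 x.2).natDegree)
        (Finset.mk_mem_product (Finset.mem_univ v) he)
      exact (show (H.c v e).natDegree ≤ D5 from h).trans (by omega)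
    · rw [hc0 v e he, Polynomial.natDegree_zero]
      exact Nat.zero_le _
  refine ⟨(2 * m + 1) * D, fun k _ p _ _ φ v w => ?_⟩
  refine R6e_fU_bd p d (H.map φ) D hlv ?_ ?_ ?_ v w
  · exact Polynomial.natDegree_map_le.trans h1
  · intro e
    show (coeff e (H.F.map (Polynomial.mapRingHom φ))).natDegree ≤ D
    rw [coeff_map, Polynomial.coe_mapRingHom]
    exact Polynomial.natDegree_map_le.trans (h4 e)
  · exact fun v e => Polynomial.natDegree_map_le.trans (h5 v e)

end MPadcOE
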