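import Pool.Agent.Lib.MP_adc574_ag_OE.R4

/-!
# LEAF R7 (folder OE): the determinants at a point (copy of OH/R7 with `s = 1`)

PROOF. Copy of `dj_low`, `dj_all` in MP_adc574_ag_OH/R7.lean. `fU (low a).1 (low b).1 = h ^ (p lv) * gf (low a).1 (monomial (low b).1 1)` directly (no `s`, no `inl`); `low : Fin g ≃ {v : V // 2 * lvl d v.1 < m}` is a parameter. `dj_all`: `dj_dual` (OP) and `regF` (R4).
-/

set_option autoImplicit false

namespace MPadcOE

open MvPolynomial MPadcGM MPadcHM MPadcLZ MPadcBK MPadcOA MPadcOH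

private theorem R7_fU {k : Type} [Field k] (p : ℕ) [Fact p.Prime] [CharP k p] {m d : ℕ} {V : Finset (Fin m →₀ ℕ)}
    (H : HE k m V) (τ : k) (v w : V) : (H.fU p d v w).eval τ =
      ((H.h.eval τ) ^ (p * lvl d v.1)) *
        gf p d (H.F.map (Polynomial.evalRingHom τ)) V (fun v e => (H.c v e).eval τ) v (monomial w.1 1) := by
  have h1 := gf_map p (d := d) (F := H.F) (V := V) (c := H.c) (Polynomial.evalRingHom τ) v (monomial w.1 1)
  rw [MvPolynomial.map_monomial, map_one] at h1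
  have h2 : gf p d (H.F.map (Polynomial.evalRingHom τ)) V (fun v e => (H.c v e).eval τ) v
      (monomial w.1 1) = (gf p d H.F V H.c v (monomial w.1 1)).eval τ := h1
  rw [h2]
  unfold HE.fU
  rw [Polynomial.eval_mul, Polynomial.eval_pow]

theorem dj_low {k : Type} [Field k] (p : ℕ) [Fact p.Prime] [CharP k p] {m d : ℕ} {V : Finset (Fin m →₀ ℕ)} (H : HE k m V)
    (hH : H.Ok d) (hp : d * m < p) {g : ℕ} (low : Fin g ≃ {v : V // 2 * lvl d v.1 < m}) (τ : k) (hτ : H.Δ.eval τ ≠ 0)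
    (j : ℕ) (hj : 2 * j < m)
    (hdet : (Matrix.of fun a b : {a : Fin g // lvl d (low a).1.1 ≤ j} =>
      (H.fU p d (low a.1).1 (low b.1).1).eval τ).det ≠ 0) :
    dj p d (H.F.map (Polynomial.evalRingHom τ)) V (fun v e => (H.c v e).eval τ) j ≠ 0 := by
  classical
  obtain ⟨σ, hσ⟩ : ∃ σ : {a : Fin g // lvl d (low a).1.1 ≤ j} ≃ {v : V // lvl d v.1 ≤ j}, ∀ a, (σ a).1 = (low a.1).1 := by
    refine ⟨Equiv.ofBijective (fun a => ⟨(low a.1).1, a.2⟩) ⟨?_, ?_⟩, fun a => rfl⟩
    · intro a b h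
      have h1 : (low a.1).1 = (low b.1).1 := by
        have h2 := Subtype.ext_iff.1 h
        exact h2
      exact Subtype.ext (low.injective (Subtype.ext h1))
    · rintro ⟨v, hv⟩
      have h1 : 2 * lvl d v.1 < m := by omega
      have h2 : (low (low.symm ⟨v, h1⟩)).1 = v := congrArg Subtype.val (low.apply_symm_apply ⟨v, h1⟩)
      refine ⟨⟨low.symm ⟨v, h1⟩, ?_⟩, Subtype.ext h2⟩
      rw [h2]
      exact hv
  unfold dj
  rw [← Matrix.det_submatrix_equiv_self σ]
  intro h0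
  refine hdet ?_
  have h1 : (Matrix.of fun a b : {a : Fin g // lvl d (low a).1.1 ≤ j} => (H.fU p d (low a.1).1 (low b.1).1).eval τ) =
      Matrix.of fun a b : {a : Fin g // lvl d (low a).1.1 ≤ j} =>
        ((H.h.eval τ) ^ (p * lvl d (low a.1).1.1)) *
        (Matrix.of fun a b : {a : Fin g // lvl d (low a).1.1 ≤ j} =>
          gf p d (H.F.map (Polynomial.evalRingHom τ)) V (fun v e => (H.c v e).eval τ) (low a.1).1
            (monomial (low b.1).1.1 1)) a b := by
    ext a b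
    exact R7_fU p H τ (low a.1).1 (low b.1).1
  rw [h1, Matrix.det_mul_column]
  refine mul_eq_zero_of_right _ ?_
  rw [← h0]
  congr 1
  ext a b
  rw [Matrix.submatrix_apply, Matrix.of_apply, Matrix.of_apply, hσ, hσ]

theorem dj_all {k : Type} [Field k] (p : ℕ) [Fact p.Prime] [CharP k p] {m d : ℕ} {V : Finset (Fin m →₀ ℕ)} (H : HE k m V)
    (hH : H.Ok d) (hp : d * m < p) (τ : k) (hτ : H.Δ.eval τ ≠ 0)
    (hlow : ∀ j, 2 * j < m → dj p d (H.F.map (Polynomial.evalRingHom τ)) V (fun v e => (H.c v e).eval τ) j ≠ 0)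
    (j : ℕ) (hj : j ≤ m - 1) : dj p d (H.F.map (Polynomial.evalRingHom τ)) V (fun v e => (H.c v e).eval τ) j ≠ 0 := by
  by_cases h1 : 2 * j < m
  · exact hlow j h1
  · have hm := hH.hm
    have hβ : (Polynomial.evalRingHom τ) H.Δ ≠ 0 := hτ
    have hh : (Polynomial.evalRingHom τ) H.h ≠ 0 := by
      intro h2
      obtain ⟨x, hx⟩ := hH.hdvd
      refine hβ ?_
      rw [hx, map_mul, h2, zero_mul]
    exact dj_dual p hm hH.hd hp (hH.hom.map (Polynomial.evalRingHom τ)) (regF H hH (Polynomial.evalRingHom τ) hβ)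
      (hH.cd.map (Polynomial.evalRingHom τ)) hh (i := m - 1 - j) (j := j) (by omega) (hlow (m - 1 - j) (by omega))

end MPadcOE
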