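import Pool.Agent.Lib.MP_adc574_ag_OE.HE
import Pool.Agent.Lib.MP_adc574_ag_OE.S5
import Pool.Agent.Lib.MP_adc574_ag_OH.S6
import Pool.Agent.Lib.MP_adc574_ag_OH.P7

/-!
# LEAF S6 (folder OE): the family data over `κ[t]` on the monomial basis (medium; simpler copy of OH/S6)

PROOF. Follow the proof of `exists_HD0` in MP_adc574_ag_OH/S6.lean with `e = bV` (so `s = 1`, `Q` = identity): `α = algebraMap κ[X] K`; `clearD` for the finitely many `bV.repr (nab (bV v)) v'`: `s' ≠ 0`, `α (y v' v) = α s' * bV.repr (nab (bV v)) v'`. For `X_v = nb (dX κ) S.ft (monomial v 1)`: `brP ((X_v).map α) = nab (bV v)` (`nb_map` (OH/S6b), `hG.nab_br`), so by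
`relR_desc` (OH/S6a) there is `δ v ≠ 0` with `C (δ v) * (C s' * X_v - ∑ v', C (y v' v) * x ^ v') ∈ relR S.d S.ft`. Smoothness with a denominator `a` as there (private `S6_sm`: copy). `Δ = s' * h * a * ∏ δ v`, `G v' v = (Δ / s') * y v' v`. Then `rel` is a multiple of the relation above. `sm`, `hom`, `hdvd` as there.
`bil`, `B`: `C Δ * X i ^ M ∈ Jac S.ft` (`sm` with `single i M`); `bil_bc` (OH/P7) over `Polynomial κ` with `a = Δ` gives for every pair `v v'` a `b v v'` and `n v v'`; with `N` the maximum put `B v v' = Δ ^ (N - n v v') * b v v'`. `sym`: `α` is injective and `α (B v v') = α Δ ^ N * Bil K S.d (x ^ v) (x ^ v')`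
(`bil` for `L = RatFunc κ`, `β = α`, the given `K`), `Bil K S.d (x ^ v) (x ^ v') = B' (bV v) (bV v')` (`hB`) is symmetric (`hsym`).
-/

set_option autoImplicit false

namespace MPadcOE

open MvPolynomial MPadcGM MPadcHM MPadcLZ MPadcBK MPadcOA MPadcOH

/-- a monomial of large degree is divisible by a monomial of degree `M` -/
private theorem E6_le {N : ℕ} (M : ℕ) : ∀ (k : ℕ) (e : Fin N →₀ ℕ), dg e = M + k →
    ∃ e' ≤ e, dg e' = M := by
  intro k
  induction k with
  | zero => intro e he; exact ⟨e, le_refl _, he⟩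
  | succ k ih =>
    intro e he
    have h0 : ∃ i, e i ≠ 0 := by
      by_contra hc
      push Not at hc
      have : dg e = 0 := Finset.sum_eq_zero fun i _ => hc i
      omega
    obtain ⟨i, hi⟩ := h0
    have hle : Finsupp.single i 1 ≤ e := by
      rw [Finsupp.single_le_iff]
      omega
    have hdg : dg (e - Finsupp.single i 1) = M + k := by
      have h1 : e - Finsupp.single i 1 + Finsupp.single i 1 = e := tsub_add_cancel_of_le hle
      have h2 : dg e = dg (e - Finsupp.single i 1) + 1 := by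
        conv_lhs => rw [← h1]
        unfold dg
        simp only [Finsupp.add_apply]
        rw [Finset.sum_add_distrib]
        congr 1
        rw [Finset.sum_eq_single i]
        · rw [Finsupp.single_eq_same]
        · intro b _ hb
          rw [Finsupp.single_apply, if_neg (Ne.symm hb)]
        · intro h
          exact absurd (Finset.mem_univ i) h
      omega
    obtain ⟨e', he', hM⟩ := ih _ hdg
    exact ⟨e', he'.trans tsub_le_self, hM⟩

/-- smoothness over the ring with a denominator -/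
private theorem E6_sm {A : Type} [CommRing A] [IsDomain A] {K : Type} [Field K] (ι : A →+* K)
    (hι : Function.Injective ι) {N : ℕ} (F : MvPolynomial (Fin N) A) (M : ℕ)
    (hK : ∀ e : Fin N →₀ ℕ, dg e = M → monomial e (1 : K) ∈ Jac (F.map ι)) :
    ∃ a : A, a ≠ 0 ∧ ∀ (b : A) (e : Fin N →₀ ℕ), M ≤ dg e → C (b * a) * monomial e 1 ∈ Jac F := by
  classical
  have hA : ∀ e : Fin N →₀ ℕ, ∃ a : A, a ≠ 0 ∧ (dg e = M → C a * monomial e 1 ∈ Jac F) := by
    intro e
    by_cases he : dg e = M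
    · obtain ⟨a, ha, ha'⟩ := desc_jac ι hι F (monomial e 1) (by
          rw [map_monomial, map_one]
          exact hK e he)
      exact ⟨a, ha, fun _ => ha'⟩
    · exact ⟨1, one_ne_zero, fun h => absurd h he⟩
  choose a ha ha' using hA
  refine ⟨∏ e ∈ Finset.finsuppAntidiag (Finset.univ : Finset (Fin N)) M, a e,
    Finset.prod_ne_zero_iff.2 fun e _ => ha e, ?_⟩
  intro b e he
  obtain ⟨e', hle, he'⟩ := E6_le M (dg e - M) e (by omega)
  have hmem : e' ∈ Finset.finsuppAntidiag (Finset.univ : Finset (Fin N)) M := by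
    rw [Finset.mem_finsuppAntidiag]
    exact ⟨he', Finset.subset_univ _⟩
  have h1 : (monomial e (1 : A)) = monomial (e - e') 1 * monomial e' 1 := by
    rw [monomial_mul, one_mul, tsub_add_cancel_of_le hle]
  have h2 := Ideal.mul_mem_left (Jac F)
    (C (b * ∏ e ∈ (Finset.finsuppAntidiag (Finset.univ : Finset (Fin N)) M).erase e', a e) * monomial (e - e') 1)
    (ha' e' he')
  rw [h1, ← Finset.mul_prod_erase _ _ hmem]
  have h3 : (C (b * (a e' * ∏ x ∈ (Finset.finsuppAntidiag (Finset.univ : Finset (Fin N)) M).erase e', a x)) :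
      MvPolynomial (Fin N) A) * (monomial (e - e') 1 * monomial e' 1) =
      C (b * ∏ e ∈ (Finset.finsuppAntidiag (Finset.univ : Finset (Fin N)) M).erase e', a e) * monomial (e - e') 1 *
        (C (a e') * monomial e' 1) := by
    simp only [C_mul]
    ring
  rw [h3]
  exact h2

/-- the class of the relation is zero -/
private theorem E6_rel {A K M ι : Type} [CommRing A] [Field K] [AddCommGroup M] [Module K M] [Fintype ι] {m : ℕ}
    (α : A →+* K) (br : MvPolynomial (Fin m) K →ₗ[K] M) (X : MvPolynomial (Fin m) A)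
    (Pf : ι → MvPolynomial (Fin m) A) (D : A) (G : ι → A) (nel : M) (ef : ι → M)
    (hX : br (X.map α) = nel) (hPf : ∀ l, br ((Pf l).map α) = ef l) (hc : α D • nel = ∑ l, α (G l) • ef l) :
    br ((C D * X - ∑ l, C (G l) * Pf l).map α) = 0 := by
  have e1 : MvPolynomial.map α (C D * X - ∑ l, C (G l) * Pf l) =
      α D • X.map α - ∑ l, α (G l) • (Pf l).map α := by
    simp only [map_sub, map_mul, map_C, map_sum, smul_eq_C_mul]
  rw [e1, map_sub, map_smul, map_sum, hX]
  have e3 : ∀ l, br (α (G l) • (Pf l).map α) = α (G l) • ef l := fun l => by rw [map_smul, hPf]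
  rw [Finset.sum_congr rfl fun l _ => e3 l, ← hc, sub_self]

/-- the relation with a common denominator -/
private theorem E6_mem {A ι : Type} [CommRing A] [Fintype ι] [DecidableEq ι] {m : ℕ}
    (T : Submodule A (MvPolynomial (Fin m) A)) (X : MvPolynomial (Fin m) A) (Pf : ι → MvPolynomial (Fin m) A)
    (D a E : A) (G : ι → A) (δ : ι → A) (hE : E = a * ∏ l, δ l) (l : ι)
    (h : C (δ l) * (C D * X - ∑ l, C (G l) * Pf l) ∈ T) :
    C (D * E) * X - ∑ l, C (G l * E) * Pf l ∈ T := by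
  have h3 : E = a * (∏ l' ∈ Finset.univ.erase l, δ l') * δ l := by
    rw [hE, ← Finset.prod_erase_mul _ _ (Finset.mem_univ l), mul_assoc]
  have h2 : ∑ l', C (G l' * E) * Pf l' = C E * ∑ l', C (G l') * Pf l' := by
    rw [Finset.mul_sum]
    refine Finset.sum_congr rfl fun l' _ => ?_
    rw [C_mul]
    ring
  have h4 : C (D * E) * X - ∑ l, C (G l * E) * Pf l =
      (a * ∏ l' ∈ Finset.univ.erase l, δ l') • (C (δ l) * (C D * X - ∑ l, C (G l) * Pf l)) := by
    obtain ⟨b, hb⟩ : ∃ b : A, b = a * ∏ l' ∈ Finset.univ.erase l, δ l' := ⟨_, rfl⟩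
    rw [← hb] at h3 ⊢
    rw [h2, smul_eq_C_mul, h3]
    simp only [C_mul]
    ring
  rw [h4]
  exact Submodule.smul_mem _ _ h

/-- the Gram matrix -/
private theorem E6_gram {κ : Type} [Field κ] {m d : ℕ} (hd : 3 ≤ d) (F : MvPolynomial (Fin m) (Polynomial κ))
    (hF : F.IsHomogeneous d) (D : Polynomial κ) (hD : D ≠ 0)
    (hsm : ∃ M : ℕ, ∀ e : Fin m →₀ ℕ, M ≤ dg e → C D * monomial e 1 ∈ Jac F)
    {V : Finset (Fin m →₀ ℕ)} (K : RegF (d - 1) (F.map (algebraMap (Polynomial κ) (RatFunc κ))))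
    (hs : ∀ v v' : V, Bil K d (monomial v.1 1) (monomial v'.1 1) = Bil K d (monomial v'.1 1) (monomial v.1 1)) :
    ∃ B : Matrix V V (Polynomial κ), B.transpose = B ∧ ∃ N : ℕ, ∀ (L : Type) [Field L] (β : Polynomial κ →+* L),
      β D ≠ 0 → ∀ (K : RegF (d - 1) (F.map β)) (v v' : V),
        β D ^ N * Bil K d (monomial v.1 1) (monomial v'.1 1) = β (B v v') := by
  obtain ⟨M, hM⟩ := hsm
  have hX : ∀ i : Fin m, C D * X i ^ M ∈ Jac F := by
    intro i
    rw [X_pow_eq_monomial]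
    refine hM (Finsupp.single i M) (le_of_eq ?_)
    unfold dg
    rw [Finset.sum_eq_single i, Finsupp.single_eq_same]
    · intro j _ hj
      exact Finsupp.single_eq_of_ne hj
    · intro h
      exact absurd (Finset.mem_univ i) h
  have hb := fun v v' : V => bil_bc hd F hF D M hX v.1 v'.1
  choose b n hbn using hb
  obtain ⟨N, hN⟩ : ∃ N : ℕ, ∀ v v', n v v' ≤ N := by
    refine ⟨∑ v : V, ∑ v' : V, n v v', fun v v' => ?_⟩
    refine (Finset.single_le_sum (f := fun v' => n v v') (fun _ _ => Nat.zero_le _) (Finset.mem_univ v')).trans ?_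
    exact Finset.single_le_sum (f := fun v => ∑ v' : V, n v v') (fun _ _ => Nat.zero_le _) (Finset.mem_univ v)
  obtain ⟨B, hB⟩ : ∃ B : Matrix V V (Polynomial κ), ∀ v v', B v v' = D ^ (N - n v v') * b v v' :=
    ⟨Matrix.of fun v v' => D ^ (N - n v v') * b v v', fun _ _ => rfl⟩
  have hval : ∀ (L : Type) [Field L] (β : Polynomial κ →+* L), β D ≠ 0 → ∀ (K : RegF (d - 1) (F.map β)) (v v' : V),
      β D ^ N * Bil K d (monomial v.1 1) (monomial v'.1 1) = β (B v v') := by
    intro L _ β hβ K' v v'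
    rw [hB, map_mul, map_pow, ← hbn v v' L β hβ K', ← mul_assoc, ← pow_add, Nat.sub_add_cancel (hN v v')]
  refine ⟨B, ?_, N, hval⟩
  have hα := RatFunc.algebraMap_injective κ
  have hD0 : algebraMap (Polynomial κ) (RatFunc κ) D ≠ 0 := (map_ne_zero_iff _ hα).2 hD
  ext1 v v'
  rw [Matrix.transpose_apply]
  apply hα
  rw [← hval (RatFunc κ) _ hD0 K v' v, ← hval (RatFunc κ) _ hD0 K v v', hs]

theorem exists_HE0 {κ : Type} [Field κ] [CharZero κ] {m : ℕ} (S : PDat κ m) (hS : S.Ok)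
    {nab : PKm S.d S.FK →+ PKm S.d S.FK} (hG : IsHG S nab (brP S.d S.FK)) (K : RegF (S.d - 1) S.FK)
    {B' : PKm S.d S.FK →ₗ[RatFunc κ] PKm S.d S.FK →ₗ[RatFunc κ] RatFunc κ}
    {rho : MvPolynomial (Fin m) (RatFunc κ) →ₗ[RatFunc κ] RatFunc κ} (hP : IsPP S nab (brP S.d S.FK) B' rho)
    (hB : ∀ P Q, B' (brP S.d S.FK P) (brP S.d S.FK Q) = Bil K S.d P Q) (hsym : ∀ x y, B' y x = B' x y)
    {V : Finset (Fin m →₀ ℕ)} {c : V → (Fin m →₀ ℕ) → Polynomial κ} {h : Polynomial κ}
    (hC : CData S.d (m - 1) S.ft (fun v : V => v.1) (fun v : V => lvl S.d v.1) c h) (hh : h ≠ 0)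
    (bV : Module.Basis V (RatFunc κ) (PKm S.d S.FK)) (hbV : ∀ v, bV v = brP S.d S.FK (monomial v.1 1)) :
    ∃ H' : HE κ m V, H'.Ok S.d ∧ H'.F = S.ft ∧ H'.Δ ≠ 0 := by
  classical
  obtain ⟨α, hαd⟩ : ∃ α : Polynomial κ →+* RatFunc κ, α = algebraMap (Polynomial κ) (RatFunc κ) := ⟨_, rfl⟩
  have hα : Function.Injective α := by
    rw [hαd]
    exact RatFunc.algebraMap_injective κ
  have hfr : ∀ x : RatFunc κ, ∃ b s : Polynomial κ, s ≠ 0 ∧ α s * x = α b := by
    intro x
    obtain ⟨s, y, hs, hy⟩ := clearD (fun _ : Unit => x)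
    rw [hαd]
    exact ⟨y (), s, hs, (hy ()).symm⟩
  obtain ⟨s', y, hs', hy⟩ : ∃ (s : Polynomial κ) (y : V → V → Polynomial κ), s ≠ 0 ∧
      ∀ v' v, α (y v' v) = α s * bV.repr (nab (bV v)) v' := by
    obtain ⟨s, y, h1, h2⟩ := clearD (fun z : V × V => bV.repr (nab (bV z.2)) z.1)
    rw [hαd]
    exact ⟨s, fun v' v => y (v', v), h1, fun v' v => h2 (v', v)⟩
  obtain ⟨X, hXd⟩ : ∃ X : V → MvPolynomial (Fin m) (Polynomial κ),
      ∀ v, X v = nb (dX κ) S.ft (monomial v.1 1) := ⟨_, fun _ => rfl⟩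
  obtain ⟨P, hPd⟩ : ∃ P : V → MvPolynomial (Fin m) (Polynomial κ), ∀ v, P v = monomial v.1 1 := ⟨_, fun _ => rfl⟩
  have hFK : S.FK = S.ft.map α := by
    rw [hαd]
    rfl
  have hP1 : ∀ v, brP S.d S.FK ((P v).map α) = bV v := by
    intro v
    rw [hPd, map_monomial, map_one, hbV]
  have hX1 : ∀ v, brP S.d S.FK ((X v).map α) = nab (bV v) := by
    intro v
    have h1 : (X v).map α = nb (DZ κ) S.FK ((P v).map α) := by
      rw [hXd, hPd, hFK, hαd]
      exact nb_map _ _
    rw [h1, ← hG.nab_br, hP1]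
  have hconn : ∀ v, α s' • nab (bV v) = ∑ v', α (y v' v) • bV v' := by
    intro v
    conv_lhs => rw [← bV.sum_repr (nab (bV v))]
    rw [Finset.smul_sum]
    refine Finset.sum_congr rfl fun v' _ => ?_
    rw [smul_smul, hy]
  have hrel : ∀ v, ∃ δ : Polynomial κ, δ ≠ 0 ∧
      C δ * (C s' * X v - ∑ v', C (y v' v) * P v') ∈ relR S.d S.ft := by
    intro v
    refine relR_desc α hα hfr S.ft _ ?_
    rw [← hFK, ← relZ_eq]
    refine (Submodule.Quotient.mk_eq_zero _).1 ?_
    exact E6_rel α (brP S.d S.FK) (X v) P s' (fun v' => y v' v) (nab (bV v)) bV (hX1 v) hP1 (hconn v)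
  choose δ hδ hδ' using hrel
  obtain ⟨a, ha, ha'⟩ := E6_sm α hα S.ft (m * (S.d - 2) + 1) fun e he => by
    rw [← hFK]
    exact hP.top e (by omega)
  obtain ⟨E, hE⟩ : ∃ E : Polynomial κ, E = h * a * ∏ v, δ v := ⟨_, rfl⟩
  have hE0 : E ≠ 0 := by
    rw [hE]
    exact mul_ne_zero (mul_ne_zero hh ha) (Finset.prod_ne_zero_iff.2 fun v _ => hδ v)
  have hΔ0 : s' * E ≠ 0 := mul_ne_zero hs' hE0
  have hkey : ∀ v, C (s' * E) * X v - ∑ v', C (y v' v * E) * P v' ∈ relR S.d S.ft :=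
    fun v => E6_mem _ (X v) P s' (h * a) E (fun v' => y v' v) δ hE v (hδ' v)
  have hsm : ∃ M : ℕ, ∀ e : Fin m →₀ ℕ, M ≤ dg e → C (s' * E) * monomial e 1 ∈ Jac S.ft := by
    refine ⟨m * (S.d - 2) + 1, fun e he => ?_⟩
    have h1 := ha' (s' * h * ∏ v, δ v) e he
    have h2 : s' * E = s' * h * (∏ v, δ v) * a := by
      rw [hE]
      ring
    rw [h2]
    exact h1
  have hom : S.ft.IsHomogeneous S.d := by
    have h1 : S.G.IsHomogeneous S.d := Hm_iff.1 hS.homG
    have h2 : S.H.IsHomogeneous S.d := Hm_iff.1 hS.homH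
    exact (h1.map _).sub ((h2.map _).C_mul _)
  obtain ⟨B, hBs, N, hBN⟩ := E6_gram hS.hd S.ft hom (s' * E) hΔ0 hsm (V := V) K fun v v' => by
    have h1 := hB (monomial v.1 1) (monomial v'.1 1)
    have h2 := hB (monomial v'.1 1) (monomial v.1 1)
    rw [hsym] at h2
    exact h1.symm.trans h2
  refine ⟨⟨S.ft, c, h, s' * E, Matrix.of fun v' v => y v' v * E, B⟩, ?_, rfl, hΔ0⟩
  refine ⟨hS.hN, hS.hd, hom, hC, fun v => ?_, ⟨s' * a * ∏ v, δ v, ?_⟩, hsm, hBs, N, hBN⟩
  · have h1 := hkey v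
    rw [hXd] at h1
    simp only [hPd] at h1
    exact h1
  · show s' * E = h * (s' * a * ∏ v, δ v)
    rw [hE]
    ring

end MPadcOE
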