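import Pool.Agent.Lib.MP_adc574_ag_OE.HE
import Pool.Agent.Lib.MP_adc574_ag_OE.R4
import Pool.Agent.Lib.MP_adc574_ag_OH.S8
import Pool.Agent.Lib.MP_adc574_ag_OH.P7

/-!
# LEAF S8 (folder OE): the family data are defined over a finitely generated ring (medium; copy of OH/S8, simpler)

PROOF. Copy of `spread_HD` in MP_adc574_ag_OH/S8.lean for the fields `F`, `c`, `h`, `Δ`, `G`, `B`: finite set of coefficients, `cert_rel` for `hH.rel v`, `cert_jac` for `sm`, `cert_cd`, the quotient `Δ / h`. `sym` by injectivity.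
`bil`: `R = Polynomial A` is a domain; `C HA.Δ * X i ^ M ∈ Jac HA.F`; `bil_bc` (OH/P7) gives for every pair `b v v'`, `n v v'`; take a common `n` (multiply `b` by powers of `Δ`). Over `κ`: `α` = the injective map `A[X] → κ[X] → RatFunc κ`, with `hH.bil` (exponent `N`) for `L = RatFunc κ`: `α Δ ^ N * Bil = α B`, `α Δ ^ n * Bil = α b`, so `Δ ^ n * B v v' = Δ ^ N * b v v'` in `A[X]`.
So for every `L`, `β` with `β Δ ≠ 0`: `β Δ ^ n * (β Δ ^ N * Bil) = β Δ ^ N * β b = β Δ ^ n * β B`, cancel. (`RegF` over `RatFunc κ`: `regF`, OE/R4.)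
-/

set_option autoImplicit false

namespace MPadcOE

open MvPolynomial MPadcGM MPadcHM MPadcLZ MPadcBK MPadcOA MPadcOH

private noncomputable def S8e_T {κ : Type} [Field κ] (q : Polynomial κ) : Finset κ :=
  open Classical in q.support.image q.coeff

private theorem S8e_mem {κ : Type} [Field κ] (A : Subalgebra ℤ κ) (q : Polynomial κ)
    (h : ∀ x ∈ S8e_T q, x ∈ A) (j : ℕ) : q.coeff j ∈ A := by
  classical
  by_cases hj : q.coeff j = 0
  · rw [hj]
    exact A.zero_mem
  · refine h _ ?_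
    unfold S8e_T
    exact Finset.mem_image.2 ⟨j, Polynomial.mem_support_iff.2 hj, rfl⟩

private theorem S8e_lift {κ : Type} [Field κ] (A : Subalgebra ℤ κ) (q : Polynomial κ)
    (h : ∀ x ∈ S8e_T q, x ∈ A) : ∃ q' : Polynomial A, q'.map (algebraMap A κ) = q := by
  have h1 := S8e_mem A q h
  have h2 : q ∈ Polynomial.lifts (algebraMap A κ) := by
    rw [Polynomial.lifts_iff_coeff_lifts]
    intro j
    exact ⟨⟨q.coeff j, h1 j⟩, rfl⟩
  exact (Polynomial.mem_lifts q).1 h2

private theorem S8e_inj {κ : Type} [Field κ] (A : Subalgebra ℤ κ) :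
    Function.Injective (algebraMap A κ) := fun _ _ h => Subtype.ext h

private theorem S8e_pinj {κ : Type} [Field κ] (A : Subalgebra ℤ κ) {p q : Polynomial A}
    (h : p.map (algebraMap A κ) = q.map (algebraMap A κ)) : p = q :=
  Polynomial.map_injective _ (S8e_inj A) h

private theorem S8e_coeff_cder {R : Type} [CommRing R] {m : ℕ} (D : Derivation ℤ R R) (P : MvPolynomial (Fin m) R)
    (e : Fin m →₀ ℕ) : coeff e (cder D P) = D (coeff e P) := by
  classical
  unfold cder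
  rw [coeff_sum]
  simp only [coeff_monomial]
  rw [Finset.sum_ite_eq']
  split_ifs with h
  · rfl
  · rw [notMem_support_iff.1 h, map_zero]

private theorem S8e_cder {R S : Type} [CommRing R] [CommRing S] (φ : R →+* S) {m : ℕ}
    (P : MvPolynomial (Fin m) (Polynomial R)) :
    (cder (dX R) P).map (Polynomial.mapRingHom φ) = cder (dX S) (P.map (Polynomial.mapRingHom φ)) := by
  ext1 e
  rw [coeff_map, S8e_coeff_cder, S8e_coeff_cder, coeff_map]
  change Polynomial.map φ (Polynomial.derivative _) = Polynomial.derivative (Polynomial.map φ _)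
  rw [Polynomial.derivative_map]

private theorem S8e_nb {R S : Type} [CommRing R] [CommRing S] (φ : R →+* S) {m : ℕ}
    (F P : MvPolynomial (Fin m) (Polynomial R)) :
    (nb (dX R) F P).map (Polynomial.mapRingHom φ) =
      nb (dX S) (F.map (Polynomial.mapRingHom φ)) (P.map (Polynomial.mapRingHom φ)) := by
  unfold nb
  rw [map_add, map_mul, S8e_cder, S8e_cder]

private theorem S8e_fin (m N : ℕ) : {e : Fin m →₀ ℕ | tdg e ≤ N}.Finite := by
  refine (Set.finite_Iic (Finsupp.equivFunOnFinite.symm (fun _ : Fin m => N))).subset ?_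
  intro e he
  have he' : tdg e ≤ N := he
  rw [Set.mem_Iic, Finsupp.le_def]
  intro i
  change e i ≤ N
  unfold tdg at he'
  have h1 := Finset.single_le_sum (f := fun i => e i + 1) (fun _ _ => Nat.zero_le _) (Finset.mem_univ i)
  have h2 : e i + 1 ≤ ∑ i, (e i + 1) := h1
  omega

private theorem S8e_fin' (m M : ℕ) : {e : Fin m →₀ ℕ | dg e = M}.Finite := by
  refine (Set.finite_Iic (Finsupp.equivFunOnFinite.symm (fun _ : Fin m => M))).subset ?_
  intro e he
  have he' : dg e = M := he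
  rw [Set.mem_Iic, Finsupp.le_def]
  intro i
  change e i ≤ M
  rw [← he']
  exact Finset.single_le_sum (f := fun i => e i) (fun _ _ => Nat.zero_le _) (Finset.mem_univ i)

/-- Splitting of an exponent. -/
private theorem S8e_split {m : ℕ} (M : ℕ) : ∀ (k : ℕ) (e : Fin m →₀ ℕ), dg e = M + k →
    ∃ e' e'' : Fin m →₀ ℕ, e = e' + e'' ∧ dg e' = M := by
  intro k
  induction k with
  | zero => exact fun e he => ⟨e, 0, (add_zero e).symm, he⟩
  | succ k ih =>
    intro e he
    have h1 : ∃ i, e i ≠ 0 := by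
      by_contra hn
      push Not at hn
      have h2 : dg e = 0 := Finset.sum_eq_zero fun i _ => hn i
      omega
    obtain ⟨i, hi⟩ := h1
    have h3 : e = (e - Finsupp.single i 1) + Finsupp.single i 1 := by
      ext j
      rw [Finsupp.add_apply, Finsupp.tsub_apply]
      by_cases hj : i = j
      · subst hj
        rw [Finsupp.single_eq_same]
        omega
      · rw [Finsupp.single_eq_of_ne' hj]
        omega
    have h4 : dg e = dg (e - Finsupp.single i 1) + 1 := by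
      have h5 : dg e = dg ((e - Finsupp.single i 1) + Finsupp.single i 1) := by rw [← h3]
      rw [h5]
      unfold dg
      simp only [Finsupp.add_apply]
      rw [Finset.sum_add_distrib]
      congr 1
      rw [Finset.sum_eq_single i]
      · rw [Finsupp.single_eq_same]
      · intro j _ hj
        exact Finsupp.single_eq_of_ne hj
      · exact fun h => absurd (Finset.mem_univ i) h
    obtain ⟨e', e'', he1, he2⟩ := ih (e - Finsupp.single i 1) (by omega)
    refine ⟨e', e'' + Finsupp.single i 1, ?_, he2⟩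
    rw [← add_assoc, ← he1, ← h3]

private theorem S8e_bil {K : Type} [Field K] {m : ℕ} {e d : ℕ} {F F' : MvPolynomial (Fin m) K} (h : F = F')
    (hF : RegF e F) (hF' : RegF e F') (P Q : MvPolynomial (Fin m) K) : Bil hF d P Q = Bil hF' d P Q := by
  subst h
  rfl

private theorem S8e_ext {κ : Type} [CommRing κ] {m : ℕ} {V : Finset (Fin m →₀ ℕ)} (H : HE κ m V)
    {F : MvPolynomial (Fin m) (Polynomial κ)} {c : V → (Fin m →₀ ℕ) → Polynomial κ} {h Δ : Polynomial κ}
    {G B : Matrix V V (Polynomial κ)} (h1 : F = H.F) (h2 : c = H.c) (h3 : h = H.h) (h4 : Δ = H.Δ)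
    (h5 : G = H.G) (h6 : B = H.B) : (⟨F, c, h, Δ, G, B⟩ : HE κ m V) = H := by
  subst h1 h2 h3 h4 h5 h6
  rfl

private theorem S8e_dg {m : ℕ} (i : Fin m) (M : ℕ) : dg (Finsupp.single i M) = M := by
  unfold dg
  rw [Finset.sum_eq_single i]
  · rw [Finsupp.single_eq_same]
  · intro j _ hj
    exact Finsupp.single_eq_of_ne hj
  · exact fun h => absurd (Finset.mem_univ i) h

/-- The properties of a lift from the finitely many memberships. -/
private theorem S8e_ok {κ : Type} [Field κ] {m d : ℕ} {V : Finset (Fin m →₀ ℕ)} (A : Subalgebra ℤ κ) (HA : HE A m V)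
    (hH : (HA.map (algebraMap A κ)).Ok d) (hΔ : (HA.map (algebraMap A κ)).Δ ≠ 0)
    (hcd : CData d (m - 1) HA.F (fun v : V => v.1) (fun v : V => lvl d v.1) HA.c HA.h)
    (hrel : ∀ v : V, C HA.Δ * nb (dX A) HA.F (monomial v.1 1) - ∑ v' : V, C (HA.G v' v) * monomial v'.1 1 ∈ relR d HA.F)
    (hhd : HA.h ∣ HA.Δ)
    (hsm : ∃ M : ℕ, ∀ e : Fin m →₀ ℕ, dg e = M → C HA.Δ * monomial e 1 ∈ Jac HA.F) : HA.Ok d := by
  have hΔ' : HA.Δ ≠ 0 := by
    intro h0
    apply hΔ
    change HA.Δ.map (algebraMap A κ) = 0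
    rw [h0, Polynomial.map_zero]
  have hhom : HA.F.IsHomogeneous d := by
    intro e he
    have hh := hH.hom
    refine hh (d := e) ?_
    change coeff e (HA.F.map (Polynomial.mapRingHom (algebraMap A κ))) ≠ 0
    rw [coeff_map]
    intro h0
    apply he
    apply S8e_pinj A
    rw [Polynomial.map_zero]
    exact h0
  have hsm' : ∃ M : ℕ, ∀ e : Fin m →₀ ℕ, M ≤ dg e → C HA.Δ * monomial e 1 ∈ Jac HA.F := by
    obtain ⟨M, hM⟩ := hsm
    refine ⟨M, fun e he => ?_⟩
    obtain ⟨e', e'', h1, h2⟩ := S8e_split M (dg e - M) e (by omega)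
    have h3 : (monomial e (1 : Polynomial A) : MvPolynomial (Fin m) (Polynomial A)) =
        monomial e' 1 * monomial e'' 1 := by
      rw [monomial_mul, ← h1, mul_one]
    rw [h3, ← mul_assoc]
    exact Ideal.mul_mem_right _ _ (hM e' h2)
  refine ⟨hH.hm, hH.hd, hhom, hcd, hrel, hhd, hsm', ?_, ?_⟩
  · -- sym
    have h1 := hH.sym
    ext1 i j
    apply S8e_pinj A
    exact congrFun (congrFun h1 i) j
  · -- bil
    obtain ⟨M, hM⟩ := hsm'
    have ha : ∀ i, C HA.Δ * X i ^ M ∈ Jac HA.F := by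
      intro i
      rw [X_pow_eq_monomial]
      exact hM _ (S8e_dg i M).ge
    obtain ⟨N, hN⟩ := hH.bil
    have hα : Function.Injective (algebraMap (Polynomial κ) (RatFunc κ)) := RatFunc.algebraMap_injective κ
    obtain ⟨α, hαd⟩ : ∃ α : Polynomial A →+* RatFunc κ, α = (algebraMap (Polynomial κ) (RatFunc κ)).comp
        (Polynomial.mapRingHom (algebraMap A κ)) := ⟨_, rfl⟩
    have hα' : Function.Injective α := by
      intro x y hxy
      rw [hαd] at hxy
      apply S8e_pinj A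
      exact hα hxy
    have hκΔ : algebraMap (Polynomial κ) (RatFunc κ) (HA.map (algebraMap A κ)).Δ ≠ 0 := by
      intro h0
      apply hΔ
      apply hα
      rw [h0, map_zero]
    have hαΔ : α HA.Δ ≠ 0 := by
      intro h0
      apply hΔ'
      apply hα'
      rw [h0, map_zero]
    have hreg := regF (HA.map (algebraMap A κ)) hH (algebraMap (Polynomial κ) (RatFunc κ)) hκΔ
    have hF : HA.F.map α = (HA.map (algebraMap A κ)).F.map (algebraMap (Polynomial κ) (RatFunc κ)) := by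
      change _ = (HA.F.map (Polynomial.mapRingHom (algebraMap A κ))).map _
      rw [MvPolynomial.map_map, hαd]
    have hreg' : RegF (d - 1) (HA.F.map α) := by
      rw [hF]
      exact hreg
    refine ⟨N, fun L _ β hβ K v v' => ?_⟩
    obtain ⟨b, n, hb⟩ := bil_bc hH.hd HA.F hhom HA.Δ M ha v.1 v'.1
    have h1 := hb (RatFunc κ) α hαΔ hreg'
    have h2 := hN (RatFunc κ) (algebraMap (Polynomial κ) (RatFunc κ)) hκΔ hreg v v'
    rw [← S8e_bil hF hreg' hreg] at h2
    have h3 : α HA.Δ ^ N * Bil hreg' d (monomial v.1 1) (monomial v'.1 1) = α (HA.B v v') := by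
      have eΔ : α HA.Δ = algebraMap (Polynomial κ) (RatFunc κ) (HA.map (algebraMap A κ)).Δ := by
        rw [hαd]
        rfl
      have eB : α (HA.B v v') = algebraMap (Polynomial κ) (RatFunc κ) ((HA.map (algebraMap A κ)).B v v') := by
        rw [hαd]
        rfl
      rw [eΔ, eB]
      exact h2
    have h4 : HA.Δ ^ n * HA.B v v' = HA.Δ ^ N * b := by
      apply hα'
      rw [map_mul, map_mul, map_pow, map_pow, ← h1, ← h3]
      ring
    have h5 := congrArg β h4
    rw [map_mul, map_mul, map_pow, map_pow, ← hb L β hβ K] at h5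
    have h6 : β HA.Δ ^ n ≠ 0 := pow_ne_zero _ hβ
    apply mul_left_cancel₀ h6
    rw [h5]
    ring

theorem spread_HE {κ : Type} [Field κ] {m d : ℕ} {V : Finset (Fin m →₀ ℕ)} (H : HE κ m V) (hH : H.Ok d) (hΔ : H.Δ ≠ 0) :
    ∃ (A : Subalgebra ℤ κ) (HA : HE A m V), A.FG ∧ HA.Ok d ∧ HA.map (algebraMap A κ) = H := by
  classical
  obtain ⟨TF, hTF⟩ := exists_coefs H.F
  obtain ⟨a, ha⟩ := hH.hdvd
  have hrel := fun v => cert_rel H.F _ (hH.rel v)
  choose Tr hTr using hrel
  obtain ⟨Tc, hTc⟩ := cert_cd hH.cd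
  obtain ⟨M, hM⟩ := hH.sm
  have hfin : Finite {e : Fin m →₀ ℕ // dg e = M} := (S8e_fin' m M).to_subtype
  have := Fintype.ofFinite {e : Fin m →₀ ℕ // dg e = M}
  have hsm := fun e : {e : Fin m →₀ ℕ // dg e = M} =>
    cert_jac H.F (C H.Δ * monomial e.1 1) (hM e.1 e.2.ge)
  choose Ts hTs using hsm
  have hfin2 : Finite {e : Fin m →₀ ℕ // tdg e ≤ (m - 1) * d} := (S8e_fin m ((m - 1) * d)).to_subtype
  have := Fintype.ofFinite {e : Fin m →₀ ℕ // tdg e ≤ (m - 1) * d}
  -- the finite sets as one family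
  obtain ⟨A, hFG, hTF', hTr', hTc', hTs', hcT, hhT, hΔT, hGT, hBT, haT⟩ :
      ∃ A : Subalgebra ℤ κ, A.FG ∧ (∀ x ∈ TF, x ∈ A) ∧ (∀ l, ∀ x ∈ Tr l, x ∈ A) ∧ (∀ x ∈ Tc, x ∈ A) ∧
        (∀ e, ∀ x ∈ Ts e, x ∈ A) ∧
        (∀ (v : V) (e : {e : Fin m →₀ ℕ // tdg e ≤ (m - 1) * d}), ∀ x ∈ S8e_T (H.c v e.1), x ∈ A) ∧
        (∀ x ∈ S8e_T H.h, x ∈ A) ∧ (∀ x ∈ S8e_T H.Δ, x ∈ A) ∧
        (∀ v v' : V, ∀ x ∈ S8e_T (H.G v v'), x ∈ A) ∧ (∀ v v' : V, ∀ x ∈ S8e_T (H.B v v'), x ∈ A) ∧
        (∀ x ∈ S8e_T a, x ∈ A) := by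
    let T1 : Finset κ := Finset.univ.biUnion Tr
    let T2 : Finset κ := Finset.univ.biUnion Ts
    let T3 : Finset κ := (Finset.univ : Finset (V × {e : Fin m →₀ ℕ // tdg e ≤ (m - 1) * d})).biUnion
      fun t => S8e_T (H.c t.1 t.2.1)
    let T4 : Finset κ := (Finset.univ : Finset (V × V)).biUnion fun t => S8e_T (H.G t.1 t.2)
    let T5 : Finset κ := (Finset.univ : Finset (V × V)).biUnion fun t => S8e_T (H.B t.1 t.2)
    let T : Finset κ := TF ∪ (T1 ∪ (Tc ∪ (T2 ∪ (T3 ∪ (S8e_T H.h ∪ (S8e_T H.Δ ∪ (T4 ∪ (T5 ∪ S8e_T a))))))))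
    have hT : ∀ x ∈ T, x ∈ Algebra.adjoin ℤ (T : Set κ) := fun x hx => Algebra.subset_adjoin hx
    have hu : ∀ x, x ∈ T ↔ x ∈ TF ∨ x ∈ T1 ∨ x ∈ Tc ∨ x ∈ T2 ∨ x ∈ T3 ∨ x ∈ S8e_T H.h ∨ x ∈ S8e_T H.Δ ∨ x ∈ T4 ∨
        x ∈ T5 ∨ x ∈ S8e_T a := by
      intro x
      simp only [T, Finset.mem_union]
    refine ⟨Algebra.adjoin ℤ (T : Set κ), Subalgebra.fg_adjoin_finset T, fun x hx => hT x ((hu x).2 ?_),
      fun l x hx => hT x ((hu x).2 ?_), fun x hx => hT x ((hu x).2 ?_), fun e x hx => hT x ((hu x).2 ?_),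
      fun v e x hx => hT x ((hu x).2 ?_), fun x hx => hT x ((hu x).2 ?_), fun x hx => hT x ((hu x).2 ?_),
      fun v v' x hx => hT x ((hu x).2 ?_), fun v v' x hx => hT x ((hu x).2 ?_), fun x hx => hT x ((hu x).2 ?_)⟩
    · exact Or.inl hx
    · exact Or.inr (Or.inl (Finset.mem_biUnion.2 ⟨l, Finset.mem_univ _, hx⟩))
    · exact Or.inr (Or.inr (Or.inl hx))
    · exact Or.inr (Or.inr (Or.inr (Or.inl (Finset.mem_biUnion.2 ⟨e, Finset.mem_univ _, hx⟩))))
    · exact Or.inr (Or.inr (Or.inr (Or.inr (Or.inl (Finset.mem_biUnion.2 ⟨(v, e), Finset.mem_univ _, hx⟩)))))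
    · tauto
    · tauto
    · have : x ∈ T4 := Finset.mem_biUnion.2 ⟨(v, v'), Finset.mem_univ _, hx⟩
      tauto
    · have : x ∈ T5 := Finset.mem_biUnion.2 ⟨(v, v'), Finset.mem_univ _, hx⟩
      tauto
    · tauto
  -- the lifts
  obtain ⟨F', hF'⟩ := lift_mv A H.F (hTF A hTF')
  have hc0 : ∀ (v : V) (e : Fin m →₀ ℕ), ∃ q : Polynomial A, q.map (algebraMap A κ) = H.c v e := by
    intro v e
    by_cases he : tdg e = lvl d v.1 * d
    · exact S8e_lift A _ (hcT v ⟨e, by rw [he]; exact Nat.mul_le_mul_right _ (hH.cd.lv_le v)⟩)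
    · exact ⟨0, by rw [Polynomial.map_zero, hH.cd.zero v e he]⟩
  choose c' hc' using hc0
  obtain ⟨h', hh'⟩ := S8e_lift A H.h hhT
  obtain ⟨Δ', hΔ'⟩ := S8e_lift A H.Δ hΔT
  obtain ⟨a', ha'⟩ := S8e_lift A a haT
  choose G' hG' using fun v v' : V => S8e_lift A (H.G v v') (hGT v v')
  choose B' hB' using fun v v' : V => S8e_lift A (H.B v v') (hBT v v')
  have hmap : (⟨F', c', h', Δ', G', B'⟩ : HE A m V).map (algebraMap A κ) = H :=
    S8e_ext H hF' (funext fun v => funext fun e => hc' v e) hh' hΔ' (Matrix.ext fun v v' => hG' v v')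
      (Matrix.ext fun v v' => hB' v v')
  refine ⟨A, ⟨F', c', h', Δ', G', B'⟩, hFG, ?_, hmap⟩
  refine S8e_ok A _ (by rw [hmap]; exact hH) (by rw [hmap]; exact hΔ) ?_ ?_ ?_ ?_
  · exact hTc A hTc' F' c' h' hF' hc' hh'
  · intro v
    refine hTr v A (hTr' v) F' _ hF' ?_
    have e1 : (Polynomial.mapRingHom (algebraMap A κ)) Δ' = H.Δ := hΔ'
    have e4 : ∀ v v', (Polynomial.mapRingHom (algebraMap A κ)) (G' v v') = H.G v v' := hG'
    rw [map_sub, map_mul, S8e_nb, map_sum, hF', map_C, e1, map_monomial, map_one (Polynomial.mapRingHom (algebraMap A κ))]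
    simp only [map_mul, map_C, map_monomial, map_one, e4]
  · refine ⟨a', S8e_pinj A ?_⟩
    rw [Polynomial.map_mul, hh', ha', ← ha]
    exact hΔ'
  · refine ⟨M, fun e he => hTs ⟨e, he⟩ A (hTs' ⟨e, he⟩) F' _ hF' ?_⟩
    rw [map_mul, map_C, map_monomial, map_one (Polynomial.mapRingHom (algebraMap A κ))]
    have e1 : (Polynomial.mapRingHom (algebraMap A κ)) Δ' = H.Δ := hΔ'
    rw [e1]

end MPadcOE
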