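import Pool.Agent.Lib.MP_adc574_ag_OE.HE
import Pool.Agent.Lib.MP_adc574_ag_OH.S8a

/-!
# LEAF S8a (folder OE): the properties of the family data are stable under base change (easy+; copy of OH/S8a)

PROOF. Copy of `ok_map` in MP_adc574_ag_OH/S8a.lean: `hom`, `cd`, `rel`, `hdvd`, `sm` as there; `sym`: `Matrix.transpose_map`; `bil`: for `β : S[X] →+* L` use `hH.bil` with `β.comp (mapRingHom φ)` (`MvPolynomial.map_map`). `T_map`: `RingHom.map_adjugate`.
-/

set_option autoImplicit false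

namespace MPadcOE

open MvPolynomial MPadcGM MPadcHM MPadcLZ MPadcBK MPadcOA MPadcOH

private theorem S8e_jac {A B : Type*} [CommRing A] [CommRing B] {N : ℕ} (φ : A →+* B) (F P : MvPolynomial (Fin N) A)
    (h : P ∈ Jac F) : P.map φ ∈ Jac (F.map φ) := by
  have h1 := Ideal.mem_map_of_mem (MvPolynomial.map φ) h
  unfold Jac at h1 ⊢
  rw [Ideal.map_span] at h1
  refine Ideal.span_mono ?_ h1
  rintro _ ⟨_, ⟨i, rfl⟩, rfl⟩
  exact ⟨i, pderiv_map⟩

private theorem S8e_dl {A B : Type*} [CommRing A] [CommRing B] {N : ℕ} (φ : A →+* B) (F Q : MvPolynomial (Fin N) A)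
    (i : Fin N) : (dl F i Q).map φ = dl (F.map φ) i (Q.map φ) := by
  unfold dl
  rw [map_add, map_mul, pderiv_map, pderiv_map]

private theorem S8e_rel {A B : Type} [CommRing A] [CommRing B] {N d : ℕ} (φ : A →+* B) (F P : MvPolynomial (Fin N) A)
    (h : P ∈ relR d F) : P.map φ ∈ relR d (F.map φ) := by
  unfold relR at h
  induction h using Submodule.span_induction with
  | mem x hx =>
    rcases hx with ⟨i, Q, rfl⟩ | ⟨e, he, rfl⟩
    · exact Submodule.subset_span (Or.inl ⟨i, Q.map φ, S8e_dl φ F Q i⟩)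
    · refine Submodule.subset_span (Or.inr ⟨e, he, ?_⟩)
      rw [map_monomial, map_one]
  | zero => rw [map_zero]; exact Submodule.zero_mem _
  | add x y _ _ hx hy => rw [map_add]; exact Submodule.add_mem _ hx hy
  | smul a x _ hx =>
    have h1 : (a • x).map φ = φ a • x.map φ := by
      rw [MvPolynomial.smul_eq_C_mul, map_mul, map_C, MvPolynomial.smul_eq_C_mul]
    rw [h1]
    exact Submodule.smul_mem _ _ hx

private theorem S8e_nb {R S : Type} [CommRing R] [CommRing S] {m : ℕ} (φ : R →+* S)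
    (F P : MvPolynomial (Fin m) (Polynomial R)) :
    nb (dX S) (F.map (Polynomial.mapRingHom φ)) (P.map (Polynomial.mapRingHom φ)) =
      (nb (dX R) F P).map (Polynomial.mapRingHom φ) := by
  have h : ∀ a : Polynomial R, dX S (Polynomial.mapRingHom φ a) = Polynomial.mapRingHom φ (dX R a) := by
    intro a
    show Polynomial.derivative (a.map φ) = (Polynomial.derivative a).map φ
    exact Polynomial.derivative_map a φ
  unfold nb
  rw [cder_map (Polynomial.mapRingHom φ) (dX R) (dX S) h, cder_map (Polynomial.mapRingHom φ) (dX R) (dX S) h,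
    map_add, map_mul]

private theorem S8e_mon {R S : Type} [CommRing R] [CommRing S] {m : ℕ} (φ : R →+* S) (v : Fin m →₀ ℕ) :
    MvPolynomial.map (Polynomial.mapRingHom φ) (monomial v (1 : Polynomial R)) = monomial v 1 := by
  rw [map_monomial, map_one (Polynomial.mapRingHom φ)]

private theorem S8e_cd {R S : Type} [CommRing R] [CommRing S] {m d : ℕ} {V : Finset (Fin m →₀ ℕ)} {H : HE R m V}
    (hH : H.Ok d) (φ : R →+* S) :
    CData d (m - 1) (H.map φ).F (fun v : V => v.1) (fun v : V => lvl d v.1) (H.map φ).c (H.map φ).h := by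
  have h1 := hH.cd.map (Polynomial.mapRingHom φ)
  exact h1

private theorem S8e_rel2 {R S : Type} [CommRing R] [CommRing S] {m d : ℕ} {V : Finset (Fin m →₀ ℕ)} {H : HE R m V}
    (hH : H.Ok d) (φ : R →+* S) (v : V) :
    C (H.map φ).Δ * nb (dX S) (H.map φ).F (monomial v.1 1) -
      ∑ v' : V, C ((H.map φ).G v' v) * monomial v'.1 1 ∈ relR d (H.map φ).F := by
  have h1 := S8e_rel (Polynomial.mapRingHom φ) _ _ (hH.rel v)
  have h4 : MvPolynomial.map (Polynomial.mapRingHom φ) (C H.Δ * nb (dX R) H.F (monomial v.1 1) -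
      ∑ v' : V, C (H.G v' v) * monomial v'.1 1) =
      C (Polynomial.mapRingHom φ H.Δ) * nb (dX S) (H.F.map (Polynomial.mapRingHom φ)) (monomial v.1 1) -
      ∑ v' : V, C (Polynomial.mapRingHom φ (H.G v' v)) * monomial v'.1 1 := by
    rw [map_sub, map_mul, map_C, map_sum, ← S8e_nb, S8e_mon]
    refine congrArg _ (Finset.sum_congr rfl fun v' _ => ?_)
    rw [map_mul, map_C, S8e_mon]
  rw [h4] at h1
  exact h1

private theorem S8e_sm {R S : Type} [CommRing R] [CommRing S] {m d : ℕ} {V : Finset (Fin m →₀ ℕ)} {H : HE R m V}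
    (hH : H.Ok d) (φ : R →+* S) :
    ∃ M : ℕ, ∀ e : Fin m →₀ ℕ, M ≤ dg e → C (H.map φ).Δ * monomial e 1 ∈ Jac (H.map φ).F := by
  obtain ⟨M, hM⟩ := hH.sm
  refine ⟨M, fun e he => ?_⟩
  have h1 := S8e_jac (Polynomial.mapRingHom φ) _ _ (hM e he)
  have h2 : MvPolynomial.map (Polynomial.mapRingHom φ) (C H.Δ * monomial e 1) =
      C (Polynomial.mapRingHom φ H.Δ) * monomial e 1 := by
    rw [map_mul, map_C, S8e_mon]
  rw [h2] at h1
  exact h1

private theorem S8e_bil {R S : Type} [CommRing R] [CommRing S] {m d : ℕ} {V : Finset (Fin m →₀ ℕ)} {H : HE R m V}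
    (φ : R →+* S) (N : ℕ)
    (hN : ∀ (L : Type) [Field L] (β : Polynomial R →+* L), β H.Δ ≠ 0 → ∀ (K : RegF (d - 1) (H.F.map β)) (v v' : V),
      β H.Δ ^ N * Bil K d (monomial v.1 1) (monomial v'.1 1) = β (H.B v v'))
    (L : Type) [Field L] (β : Polynomial S →+* L) (hβ : β (H.map φ).Δ ≠ 0)
    (K : RegF (d - 1) ((H.map φ).F.map β)) (v v' : V) :
    β (H.map φ).Δ ^ N * Bil K d (monomial v.1 1) (monomial v'.1 1) = β ((H.map φ).B v v') := by
  have key : ∀ (F' : MvPolynomial (Fin m) L) (_ : F' = H.F.map (β.comp (Polynomial.mapRingHom φ)))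
      (K' : RegF (d - 1) F'), β (H.map φ).Δ ^ N * Bil K' d (monomial v.1 1) (monomial v'.1 1) =
        β ((H.map φ).B v v') := by
    intro F' hF' K'
    subst hF'
    exact hN L (β.comp (Polynomial.mapRingHom φ)) hβ K' v v'
  exact key _ (MvPolynomial.map_map _ _ _) K

theorem ok_map {R S : Type} [CommRing R] [CommRing S] {m d : ℕ} {V : Finset (Fin m →₀ ℕ)} {H : HE R m V} (hH : H.Ok d)
    (φ : R →+* S) : (H.map φ).Ok d := by
  obtain ⟨N, hN⟩ := hH.bil
  refine ⟨hH.hm, hH.hd, hH.hom.map _, S8e_cd hH φ, S8e_rel2 hH φ, ?_, S8e_sm hH φ, ?_, N,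
    fun L _ β hβ K v v' => S8e_bil φ N hN L β hβ K v v'⟩
  · exact Polynomial.map_dvd φ hH.hdvd
  · show (H.B.map (Polynomial.mapRingHom φ)).transpose = H.B.map (Polynomial.mapRingHom φ)
    rw [← Matrix.transpose_map, hH.sym]

theorem T_map {R S : Type} [CommRing R] [CommRing S] {m : ℕ} {V : Finset (Fin m →₀ ℕ)} (H : HE R m V) (φ : R →+* S) :
    (H.map φ).T = H.T.map (Polynomial.mapRingHom φ) := by
  show (H.B.map (Polynomial.mapRingHom φ)).adjugate = H.B.adjugate.map (Polynomial.mapRingHom φ)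
  exact ((Polynomial.mapRingHom φ).map_adjugate H.B).symm

end MPadcOE
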