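import Pool.Agent.Lib.MP_adc574_ag_OE.R3
import Pool.Agent.Lib.MP_adc574_ag_OE.R5

/-!
# LEAF T1 (folder OE): the system with frame of a family in characteristic `p` (medium-; copy of OH/T1)

PROOF. `horU`, `nuT`, `rkU`: as `fr_ok` in MP_adc574_ag_OH/T1.lean (`fU_der` R3, `fU_li` R5). `isoU`: `fU_iso` (R4). `symT`: `Matrix.adjugate_transpose`, `hH.sym`. `detT`: `(T.map (eval α)).det = (adjugate (B.map (eval α))).det = (det (B.map (eval α))) ^ (card - 1)` (`RingHom.map_adjugate` with `evalRingHom α`, `Matrix.det_adjugate`), `det_B` (R4).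
`isoE`: `E = B (low i) _`, so `E * T * Eᵀ` at `i i'` is `∑ w w', B (low i) w * T w w' * B (low i') w'`; `B * T = det B • 1` (`Matrix.mul_adjugate`), so it is `det B * B (low i') (low i)` (`hH.sym`), which is 0 by `B_low` (R4). `rkE`: the rows of `B.map (eval α)` are independent (`det ≠ 0`: `Matrix.linearIndependent_rows_of_det_ne_zero`), composed with the injective `low`.
-/

set_option autoImplicit false

namespace MPadcOE

open MvPolynomial MPadcGM MPadcHM MPadcLZ MPadcBK MPadcOA MPadcOH

/-- The system with frame. -/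
noncomputable def HE.fr {k : Type} [Field k] (p : ℕ) [Fact p.Prime] [CharP k p] {m : ℕ} {V : Finset (Fin m →₀ ℕ)} (H : HE k m V)
    (d : ℕ) {g : ℕ} (low : Fin g ≃ {v : V // 2 * lvl d v.1 < m}) : FrT g V k where
  Δ := H.Δ
  G := H.G
  T := H.T
  U := fun i w => H.fU p d (low i).1 w
  nu := fun i i' => H.fn p d (low i).1 (low i').1
  E := fun i w => H.B (low i).1 w

theorem fr_ok {k : Type} [Field k] (p : ℕ) [Fact p.Prime] [CharP k p] {m d : ℕ} {V : Finset (Fin m →₀ ℕ)} (H : HE k m V)
    (hH : H.Ok d) (hΔ : H.Δ ≠ 0) (hp : d * m < p) {g : ℕ} (low : Fin g ≃ {v : V // 2 * lvl d v.1 < m}) (c : ℕ)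
    (h1 : H.Δ.natDegree ≤ c) (h2 : ∀ i j, (H.G i j).natDegree ≤ c) (h3 : ∀ i j, (H.B i j).natDegree ≤ c)
    (h4 : ∀ i j, (H.T i j).natDegree ≤ c) : (H.fr p d low).Ok (fun a => lvl d (low a).1.1) c := by
  classical
  obtain ⟨r, hr⟩ : ∃ r : Fin g → V, ∀ i, r i = (low i).1 := ⟨_, fun _ => rfl⟩
  have hinj : Function.Injective r := by
    intro a b hab
    rw [hr, hr] at hab
    exact low.injective (Subtype.ext hab)
  have hrng : ∀ v : V, 2 * lvl d v.1 < m → v ∈ Set.range r := by
    intro v hv
    refine ⟨low.symm ⟨v, hv⟩, ?_⟩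
    rw [hr, Equiv.apply_symm_apply]
  have hlt : ∀ i, 2 * lvl d (r i).1 < m := by
    intro i
    rw [hr]
    exact (low i).2
  have hlw : ∀ i i', lvl d (r i).1 + lvl d (r i').1 ≤ m - 1 := by
    intro i i'
    have h5 := hlt i
    have h6 := hlt i'
    omega
  have hev : ∀ α : k, H.Δ.eval α ≠ 0 → (H.B.map (Polynomial.eval α)).det ≠ 0 := fun α hα =>
    det_B H hH (Polynomial.evalRingHom α) hα
  have hder := fU_der p H hH hp
  have hiso := fU_iso p H hH hΔ hp
  have hli := fU_li p H hH hp
  have hlow := B_low H hH hΔ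
  have hfn0 : ∀ v v' : V, ¬ lvl d v'.1 + 1 = lvl d v.1 → H.fn p d v v' = 0 := fun v v' h => by
    unfold HE.fn
    exact if_neg h
  obtain ⟨D, hD⟩ : ∃ D, D = H.fr p d low := ⟨_, rfl⟩
  have hDΔ : D.Δ = H.Δ := by rw [hD]; rfl
  have hDG : D.G = H.G := by rw [hD]; rfl
  have hDT : D.T = H.T := by rw [hD]; rfl
  have hT : H.T = H.B.adjugate := rfl
  have hU : ∀ i w, D.U i w = H.fU p d (r i) w := fun i w => by
    rw [hD, hr]
    rfl
  have hE : ∀ i w, D.E i w = H.B (r i) w := fun i w => by
    rw [hD, hr]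
    rfl
  have hnu : ∀ i i', D.nu i i' = H.fn p d (r i) (r i') := fun i i' => by
    rw [hD, hr, hr]
    rfl
  rw [← hD]
  clear hD
  generalize H.fU p d = FU at hder hiso hli hU
  generalize H.fn p d = FN at hder hfn0 hnu
  refine
    { ne := ?_
      degD := ?_
      degG := fun i j => ?_
      degT := fun i j => ?_
      degE := fun i j => ?_
      symT := ?_
      detT := fun α hα => ?_
      horU := fun i l => ?_
      nuT := fun a b hab => ?_
      isoU := ?_
      rkU := fun α hα => ?_
      isoE := ?_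
      rkE := fun α hα => ?_ }
  · rw [hDΔ]
    exact hΔ
  · rw [hDΔ]
    exact h1
  · rw [hDG]
    exact h2 i j
  · rw [hDT]
    exact h4 i j
  · rw [hE]
    exact h3 _ _
  · rw [hDT, hT, Matrix.adjugate_transpose, hH.sym]
  · rw [hDΔ] at hα
    have h5 : (H.B.adjugate).map (Polynomial.eval α) = (H.B.map (Polynomial.eval α)).adjugate :=
      RingHom.map_adjugate (Polynomial.evalRingHom α) H.B
    rw [hDT, hT, h5, Matrix.det_adjugate]
    exact pow_ne_zero _ (hev α hα)
  · have h5 := hder (r i) l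
    rw [hDΔ, hU, h5, Matrix.mul_apply, Matrix.mul_apply, hDG]
    congr 1
    · refine Finset.sum_congr rfl fun w _ => ?_
      rw [hU]
    · refine (Fintype.sum_of_injective r hinj _ _ (fun v' hv' => ?_) fun i' => ?_).symm
      · rw [hfn0 (r i) v' fun h7 => hv' (hrng v' (by
          have h8 := hlt i
          omega)), zero_mul]
      · rw [hU, hnu]
  · rw [hnu]
    refine hfn0 _ _ fun h5 => hab ?_
    show lvl d (low b).1.1 < lvl d (low a).1.1
    rw [← hr, ← hr]
    omega
  · refine Matrix.ext fun i i' => ?_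
    have h5 := hiso (r i) (r i') (hlw i i')
    rw [Matrix.mul_apply, Matrix.zero_apply, ← h5, Finset.sum_comm]
    refine Finset.sum_congr rfl fun w' _ => ?_
    rw [Matrix.mul_apply, Finset.sum_mul]
    refine Finset.sum_congr rfl fun w _ => ?_
    rw [Matrix.transpose_apply, hU, hU, hDT]
  · rw [hDΔ] at hα
    have h5 := (hli α hα).comp r hinj
    have h6 : (fun (i : Fin g) (l : V) => (D.U i l).eval α) = (fun (v w : V) => (FU v w).eval α) ∘ r := by
      funext i l
      rw [hU]
      rfl
    rw [h6]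
    exact h5
  · refine Matrix.ext fun i i' => ?_
    rw [Matrix.mul_apply, Matrix.zero_apply]
    have h5 : ∀ w', (D.E * D.T) i w' = if r i = w' then H.B.det else 0 := by
      intro w'
      rw [Matrix.mul_apply]
      have h6 : ∑ w, D.E i w * D.T w w' = (H.B * H.B.adjugate) (r i) w' := by
        rw [Matrix.mul_apply, hDT, hT]
        refine Finset.sum_congr rfl fun w _ => ?_
        rw [hE]
      rw [h6, Matrix.mul_adjugate, Matrix.smul_apply, Matrix.one_apply, smul_eq_mul]
      split_ifs
      · rw [mul_one]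
      · rw [mul_zero]
    have h7 : ∀ w', (D.E * D.T) i w' * D.E.transpose w' i' = if r i = w' then H.B.det * H.B (r i') w' else 0 := by
      intro w'
      rw [h5 w', Matrix.transpose_apply, hE, ite_mul, zero_mul]
    rw [Finset.sum_congr rfl fun w' _ => h7 w', Finset.sum_ite_eq, if_pos (Finset.mem_univ _),
      hlow (r i') (r i) (hlw i' i), mul_zero]
  · rw [hDΔ] at hα
    have h5 : LinearIndependent k (H.B.map (Polynomial.eval α)).row :=
      Matrix.linearIndependent_rows_of_det_ne_zero (hev α hα)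
    have h6 : (fun (i : Fin g) (l : V) => (D.E i l).eval α) = (H.B.map (Polynomial.eval α)).row ∘ r := by
      funext i l
      rw [hE]
      rfl
    rw [h6]
    exact h5.comp r hinj

end MPadcOE
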