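import Pool.Agent.Lib.MP_adc574_ag_OE.AtN
import Pool.Agent.Lib.MP_adc574_ag_OE.R6
import Pool.Agent.Lib.MP_adc574_ag_OE.S7
import Pool.Agent.Lib.MP_adc574_ag_OE.S8
import Pool.Agent.Lib.MP_adc574_ag_OE.S8a
import Pool.Agent.Lib.MP_adc574_ag_OH.T2

/-!
# LEAF T2 (folder OE): the family data of a sequence of Morse pencils (medium-; copy of OH/T2)

PROOF. Copy of `exists_seq` in MP_adc574_ag_OH/T2.lean (private lemmas `T2e_`) with `exists_HE` (S7), `spread_HE` (S8), `ok_map`, `T_map` (S8a), `fU_deg` (R6), `exists_homs` (OH/S9). The matrices `G`, `B`, `T` all go in the same way (`hpol` for every entry; `T`: `HA.T`, `H.T = HA.T.map ..` by `T_map` and `hmap`, `(Hn n).T = HA.T.map ..`);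
`c` = the sum of the degrees of `HA.Δ` and of all entries of `HA.G`, `HA.B`, `HA.T`. For the `n` without a homomorphism take any `HE` (all fields 0).
-/

set_option autoImplicit false

namespace MPadcOE

open MvPolynomial MPadcGM MPadcHM MPadcLZ MPadcBK MPadcOA MPadcOH

private theorem T2e_exps {m d : ℕ} (e : Fin m →₀ ℕ) (h : ∀ i, e i ≤ d) : e ∈ exps m d := by
  classical
  unfold exps
  rw [Finset.mem_image]
  refine ⟨fun i => ⟨e i, Nat.lt_succ_of_le (h i)⟩, Finset.mem_univ _, ?_⟩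
  ext i
  rfl

private theorem T2e_hom {R : Type} [CommRing R] {m d : ℕ} {G : MvPolynomial (Fin m) R} (hG : G.IsHomogeneous d)
    {e : Fin m →₀ ℕ} (he : e ∉ exps m d) : coeff e G = 0 := by
  by_contra h
  apply he
  refine T2e_exps e fun i => ?_
  have h1 : e.degree = d := by
    rw [Finsupp.degree_eq_weight_one]
    exact hG h
  rw [← h1]
  exact Finsupp.le_degree i e

private theorem T2e_pen_map {R S : Type} [CommRing R] [CommRing S] {m : ℕ} (i₀ : Fin m) (d : ℕ)
    (G : MvPolynomial (Fin m) R) (f : R →+* S) :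
    (pen i₀ d G).map (Polynomial.mapRingHom f) = pen i₀ d (G.map f) := by
  have e : (Polynomial.mapRingHom f).comp Polynomial.C = (Polynomial.C : S →+* Polynomial S).comp f :=
    RingHom.ext fun x => by simp
  unfold pen
  rw [map_sub, map_mul, map_pow, map_X, map_C, MvPolynomial.map_map, MvPolynomial.map_map,
    Polynomial.coe_mapRingHom, Polynomial.map_X, e]

private theorem T2e_pen_zero {R : Type} [CommRing R] {m d : ℕ} (i₀ : Fin m) (G : MvPolynomial (Fin m) R) :
    (pen i₀ d G).map (Polynomial.evalRingHom (0 : R)) = G := by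
  unfold pen
  rw [map_sub, map_mul, map_pow, map_X, map_C, MvPolynomial.map_map, Polynomial.coe_evalRingHom, Polynomial.eval_X,
    C_0, zero_mul, sub_zero]
  have h : (Polynomial.evalRingHom (0 : R)).comp (Polynomial.C : R →+* Polynomial R) = RingHom.id R := by
    ext x
    simp
  rw [h, MvPolynomial.map_id]

/-- The equation of the lifted family is a pencil. -/
private theorem T2e_lift {κ : Type} [Field κ] {m d : ℕ} (i₀ : Fin m) (A : Subalgebra ℤ κ)
    (F : MvPolynomial (Fin m) (Polynomial A)) (G : MvPolynomial (Fin m) κ)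
    (h : F.map (Polynomial.mapRingHom (algebraMap A κ)) = pen i₀ d G) :
    ∃ GA : MvPolynomial (Fin m) A, GA.map (algebraMap A κ) = G ∧ F = pen i₀ d GA := by
  have e : (Polynomial.evalRingHom (0 : κ)).comp (Polynomial.mapRingHom (algebraMap A κ)) =
      (algebraMap A κ).comp (Polynomial.evalRingHom (0 : A)) := by
    refine Polynomial.ringHom_ext (fun x => ?_) ?_
    · simp
    · simp
  have h1 := congrArg (MvPolynomial.map (Polynomial.evalRingHom (0 : κ))) h
  rw [T2e_pen_zero, MvPolynomial.map_map, e, ← MvPolynomial.map_map] at h1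
  refine ⟨F.map (Polynomial.evalRingHom (0 : A)), h1, ?_⟩
  apply map_mv_inj A
  rw [T2e_pen_map, h, h1]

/-- Some family, in order to have data for all places. -/
private noncomputable def T2e_def {R S : Type} [CommRing R] [CommRing S] {m : ℕ} {V : Finset (Fin m →₀ ℕ)}
    (_H : HE R m V) : HE S m V where
  F := 0
  c := fun _ _ => 0
  h := 0
  Δ := 0
  G := 0
  B := 0

private theorem T2e_seq {A : Type} [CommRing A] {k : ℕ → Type} [∀ n, Field (k n)] {m : ℕ} {V : Finset (Fin m →₀ ℕ)}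
    (HA : HE A m V) (φ : ∀ n, A → k n) :
    ∃ Hn : ∀ n, HE (k n) m V, ∀ n, ∀ f : A →+* k n, (∀ a, f a = φ n a) → Hn n = HA.map f := by
  have h : ∀ n, ∃ Hn : HE (k n) m V, ∀ f : A →+* k n, (∀ a, f a = φ n a) → Hn = HA.map f := by
    intro n
    by_cases h : ∃ f : A →+* k n, ∀ a, f a = φ n a
    · obtain ⟨f, hf⟩ := h
      refine ⟨HA.map f, fun f' hf' => ?_⟩
      have e : f = f' := RingHom.ext fun a => (hf a).trans (hf' a).symm
      rw [e]
    · exact ⟨T2e_def HA, fun f hf => absurd ⟨f, hf⟩ h⟩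
  choose Hn hHn using h
  exact ⟨Hn, hHn⟩

private theorem T2e_le {R S ι : Type} [CommRing R] [CommRing S] [Fintype ι] (M : Matrix ι ι (Polynomial R)) (f : R →+* S)
    (i j : ι) : (((M.map (Polynomial.mapRingHom f)) i j).natDegree) ≤ ∑ i, ∑ j, (M i j).natDegree := by
  have h1 : (M.map (Polynomial.mapRingHom f)) i j = (M i j).map f := rfl
  rw [h1]
  refine (Polynomial.natDegree_map_le (p := M i j) (f := f)).trans ?_
  refine le_trans ?_ (Finset.single_le_sum (f := fun i => ∑ j, (M i j).natDegree)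
    (fun _ _ => Nat.zero_le _) (Finset.mem_univ i))
  exact Finset.single_le_sum (f := fun j => (M i j).natDegree) (fun _ _ => Nat.zero_le _) (Finset.mem_univ j)

theorem exists_seqE {m d : ℕ} (hm : 4 ≤ m) (he : Even m) (hd : 3 ≤ d) (i₀ : Fin m) (k : ℕ → Type) [∀ n, Field (k n)]
    [∀ n, IsAlgClosed (k n)] (p : ℕ → ℕ) [∀ n, Fact (p n).Prime] [∀ n, CharP (k n) (p n)] (hp : ∀ n, n ≤ p n)
    (G : ∀ n, MvPolynomial (Fin m) (k n)) (hG : ∀ n, (G n).IsHomogeneous d) (hM : ∀ n, MorseOver i₀ d (G n)) :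
    ∃ (V : Finset (Fin m →₀ ℕ)) (H : HE (LL k) m V) (Hn : ∀ n, HE (k n) m V) (c C₀ : ℕ), H.Ok d ∧
      H.F = pen i₀ d (ultP d G) ∧ H.Δ ≠ 0 ∧ ∀ᶠ n in HF, AtN (d := d) i₀ G H Hn c n ∧
        ∀ v w, ((Hn n).fU (p n) d v w).natDegree ≤ C₀ * p n := by
  have hcl : IsAlgClosed (LL k) := MPadcPC.closed_LL
  have hcz : CharZero (LL k) := charZero_LL p hp
  obtain ⟨V, H, hOk, hFH, hΔH⟩ := exists_HE hm he hd i₀ (ultP d G) (hom_ultP G hG) (morse_ult i₀ G hG hM)
  obtain ⟨A, HA, hfg, hHA, hmap⟩ := spread_HE H hOk hΔH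
  obtain ⟨φ, hφ, hφ'⟩ := exists_homs A hfg
  obtain ⟨Hn, hHn⟩ := T2e_seq HA φ
  obtain ⟨C₀, hC₀⟩ := fU_deg HA hHA
  have hF : HA.F.map (Polynomial.mapRingHom (algebraMap A (LL k))) = pen i₀ d (ultP d G) :=
    (congrArg HE.F hmap).trans hFH
  obtain ⟨GA, hGA, hFA⟩ := T2e_lift i₀ A HA.F (ultP d G) hF
  -- the form at almost all places
  have hGn : ∀ᶠ n in HF, ∀ e ∈ exps m d, φ n (coeff e GA) = coeff e (G n) := by
    refine (Filter.eventually_all_finset _).2 fun e _ => ?_
    rw [← cl_eq (x := fun n => φ n (coeff e GA)) (y := fun n => coeff e (G n)), hφ, ← coeff_ultP G hG e, ← hGA,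
      coeff_map]
    rfl
  have hGA0 : ∀ e, e ∉ exps m d → coeff e GA = 0 := by
    intro e he
    have h1 := T2e_hom (hom_ultP G hG) he
    rw [← hGA, coeff_map] at h1
    exact Subtype.ext h1
  -- polynomials at almost all places
  have hpol : ∀ (P : Polynomial A) (Q : Polynomial (LL k)), P.map (algebraMap A (LL k)) = Q →
      ∀ᶠ n in HF, ∀ f : A →+* k n, (∀ a, f a = φ n a) → rp Q n = P.map f := by
    intro P Q hPQ
    have h1 : ∀ n, ∃ q : Polynomial (k n), q.natDegree ≤ P.natDegree ∧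
        ∀ f : A →+* k n, (∀ a, f a = φ n a) → q = P.map f := by
      intro n
      by_cases h : ∃ f : A →+* k n, ∀ a, f a = φ n a
      · obtain ⟨f, hf⟩ := h
        refine ⟨P.map f, Polynomial.natDegree_map_le, fun f' hf' => ?_⟩
        have e : f = f' := RingHom.ext fun a => (hf a).trans (hf' a).symm
        rw [e]
      · exact ⟨0, by simp, fun f hf => absurd ⟨f, hf⟩ h⟩
    choose q hq1 hq2 using h1
    have h2 := rp_of_coeff Q q P.natDegree (Filter.Eventually.of_forall hq1) (by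
      intro j
      have h3 : Q.coeff j = cl fun n => φ n (P.coeff j) := by
        rw [hφ, ← hPQ, Polynomial.coeff_map]
        rfl
      rw [h3, cl_eq]
      filter_upwards [hφ'] with n hn
      obtain ⟨f, hf⟩ := hn
      rw [hq2 n f hf, Polynomial.coeff_map, hf])
    filter_upwards [h2] with n hn f hf
    rw [hn]
    exact hq2 n f hf
  have hmat : ∀ (M : Matrix V V (Polynomial A)) (N : Matrix V V (Polynomial (LL k))),
      M.map (Polynomial.mapRingHom (algebraMap A (LL k))) = N → ∀ᶠ n in HF, ∀ f : A →+* k n, (∀ a, f a = φ n a) →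
        MPadcEO.mq N n = M.map (Polynomial.mapRingHom f) := by
    intro M N hMN
    have h1 : ∀ᶠ n in HF, ∀ i j, ∀ f : A →+* k n, (∀ a, f a = φ n a) → rp (N i j) n = (M i j).map f :=
      Filter.eventually_all.2 fun i => Filter.eventually_all.2 fun j =>
        hpol (M i j) (N i j) (congrFun (congrFun hMN i) j)
    filter_upwards [h1] with n hn f hf
    funext i j
    exact hn i j f hf
  have hΔn := hpol HA.Δ H.Δ (congrArg HE.Δ hmap)
  have hGm := hmat HA.G H.G (congrArg HE.G hmap)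
  have hBm := hmat HA.B H.B (congrArg HE.B hmap)
  have hTm := hmat HA.T H.T (by rw [← hmap, T_map])
  refine ⟨V, H, Hn, HA.Δ.natDegree + (∑ i, ∑ j, (HA.G i j).natDegree) + (∑ i, ∑ j, (HA.B i j).natDegree) +
    ∑ i, ∑ j, (HA.T i j).natDegree, C₀, hOk, hFH, hΔH, ?_⟩
  filter_upwards [hφ', hGn, hΔn, hGm, hBm, hTm, rp_ne_zero hΔH] with n h1 h2 h3 h4 h4b h4t h5
  obtain ⟨f, hf⟩ := h1
  have hTn : (Hn n).T = HA.T.map (Polynomial.mapRingHom f) := by rw [hHn n f hf, T_map]
  refine ⟨?_, fun v w => by rw [hHn n f hf]; exact hC₀ (k n) (p n) f v w⟩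
  unfold AtN
  rw [hTn, hHn n f hf]
  refine ⟨ok_map hHA f, ?_, ?_, h3 f hf, h4 f hf, h4b f hf, h4t f hf, ?_, ?_, ?_, ?_⟩
  · show HA.F.map (Polynomial.mapRingHom f) = pen i₀ d (G n)
    rw [hFA, T2e_pen_map]
    congr 1
    ext e
    rw [coeff_map, hf]
    by_cases he : e ∈ exps m d
    · exact h2 e he
    · rw [T2e_hom (hG n) he, hGA0 e he, ← hf, map_zero]
  · intro h6
    apply h5
    rw [h3 f hf]
    exact h6
  · have h7 : (HA.map f).Δ.natDegree ≤ HA.Δ.natDegree := Polynomial.natDegree_map_le (p := HA.Δ) (f := f)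
    omega
  · intro i j
    have h7 := T2e_le HA.G f i j
    have h8 : (HA.map f).G i j = (HA.G.map (Polynomial.mapRingHom f)) i j := rfl
    rw [h8]
    omega
  · intro i j
    have h7 := T2e_le HA.B f i j
    have h8 : (HA.map f).B i j = (HA.B.map (Polynomial.mapRingHom f)) i j := rfl
    rw [h8]
    omega
  · intro i j
    have h7 := T2e_le HA.T f i j
    omega

end MPadcOE
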