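import Pool.Agent.Lib.MP_adc574_ag_OE.AtN
import Pool.Agent.Lib.MP_adc574_ag_EO.Q5

/-!
# Big orthogonal monodromy of the ultraproduct of the pencils
-/

set_option autoImplicit false

namespace MPadcOE

open MvPolynomial MPadcGM MPadcHM MPadcLZ MPadcBK MPadcOA MPadcOH

theorem bigO_seq {m d : ℕ} (hm : 4 ≤ m) (he : Even m) (hd : 3 ≤ d) (i₀ : Fin m) (k : ℕ → Type) [∀ n, Field (k n)]
    [∀ n, IsAlgClosed (k n)] (p : ℕ → ℕ) [∀ n, Fact (p n).Prime] [∀ n, CharP (k n) (p n)] (hp : ∀ n, n ≤ p n)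
    (G : ∀ n, MvPolynomial (Fin m) (k n)) (hG : ∀ n, (G n).IsHomogeneous d) (hM : ∀ n, MorseOver i₀ d (G n))
    {V : Finset (Fin m →₀ ℕ)} (H : HE (LL k) m V) (Hn : ∀ n, HE (k n) m V) (c : ℕ) (hH : H.Ok d)
    (hF : H.F = pen i₀ d (ultP d G)) (hΔ : H.Δ ≠ 0) (hn : ∀ᶠ n in HF, AtN (d := d) i₀ G H Hn c n)
    (hlow : ∃ v : V, 2 * lvl d v.1 < m) : BigO H.Δ H.G H.T :=
  MPadcEO.bigO_seq hm he hd i₀ k p hp G hG hM H Hn c hH hF hΔ hn hlow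

end MPadcOE
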