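import Pool.Agent.Lib.MP_adc574_ag_EP.M2
import Pool.Agent.Lib.MP_adc574_ag_EP.T5
import Pool.Agent.Lib.MP_adc574_ag_EP.V1
import Pool.Agent.Lib.MP_adc574_ag_EP.V8
import Pool.Agent.Lib.MP_adc574_ag_OE.ED
import Pool.Agent.Lib.MP_adc574_ag_OH.SD

/-!
# The count for a sequence of systems with isotropic frames which are horizontal up to rows of smaller level
-/

set_option autoImplicit false

namespace MPadcOE

open Polynomial Matrix MPadcGM MPadcOA MPadcEP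

/-- The rows of level at most `j`, numbered by `Fin r`. -/
private def XB_low {g : ℕ} {ι : Type} {k : Type*} [Field k] (D : FrT g ι k) (lv : Fin g → ℕ) (j r : ℕ)
    (e : Fin r ≃ {a : Fin g // lv a ≤ j}) : FrR r ι k where
  Δ := D.Δ
  G := D.G
  S := D.T
  U := fun i => D.U (e i).1
  E := fun i => D.E (e i).1

private theorem XB_ok {g : ℕ} {ι : Type} [Fintype ι] [DecidableEq ι] {k : Type} [Field k] (D : FrT g ι k) (lv : Fin g → ℕ) (c : ℕ)
    (hD : D.Ok lv c) (j₀ r : ℕ) (e : Fin r ≃ {a : Fin g // lv a ≤ j₀}) : (XB_low D lv j₀ r e).Ok c := by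
  refine { ne := hD.ne, degD := hD.degD, degG := hD.degG, degS := hD.degT, symm := hD.symT, detS := hD.detT,
           horU := fun t => ?_, isoU := ?_, rkU := fun α hα => ?_, degE := fun i l => hD.degE _ _, isoE := ?_,
           rkE := fun α hα => ?_ }
  · refine derivative_pl_nu D.Δ (XB_low D lv j₀ r e).U D.G (fun i b => D.nu (e i).1 b) D.U (fun i l => ?_) (fun i b hb => ?_) t
    · exact hD.horU (e i).1 l
    · have hlt : lv b < lv (e i).1 := by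
        by_contra hc
        exact hb (hD.nuT _ _ hc)
      have hb1 : lv b ≤ j₀ := hlt.le.trans (e i).2
      have h2 : e (e.symm ⟨b, hb1⟩) = ⟨b, hb1⟩ := e.apply_symm_apply _
      refine ⟨e.symm ⟨b, hb1⟩, fun h3 => ?_, ?_⟩
      · rw [h3] at h2
        rw [h2] at hlt
        exact lt_irrefl _ hlt
      · show D.U (e (e.symm ⟨b, hb1⟩)).1 = D.U b
        rw [h2]
  · ext1 i j
    show (D.U * D.T * D.Uᵀ) (e i).1 (e j).1 = 0
    rw [hD.isoU]
    rfl
  · exact (hD.rkU α hα).comp (fun i => (e i).1) (Subtype.val_injective.comp e.injective)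
  · ext1 i j
    show (D.E * D.T * D.Eᵀ) (e i).1 (e j).1 = 0
    rw [hD.isoE]
    rfl
  · exact (hD.rkE α hα).comp (fun i => (e i).1) (Subtype.val_injective.comp e.injective)

theorem countO_seq {g : ℕ} (_hg : 0 < g) {ι : Type} [Fintype ι] [DecidableEq ι] (hgi : 2 * g < Fintype.card ι) (lv : Fin g → ℕ)
    (j₀ : ℕ) (col : {a : Fin g // lv a ≤ j₀} → ι) (hcol : Function.Injective col) (c C₀ : ℕ) (k : ℕ → Type) [∀ n, Field (k n)]
    [∀ n, IsAlgClosed (k n)] (p : ℕ → ℕ) [∀ n, CharP (k n) (p n)] (hpr : ∀ n, (p n).Prime) (hp : ∀ n, n ≤ p n)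
    (D : ∀ n, FrT g ι (k n)) (hok : ∀ᶠ n in HF, (D n).Ok lv c ∧ ∀ i l, ((D n).U i l).natDegree ≤ C₀ * p n)
    (hBig : ∀ (Δ' : (LL k)[X]) (G' T' : Matrix ι ι (LL k)[X]), (∀ᶠ n in HF, rp Δ' n = (D n).Δ) →
      (∀ᶠ n in HF, MPadcEO.mq G' n = (D n).G) → (∀ᶠ n in HF, MPadcEO.mq T' n = (D n).T) → BigO Δ' G' T')
    (ε : ℝ) (hε : 0 < ε) :
    ∀ᶠ n in HF, ∀ r : ℕ, 0 < r → ∀ (Z : Finset (k n)), (∀ τ ∈ Z, τ ^ p n ^ r = τ ∧ (D n).Δ.eval τ ≠ 0 ∧
        (Matrix.of fun a b : {a : Fin g // lv a ≤ j₀} => ((D n).U a.1 (col b)).eval τ).det = 0) →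
      (Z.card : ℝ) ≤ ε * (p n : ℝ) ^ r := by
  classical
  obtain ⟨r, hr⟩ : ∃ r : ℕ, r = Fintype.card {a : Fin g // lv a ≤ j₀} := ⟨_, rfl⟩
  have h : r ≤ g := by
    rw [hr]
    exact (Fintype.card_subtype_le _).trans (Fintype.card_fin g).le
  have h2r : 2 * r < Fintype.card ι := by omega
  obtain ⟨e⟩ : Nonempty (Fin r ≃ {a : Fin g // lv a ≤ j₀}) := by
    rw [hr]
    exact ⟨(Fintype.equivFin _).symm⟩
  have hinf : ∀ n, Infinite (k n) := fun n => IsAlgClosed.instInfinite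
  obtain ⟨N, hN⟩ := countO1 (ι := ι) (r := r) h2r (fun i => col (e i)) (hcol.comp e.injective) c (r * C₀) ε hε
  have hok' : ∀ᶠ n in HF, (XB_low (D n) lv j₀ r e).Ok c := by
    filter_upwards [hok] with n h1
    exact XB_ok (D n) lv c h1.1 j₀ r e
  have hnv : ∀ m L : ℕ, ∀ᶠ n in HF, ∀ Φ : (Fin m → Pq r ι) → (k n)[X], (∀ s, (Φ s).natDegree ≤ L) → ∀ α : k n,
      (XB_low (D n) lv j₀ r e).Δ.eval α ≠ 0 → (X - C α) ^ p n ∣ evp (pl (XB_low (D n) lv j₀ r e).U) Φ →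
      VanI (Matrix.map (XB_low (D n) lv j₀ r e).S (eval α)) fun s => (Φ s).eval α := fun m L =>
    nvO_seq h2r p hp (fun n => XB_low (D n) lv j₀ r e) hok' hBig m L
  have hnv' : ∀ᶠ n in HF, ∀ m : Fin (N + 1), ∀ Φ : (Fin m → Pq r ι) → (k n)[X], (∀ s, (Φ s).natDegree ≤ N) → ∀ α : k n,
      (XB_low (D n) lv j₀ r e).Δ.eval α ≠ 0 → (X - C α) ^ p n ∣ evp (pl (XB_low (D n) lv j₀ r e).U) Φ →
      VanI (Matrix.map (XB_low (D n) lv j₀ r e).S (eval α)) fun s => (Φ s).eval α :=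
    Filter.eventually_all.2 fun m => hnv m N
  filter_upwards [hnv', hok', hok, ev_large p hp N] with n h1 h1' h1'' h2 s hs Z hZ
  refine hN (p n) (hpr n) (by omega) (k n) (XB_low (D n) lv j₀ r e) h1' (fun t => ?_)
    (fun m hm => h1 ⟨m, by omega⟩) s hs 0 Z fun τ hτ => ?_
  · have h3 := natDegree_pl (XB_low (D n) lv j₀ r e).U (C₀ * p n) (fun i l => h1''.2 (e i).1 l) t
    rw [← mul_assoc] at h3
    exact h3
  · obtain ⟨h3, h4, h5⟩ := hZ τ hτ
    refine ⟨by rw [zero_mul, add_zero, mul_one]; exact h3, h4, ?_⟩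
    rw [← h5, ← Matrix.det_submatrix_equiv_self e]
    rfl

end MPadcOE
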