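import Pool.Agent.Lib.MP_adc574_ag_OE.R7
import Pool.Agent.Lib.MP_adc574_ag_OE.T1
import Pool.Agent.Lib.MP_adc574_ag_OE.T2
import Pool.Agent.Lib.MP_adc574_ag_OE.XA
import Pool.Agent.Lib.MP_adc574_ag_OE.XB
import Pool.Agent.Lib.MP_adc574_ag_OH.T3

/-!
# LEAF T3 (folder OE): the exceptional points of a sequence of Morse pencils, `m` even (medium-; copy of OH/T3)

PROOF. Copy of `seq_bad` in MP_adc574_ag_OH/T3.lean (no trivial system is needed). `exists_seqE` (T2). `g = Nat.card {v : V // 2 * lvl d v.1 < m}`, `low` from `(Finite.equivFin _).symm`, `lv a = lvl d (low a).1.1`, `D n = (Hn n).fr (p n) d low`.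
If `g = 0` there is no `v` with `2 * lvl v < m`, so for `2 * j < m` the determinant in `dj_low` (R7) is the determinant of an empty matrix, `1 ≠ 0` (`Matrix.det_isEmpty`): every `τ` with `Δ(τ) ≠ 0` has `Gd`, and `#Z ≤ #roots of Δ ≤ c ≤ ε p n` for large `n`. If `0 < g`: `2 * g < card V` (`card_low_even` (S5) for `H.F.map (algebraMap (LL k)[X] (RatFunc (LL k)))`, `regF` (R4), `hH.cd.map ..`, `Fintype.card_coe`), `countO_seq` (XB) with `col b = (low b.1).1`
for every `j₀` with `2 j₀ < m`; `hok`: `fr_ok` (T1), `AtN`, `d * m < p n` for large `n` (`ev_large`); `hBig`: `Δ' = H.Δ`, `G' = H.G`, `T' = H.T` (`rp_ext`, entrywise) and `bigO_seq` (XA; `hlow` from `0 < g`).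
-/

set_option autoImplicit false

namespace MPadcOE

open MvPolynomial MPadcGM MPadcHM MPadcLZ MPadcBK MPadcOA MPadcOH

private theorem T3e_gd {k : Type} [Field k] (p : ℕ) [Fact p.Prime] [CharP k p] {m g d : ℕ} (i₀ : Fin m)
    {V : Finset (Fin m →₀ ℕ)} (H : HE k m V) (hH : H.Ok d) (low : Fin g ≃ {v : V // 2 * lvl d v.1 < m})
    (G : MvPolynomial (Fin m) k) (hF : H.F = pen i₀ d G)
    (hp : d * m < p) (τ : k) (hτ : H.Δ.eval τ ≠ 0)
    (hdet : ∀ j, 2 * j < m → (Matrix.of fun a b : {a : Fin g // lvl d (low a).1.1 ≤ j} =>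
      (H.fU p d (low a.1).1 (low b.1).1).eval τ).det ≠ 0) : Gd p d (G - C τ * X i₀ ^ d) := by
  have hF' : H.F.map (Polynomial.evalRingHom τ) = G - C τ * X i₀ ^ d := by
    rw [hF]
    unfold pen
    rw [map_sub, map_mul, map_pow, MvPolynomial.map_X, MvPolynomial.map_C, MvPolynomial.map_map]
    have h1 : (Polynomial.evalRingHom τ).comp Polynomial.C = RingHom.id k := by
      ext x
      simp
    rw [h1, MvPolynomial.map_id]
    simp
  rw [← hF']
  have hh : H.h.eval τ ≠ 0 := by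
    obtain ⟨q, hq⟩ := hH.hdvd
    intro h0
    apply hτ
    rw [hq, Polynomial.eval_mul, h0, zero_mul]
  refine ⟨V, fun v e => (H.c v e).eval τ, H.h.eval τ, hh, ?_, ?_, ?_⟩
  · exact hH.cd.map (Polynomial.evalRingHom τ)
  · intro i
    obtain ⟨M, hM⟩ := hH.sm
    refine ⟨M, ?_⟩
    have hdg : M ≤ dg (Finsupp.single i M) := by
      unfold dg
      have h0 := Finset.single_le_sum (f := fun j => (Finsupp.single i M : Fin m →₀ ℕ) j)
        (fun j _ => Nat.zero_le _) (Finset.mem_univ i)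
      have h1 : (Finsupp.single i M : Fin m →₀ ℕ) i = M := Finsupp.single_eq_same
      calc M = (Finsupp.single i M : Fin m →₀ ℕ) i := h1.symm
        _ ≤ _ := h0
    have h2 := Ideal.mem_map_of_mem (MvPolynomial.map (Polynomial.evalRingHom τ)) (hM (Finsupp.single i M) hdg)
    unfold Jac at h2
    rw [Ideal.map_span, ← Set.range_comp] at h2
    have h3 : ((MvPolynomial.map (Polynomial.evalRingHom τ)) ∘ fun j => pderiv j H.F) =
        fun j => pderiv j (MvPolynomial.map (Polynomial.evalRingHom τ) H.F) := by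
      funext j
      rw [MvPolynomial.pderiv_map]
      rfl
    rw [h3, map_mul, MvPolynomial.map_C, MvPolynomial.map_monomial, map_one] at h2
    have h4 := Ideal.mul_mem_left _ (C (H.Δ.eval τ)⁻¹) h2
    rw [← mul_assoc, ← C_mul] at h4
    have h5 : (H.Δ.eval τ)⁻¹ * (Polynomial.evalRingHom τ) H.Δ = 1 := inv_mul_cancel₀ hτ
    rw [h5, C_1, one_mul] at h4
    rw [MvPolynomial.X_pow_eq_monomial]
    exact h4
  · intro j _ hj
    refine dj_all p H hH hp τ hτ (fun j hj => ?_) j hj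
    exact dj_low p H hH hp low τ hτ j hj (hdet j hj)

private theorem T3e_two {k : ℕ → Type} [∀ n, Field (k n)] {m d : ℕ} (hm : 4 ≤ m) (he : Even m) (hd : 3 ≤ d)
    {V : Finset (Fin m →₀ ℕ)} (H : HE (LL k) m V) (hH : H.Ok d) (hΔ : H.Δ ≠ 0) :
    2 * Nat.card {v : V // 2 * lvl d v.1 < m} < V.card := by
  have hβ : algebraMap (Polynomial (LL k)) (RatFunc (LL k)) H.Δ ≠ 0 := RatFunc.algebraMap_ne_zero hΔ
  have hh : algebraMap (Polynomial (LL k)) (RatFunc (LL k)) H.h ≠ 0 := by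
    obtain ⟨q, hq⟩ := hH.hdvd
    intro h0
    apply hβ
    rw [hq, map_mul, h0, zero_mul]
  exact card_low_even hm he hd (hH.hom.map _) (regF H hH _ hβ) (hH.cd.map _) hh

theorem seq_badE {m d : ℕ} (hm : 4 ≤ m) (he : Even m) (hd : 3 ≤ d) (i₀ : Fin m) (k : ℕ → Type) [∀ n, Field (k n)]
    [∀ n, IsAlgClosed (k n)] (p : ℕ → ℕ) [∀ n, Fact (p n).Prime] [∀ n, CharP (k n) (p n)] (hp : ∀ n, n ≤ p n)
    (G : ∀ n, MvPolynomial (Fin m) (k n)) (hG : ∀ n, (G n).IsHomogeneous d) (hM : ∀ n, MorseOver i₀ d (G n))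
    (ε : ℝ) (hε : 0 < ε) : ∀ᶠ n in HF, ∀ r : ℕ, 0 < r → ∀ Z : Finset (k n),
      (∀ τ ∈ Z, τ ^ p n ^ r = τ ∧ ¬ Gd (p n) d (G n - C τ * X i₀ ^ d)) → (Z.card : ℝ) ≤ ε * (p n : ℝ) ^ r := by
  classical
  obtain ⟨V, H, Hn, c, C₀, hHok, hF, hΔ, hev⟩ := exists_seqE hm he hd i₀ k p hp G hG hM
  have hpr : ∀ n, (p n).Prime := fun n => Fact.out
  obtain ⟨g, hgc, ⟨low⟩⟩ : ∃ g, Nat.card {v : V // 2 * lvl d v.1 < m} = g ∧
      Nonempty (Fin g ≃ {v : V // 2 * lvl d v.1 < m}) := ⟨_, rfl, ⟨(Finite.equivFin _).symm⟩⟩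
  obtain ⟨lv, hlv⟩ : ∃ lv : Fin g → ℕ, lv = fun a => lvl d (low a).1.1 := ⟨_, rfl⟩
  obtain ⟨D, hD⟩ : ∃ D : ∀ n, FrT g V (k n), D = fun n => (Hn n).fr (p n) d low := ⟨_, rfl⟩
  have hok : ∀ᶠ n in HF, (D n).Ok lv c ∧ ∀ i l, ((D n).U i l).natDegree ≤ C₀ * p n := by
    filter_upwards [hev, ev_large p hp (d * m)] with n hn hn'
    obtain ⟨⟨h1, h2, h3, h4, h5, h6, h7, h8, h9, h10, h11⟩, h12⟩ := hn
    rw [hD, hlv]
    exact ⟨fr_ok (p n) (Hn n) h1 h3 hn' low c h8 h9 h10 h11, fun i l => h12 _ _⟩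
  have hε' : 0 < ε / (2 * ((m : ℝ) + 1)) := by positivity
  have hcnt : ∀ᶠ n in HF, ∀ j ∈ Finset.range m, ∀ r : ℕ, 0 < r → ∀ (Z : Finset (k n)),
      (∀ τ ∈ Z, τ ^ p n ^ r = τ ∧ (D n).Δ.eval τ ≠ 0 ∧
        (Matrix.of fun a b : {a : Fin g // lv a ≤ j} => ((D n).U a.1 (low b.1).1).eval τ).det = 0) →
      (Z.card : ℝ) ≤ ε / (2 * ((m : ℝ) + 1)) * (p n : ℝ) ^ r := by
    rcases Nat.eq_zero_or_pos g with hg0 | hg
    · refine Filter.Eventually.of_forall fun n j _ r _ Z hZ => ?_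
      have hem : IsEmpty {a : Fin g // lv a ≤ j} := by
        refine ⟨fun a => ?_⟩
        have := a.1.2
        omega
      have hZ0 : Z = ∅ := by
        rw [Finset.eq_empty_iff_forall_notMem]
        intro τ hτ
        have h1 := (hZ τ hτ).2.2
        rw [Matrix.det_isEmpty] at h1
        exact one_ne_zero h1
      rw [hZ0, Finset.card_empty, Nat.cast_zero]
      positivity
    · have hgV : 2 * g < Fintype.card V := by
        rw [Fintype.card_coe, ← hgc]
        exact T3e_two hm he hd H hHok hΔ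
      have hlow : ∃ v : V, 2 * lvl d v.1 < m := ⟨(low ⟨0, hg⟩).1, (low ⟨0, hg⟩).2⟩
      have hBig : ∀ (Δ' : Polynomial (LL k)) (G' T' : Matrix V V (Polynomial (LL k))),
          (∀ᶠ n in HF, rp Δ' n = (D n).Δ) → (∀ᶠ n in HF, MPadcEO.mq G' n = (D n).G) →
          (∀ᶠ n in HF, MPadcEO.mq T' n = (D n).T) → BigO Δ' G' T' := by
        intro Δ' G' T' h1 h2 h3
        have e1 : Δ' = H.Δ := by
          apply rp_ext
          filter_upwards [h1, hev] with n a1 a2
          rw [a1, hD, a2.1.2.2.2.1]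
          rfl
        have e2 : G' = H.G := by
          refine Matrix.ext fun i j => ?_
          apply rp_ext
          filter_upwards [h2, hev] with n a1 a2
          have a3 : MPadcEO.mq G' n = MPadcEO.mq H.G n := by
            rw [a1, hD, a2.1.2.2.2.2.1]
            rfl
          exact congrFun (congrFun a3 i) j
        have e3 : T' = H.T := by
          refine Matrix.ext fun i j => ?_
          apply rp_ext
          filter_upwards [h3, hev] with n a1 a2
          have a3 : MPadcEO.mq T' n = MPadcEO.mq H.T n := by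
            rw [a1, hD, a2.1.2.2.2.2.2.2.1]
            rfl
          exact congrFun (congrFun a3 i) j
        rw [e1, e2, e3]
        exact bigO_seq hm he hd i₀ k p hp G hG hM H Hn c hHok hF hΔ (hev.mono fun n hn => hn.1) hlow
      rw [Filter.eventually_all_finset]
      intro j _
      exact countO_seq hg hgV lv j (fun b => (low b.1).1)
        (fun a b h => Subtype.ext (low.injective (Subtype.ext h))) c C₀ k p hpr hp D hok hBig _ hε'
  obtain ⟨N, hN⟩ := exists_nat_ge ((c : ℝ) / (ε / 2))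
  filter_upwards [hev, hcnt, ev_large p hp N, ev_large p hp (d * m)] with n h1 h3 h4 h5
  intro r hr Z hZ
  obtain ⟨⟨g1, g2, g5, g6, g7, g8', g9', g8, g9, g10, g11⟩, g12⟩ := h1
  have h2 : D n = (Hn n).fr (p n) d low := by rw [hD]
  have hsub : Z ⊆ Z.filter (fun τ => (Hn n).Δ.eval τ = 0) ∪ (Finset.range m).biUnion fun j => Z.filter fun τ =>
      (D n).Δ.eval τ ≠ 0 ∧
        (Matrix.of fun a b : {a : Fin g // lv a ≤ j} => ((D n).U a.1 (low b.1).1).eval τ).det = 0 := by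
    intro τ hτ
    rw [Finset.mem_union]
    by_cases h6 : (Hn n).Δ.eval τ = 0
    · exact Or.inl (Finset.mem_filter.2 ⟨hτ, h6⟩)
    · right
      by_contra hcon
      apply (hZ τ hτ).2
      refine T3e_gd (p n) i₀ (Hn n) g1 low (G n) g2 h5 τ h6 fun j hj h0 => hcon ?_
      rw [Finset.mem_biUnion]
      refine ⟨j, Finset.mem_range.2 (by omega), Finset.mem_filter.2 ⟨hτ, ?_, ?_⟩⟩
      · rw [h2]
        exact h6
      · rw [h2, hlv]
        exact h0
  have hp1 : (1 : ℝ) ≤ p n := by exact_mod_cast (hpr n).one_lt.le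
  have hpow : (p n : ℝ) ≤ (p n : ℝ) ^ r := by
    calc (p n : ℝ) = (p n : ℝ) ^ 1 := (pow_one _).symm
      _ ≤ (p n : ℝ) ^ r := pow_le_pow_right₀ hp1 hr
  have hc0 : ((Z.filter (fun τ => (Hn n).Δ.eval τ = 0)).card : ℝ) ≤ ε / 2 * (p n : ℝ) ^ r := by
    have a1 : Z.filter (fun τ => (Hn n).Δ.eval τ = 0) ⊆ (Hn n).Δ.roots.toFinset := by
      intro τ hτ
      rw [Multiset.mem_toFinset, Polynomial.mem_roots g5]
      exact (Finset.mem_filter.1 hτ).2
    have a2 : (Z.filter (fun τ => (Hn n).Δ.eval τ = 0)).card ≤ c :=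
      (Finset.card_le_card a1).trans ((Multiset.toFinset_card_le _).trans ((Polynomial.card_roots' _).trans g8))
    have a3 : (c : ℝ) ≤ ε / 2 * p n := by
      have a4 : (N : ℝ) ≤ p n := by exact_mod_cast h4.le
      have a5 := hN.trans a4
      rw [div_le_iff₀ (by positivity)] at a5
      linarith
    calc ((Z.filter (fun τ => (Hn n).Δ.eval τ = 0)).card : ℝ) ≤ c := by exact_mod_cast a2
      _ ≤ ε / 2 * p n := a3
      _ ≤ ε / 2 * (p n : ℝ) ^ r := mul_le_mul_of_nonneg_left hpow (by positivity)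
  have hcj : ∀ j ∈ Finset.range m, ((Z.filter fun τ => (D n).Δ.eval τ ≠ 0 ∧
        (Matrix.of fun a b : {a : Fin g // lv a ≤ j} => ((D n).U a.1 (low b.1).1).eval τ).det = 0).card : ℝ) ≤
      ε / (2 * ((m : ℝ) + 1)) * (p n : ℝ) ^ r := by
    intro j hj
    refine h3 j hj r hr _ fun τ hτ => ?_
    rw [Finset.mem_filter] at hτ
    exact ⟨(hZ τ hτ.1).1, hτ.2.1, hτ.2.2⟩
  have hcard := (Finset.card_le_card hsub).trans (Finset.card_union_le _ _)
  have hbi := Finset.card_biUnion_le (s := Finset.range m) (t := fun j => Z.filter fun τ =>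
      (D n).Δ.eval τ ≠ 0 ∧
        (Matrix.of fun a b : {a : Fin g // lv a ≤ j} => ((D n).U a.1 (low b.1).1).eval τ).det = 0)
  have hsum : ((∑ j ∈ Finset.range m, (Z.filter fun τ => (D n).Δ.eval τ ≠ 0 ∧
        (Matrix.of fun a b : {a : Fin g // lv a ≤ j} => ((D n).U a.1 (low b.1).1).eval τ).det = 0).card : ℕ) : ℝ) ≤
      m * (ε / (2 * ((m : ℝ) + 1)) * (p n : ℝ) ^ r) := by
    rw [Nat.cast_sum]
    refine (Finset.sum_le_sum hcj).trans (le_of_eq ?_)
    rw [Finset.sum_const, Finset.card_range, nsmul_eq_mul]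
  have hfin : (Z.card : ℝ) ≤ ε / 2 * (p n : ℝ) ^ r + m * (ε / (2 * ((m : ℝ) + 1)) * (p n : ℝ) ^ r) := by
    have b1 : (Z.card : ℝ) ≤ ((Z.filter (fun τ => (Hn n).Δ.eval τ = 0)).card : ℝ) +
        ((∑ j ∈ Finset.range m, (Z.filter fun τ => (D n).Δ.eval τ ≠ 0 ∧
          (Matrix.of fun a b : {a : Fin g // lv a ≤ j} => ((D n).U a.1 (low b.1).1).eval τ).det = 0).card : ℕ) : ℝ) := by
      exact_mod_cast hcard.trans (Nat.add_le_add_left hbi _)
    linarith
  refine hfin.trans ?_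
  have b2 : (m : ℝ) * (ε / (2 * ((m : ℝ) + 1))) ≤ ε / 2 := by
    have hm0 : (0 : ℝ) ≤ m := Nat.cast_nonneg m
    rw [mul_div_assoc', div_le_div_iff₀ (by positivity) (by norm_num)]
    nlinarith
  have b3 : (0 : ℝ) ≤ (p n : ℝ) ^ r := by positivity
  calc ε / 2 * (p n : ℝ) ^ r + m * (ε / (2 * ((m : ℝ) + 1)) * (p n : ℝ) ^ r)
      = (ε / 2 + m * (ε / (2 * ((m : ℝ) + 1)))) * (p n : ℝ) ^ r := by ring
    _ ≤ (ε / 2 + ε / 2) * (p n : ℝ) ^ r := mul_le_mul_of_nonneg_right (by linarith) b3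
    _ = ε * (p n : ℝ) ^ r := by ring

end MPadcOE
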