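import Pool.Agent.Lib.MP_adc574_ag_OE.T3
import Pool.Agent.Lib.MP_adc574_ag_OH.T4

/-!
# LEAF T4 (folder OE): almost all members of every Morse pencil of hypersurfaces over a large finite field are ordinary (easy; copy of OH/T4)

PROOF. `fewM_even`: copy of `fewM_odd` in MP_adc574_ag_OH/T4.lean with `seq_badE` (T3). `fewM_all`: `Nat.even_or_odd m`.
-/

set_option autoImplicit false

namespace MPadcOE

open MvPolynomial MPadcGM MPadcHM MPadcLZ MPadcBK MPadcOA MPadcOH

theorem fewM_even {m d : ℕ} (hm : 4 ≤ m) (he : Even m) (hd : 3 ≤ d) (i₀ : Fin m) : FewM m i₀ d := by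
  intro ε hε
  by_contra hcon
  push Not at hcon
  have hcon' := fun n : ℕ => hcon (n + d * m + 1)
  choose p hpr hp E ie ifn ic G hG hM hbad using hcon'
  have hpn : ∀ n, n ≤ p n := fun n => by
    have := hp n
    omega
  have hFact : ∀ n, Fact (p n).Prime := fun n => ⟨hpr n⟩
  have hchar : ∀ n, CharP (AlgebraicClosure (E n)) (p n) := fun n =>
    charP_of_injective_algebraMap (algebraMap (E n) (AlgebraicClosure (E n))).injective (p n)
  obtain ⟨n, hn⟩ := (seq_badE hm he hd i₀ (fun n => AlgebraicClosure (E n)) p hpn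
    (fun n => (G n).map (algebraMap (E n) (AlgebraicClosure (E n)))) (fun n => (hG n).map _) hM ε hε).exists
  have hft : Fintype (E n) := Fintype.ofFinite (E n)
  obtain ⟨r, -, hr⟩ := FiniteField.card (E n) (p n)
  refine absurd (hbad n) (not_lt.2 ?_)
  have hinj : Function.Injective (algebraMap (E n) (AlgebraicClosure (E n))) :=
    (algebraMap (E n) (AlgebraicClosure (E n))).injective
  obtain ⟨S, hS⟩ : ∃ S : Finset (E n), ∀ t, t ∈ S ↔
      (Smooth (G n - C t * X i₀ ^ d) → ¬ IsBlochKatoOrdinary (G n - C t * X i₀ ^ d)) := by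
    classical
    exact ⟨Finset.univ.filter fun t => Smooth (G n - C t * X i₀ ^ d) → ¬ IsBlochKatoOrdinary (G n - C t * X i₀ ^ d),
      fun t => by rw [Finset.mem_filter]; exact ⟨fun h => h.2, fun h => ⟨Finset.mem_univ _, h⟩⟩⟩
  have hc1 : Nat.card {t : E n // Smooth (G n - C t * X i₀ ^ d) → ¬ IsBlochKatoOrdinary (G n - C t * X i₀ ^ d)} =
      (S.map ⟨_, hinj⟩).card := by
    rw [Finset.card_map]
    exact Nat.subtype_card S hS
  have hc2 : (Nat.card (E n) : ℝ) = (p n : ℝ) ^ (r : ℕ) := by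
    rw [Nat.card_eq_fintype_card, hr]
    push_cast
    rfl
  rw [hc1, hc2]
  refine hn r r.pos _ fun τ hτ => ?_
  obtain ⟨t, ht, rfl⟩ := Finset.mem_map.1 hτ
  have ht' := (hS t).1 ht
  refine ⟨?_, fun hgd => ?_⟩
  · show (algebraMap (E n) (AlgebraicClosure (E n)) t) ^ p n ^ (r : ℕ) = algebraMap (E n) (AlgebraicClosure (E n)) t
    rw [← map_pow, ← hr, FiniteField.pow_card]
  · obtain ⟨V, c, h, hh, hC, hs, hdj⟩ := hgd
    have hmp : (G n).map (algebraMap (E n) (AlgebraicClosure (E n))) -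
        C ((⟨_, hinj⟩ : E n ↪ AlgebraicClosure (E n)) t) * X i₀ ^ d =
        (G n - C t * X i₀ ^ d).map (algebraMap (E n) (AlgebraicClosure (E n))) := by
      rw [map_sub, map_mul, map_pow, map_X, map_C]
      rfl
    have hhom : (G n - C t * X i₀ ^ d).IsHomogeneous d := by
      refine (hG n).sub ?_
      have h1 := (isHomogeneous_C (Fin m) t).mul (isHomogeneous_X_pow i₀ d)
      rwa [zero_add] at h1
    rw [hmp] at hC hs
    have hdj' : ∀ j, 1 ≤ j → j ≤ m - 1 →
        dj (p n) d ((G n - C t * X i₀ ^ d).map (algebraMap (E n) (AlgebraicClosure (E n)))) V c j ≠ 0 := by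
      intro j h1 h2
      rw [← hmp]
      exact hdj j h1 h2
    obtain ⟨h3, h4⟩ := bk_of (p n) (algebraMap (E n) (AlgebraicClosure (E n))) (by omega) hd (by have := hp n; omega) _
      hhom hh hC hs hdj'
    exact ht' h3 h4

theorem fewM_all {m d : ℕ} (hm : 3 ≤ m) (hd : 3 ≤ d) (i₀ : Fin m) : FewM m i₀ d := by
  rcases Nat.even_or_odd m with he | ho
  · refine fewM_even ?_ he hd i₀
    obtain ⟨r, hr⟩ := he
    omega
  · exact fewM_odd hm ho hd i₀

end MPadcOE
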